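import Mathlib
import Pool.Agent.helper85.AR.Main

/-!
# MP_2e0e07_nt (DS): the sign argument

If the coefficients of `ad0 ρ` and `det ρ` are in `alg V` and a polynomial relation for a linear
form in `ρ` over `alg V` is not invariant under `ρ ↦ -ρ` then the coefficients of `ρ` are in
`alg V`.
-/

namespace Pool.Agent.DS

open Matrix Polynomial Pool.Agent.GO Pool.Agent.AR

variable {F : Type*} [Field F] {Γ : Type*} [Group Γ] {ι : Type*} [Fintype ι] [DecidableEq ι]
  (V : Γ →* Matrix ι ι F) (ρ : Γ →* Matrix (Fin 2) (Fin 2) F)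

theorem conj_mem [CharZero F] (had : ∀ i j, (fun g => ad0 ρ g i j) ∈ alg V)
    (Z : Matrix (Fin 2) (Fin 2) F) (i l : Fin 2) :
    (fun g => (ρ g * Z * ρ g⁻¹) i l) ∈ alg V := by
  set c : F := Z.trace / 2 with hc
  set x : Fin 3 → F := co (Z - c • (1 : Matrix (Fin 2) (Fin 2) F)) with hx
  have h2 : (2 : F) ≠ 0 := two_ne_zero
  have hZ : Z = em x + c • (1 : Matrix (Fin 2) (Fin 2) F) := by
    rw [hx, em_co]
    · abel
    · rw [Matrix.trace_sub, Matrix.trace_smul, Matrix.trace_one, hc, Fintype.card_fin, smul_eq_mul]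
      push_cast
      field_simp
      ring
  have h1 : ∀ a : Fin 3, (fun g => (ad0 ρ g *ᵥ x) a) ∈ alg V := by
    intro a
    have h3 : (fun g => (ad0 ρ g *ᵥ x) a) = fun g => ∑ k, x k * ad0 ρ g a k := by
      ext g
      simp only [Matrix.mulVec, dotProduct]
      exact Finset.sum_congr rfl fun k _ => mul_comm _ _
    rw [h3]
    exact sum_mem_fun Finset.univ x (fun k g => ad0 ρ g a k) fun k _ => had a k
  have h4 : (fun g => (ρ g * Z * ρ g⁻¹) i l) =
      (fun g => em (ad0 ρ g *ᵥ x) i l) + fun _ => c * (1 : Matrix (Fin 2) (Fin 2) F) i l := by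
    ext g
    rw [Pi.add_apply, em_ad0]
    conv_lhs => rw [hZ]
    rw [Matrix.mul_add, Matrix.add_mul, Matrix.add_apply, Matrix.mul_smul, Matrix.mul_one,
      Matrix.smul_mul, ← map_mul, mul_inv_cancel, map_one, Matrix.smul_apply, smul_eq_mul]
  rw [h4]
  refine (alg V).add_mem ?_ ?_
  · fin_cases i <;> fin_cases l
    · exact h1 1
    · exact h1 0
    · exact h1 2
    · exact (alg V).neg_mem (h1 1)
  · exact (alg V).algebraMap_mem (c * (1 : Matrix (Fin 2) (Fin 2) F) i l)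

theorem prod_mem [CharZero F] (had : ∀ i j, (fun g => ad0 ρ g i j) ∈ alg V)
    (hdet : (fun g => (ρ g).det) ∈ alg V) (i j k l : Fin 2) :
    (fun g => ρ g i j * ρ g k l) ∈ alg V := by
  have h1 : ∀ a b : Fin 2, (fun g => ρ g i j * (ρ g).adjugate a b) ∈ alg V := by
    intro a b
    have h2 := (alg V).mul_mem hdet (conj_mem V ρ had (Matrix.single j a (1 : F)) i b)
    have h3 : (fun g => (ρ g).det) * (fun g => (ρ g * (Matrix.single j a (1 : F) : Matrix (Fin 2) (Fin 2) F) * ρ g⁻¹) i b) =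
        fun g => ρ g i j * (ρ g).adjugate a b := by
      ext g
      rw [Pi.mul_apply]
      have h4 : (ρ g).adjugate = (ρ g).det • ρ g⁻¹ := by
        have h5 : (ρ g).adjugate * (ρ g * ρ g⁻¹) = (ρ g).det • ρ g⁻¹ := by
          rw [← Matrix.mul_assoc, Matrix.adjugate_mul, Matrix.smul_mul, Matrix.one_mul]
        rwa [← map_mul, mul_inv_cancel, map_one, Matrix.mul_one] at h5
      rw [h4, Matrix.smul_apply, smul_eq_mul]
      have h6 : (ρ g * (Matrix.single j a (1 : F) : Matrix (Fin 2) (Fin 2) F) * ρ g⁻¹) i b = ρ g i j * ρ g⁻¹ a b := by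
        rw [Matrix.mul_apply]
        rw [Finset.sum_eq_single a]
        · rw [Matrix.mul_single_apply_same, mul_one]
        · intro c _ hc
          rw [Matrix.mul_single_apply_of_ne _ _ _ _ _ hc, zero_mul]
        · intro h; exact absurd (Finset.mem_univ a) h
      rw [h6]
      ring
    rw [h3] at h2
    exact h2
  have h00 : ∀ g, (ρ g).adjugate 0 0 = ρ g 1 1 := fun g => by rw [Matrix.adjugate_fin_two]; simp
  have h11 : ∀ g, (ρ g).adjugate 1 1 = ρ g 0 0 := fun g => by rw [Matrix.adjugate_fin_two]; simp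
  have h01 : ∀ g, (ρ g).adjugate 0 1 = -ρ g 0 1 := fun g => by rw [Matrix.adjugate_fin_two]; simp
  have h10 : ∀ g, (ρ g).adjugate 1 0 = -ρ g 1 0 := fun g => by rw [Matrix.adjugate_fin_two]; simp
  have e00 := h1 1 1
  have e11 := h1 0 0
  have e01 := (alg V).neg_mem (h1 0 1)
  have e10 := (alg V).neg_mem (h1 1 0)
  simp only [h11] at e00
  simp only [h00] at e11
  have q01 : -(fun g => ρ g i j * (ρ g).adjugate 0 1) = fun g => ρ g i j * ρ g 0 1 := by
    ext g; rw [Pi.neg_apply, h01]; ring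
  have q10 : -(fun g => ρ g i j * (ρ g).adjugate 1 0) = fun g => ρ g i j * ρ g 1 0 := by
    ext g; rw [Pi.neg_apply, h10]; ring
  rw [q01] at e01
  rw [q10] at e10
  fin_cases k <;> fin_cases l
  · exact e00
  · exact e01
  · exact e10
  · exact e11

/-- the `alg V`-module generated by the coefficients of `ρ` -/
def odd : Submodule F (Γ → F) where
  carrier := {f | ∃ a : Fin 2 × Fin 2 → Γ → F, (∀ q, a q ∈ alg V) ∧
    f = ∑ q, a q * fun g => ρ g q.1 q.2}
  zero_mem' := ⟨fun _ => 0, fun _ => (alg V).zero_mem, by simp⟩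
  add_mem' := by
    rintro _ _ ⟨a, ha, rfl⟩ ⟨b, hb, rfl⟩
    exact ⟨fun q => a q + b q, fun q => (alg V).add_mem (ha q) (hb q), by
      simp [add_mul, Finset.sum_add_distrib]⟩
  smul_mem' := by
    rintro c _ ⟨a, ha, rfl⟩
    exact ⟨fun q => c • a q, fun q => (alg V).smul_mem (ha q) c, by
      simp [Finset.smul_sum]⟩

theorem odd_mul {f h : Γ → F} (hf : f ∈ alg V) (hh : h ∈ odd V ρ) : f * h ∈ odd V ρ := by
  obtain ⟨a, ha, rfl⟩ := hh
  exact ⟨fun q => f * a q, fun q => (alg V).mul_mem hf (ha q), by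
    rw [Finset.mul_sum]
    exact Finset.sum_congr rfl fun q _ => by rw [mul_assoc]⟩

theorem odd_coef (i j : Fin 2) : (fun g => ρ g i j) ∈ odd V ρ := by
  classical
  refine ⟨fun q => if q = (i, j) then 1 else 0, fun q => ?_, ?_⟩
  · show (if q = (i, j) then (1 : Γ → F) else 0) ∈ alg V
    split_ifs
    · exact (alg V).one_mem
    · exact (alg V).zero_mem
  · simp [ite_mul]

theorem odd_lt (h : Γ) {f : Γ → F} (hf : f ∈ odd V ρ) : lt h f ∈ odd V ρ := by
  obtain ⟨a, ha, rfl⟩ := hf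
  rw [map_sum]
  refine Submodule.sum_mem _ fun q _ => ?_
  rw [map_mul]
  have h1 : lt h (fun g => ρ g q.1 q.2) = ∑ k, ρ h q.1 k • fun g => ρ g k q.2 := by
    ext g
    show ρ (h * g) q.1 q.2 = _
    rw [map_mul, Matrix.mul_apply, Finset.sum_apply]
    rfl
  rw [h1]
  exact odd_mul V ρ (alg_lt V h (ha q)) (Submodule.sum_mem _ fun k _ =>
    Submodule.smul_mem _ _ (odd_coef V ρ k q.2))

theorem odd_odd [CharZero F] (had : ∀ i j, (fun g => ad0 ρ g i j) ∈ alg V)
    (hdet : (fun g => (ρ g).det) ∈ alg V) {f h : Γ → F} (hf : f ∈ odd V ρ) (hh : h ∈ odd V ρ) :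
    f * h ∈ alg V := by
  obtain ⟨a, ha, rfl⟩ := hf
  obtain ⟨b, hb, rfl⟩ := hh
  rw [Finset.sum_mul_sum]
  refine (alg V).sum_mem fun q _ => (alg V).sum_mem fun q' _ => ?_
  have h1 : (a q * fun g => ρ g q.1 q.2) * (b q' * fun g => ρ g q'.1 q'.2) =
      (a q * b q') * fun g => ρ g q.1 q.2 * ρ g q'.1 q'.2 := by
    ext g; simp only [Pi.mul_apply]; ring
  rw [h1]
  exact (alg V).mul_mem ((alg V).mul_mem (ha q) (hb q')) (prod_mem V ρ had hdet _ _ _ _)

/-- either `ρ` has its coefficients in `alg V` or `alg V` and `odd V ρ` have intersection zero -/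
theorem coef_or_disjoint [CharZero F] (had : ∀ i j, (fun g => ad0 ρ g i j) ∈ alg V)
    (hdet : (fun g => (ρ g).det) ∈ alg V) :
    (∀ i j, (fun g => ρ g i j) ∈ alg V) ∨ ∀ f ∈ alg V, f ∈ odd V ρ → f = 0 := by
  by_cases h : ∀ f ∈ alg V, f ∈ odd V ρ → f = 0
  · exact Or.inr h
  left
  push Not at h
  obtain ⟨f, hf1, hf2, hf3⟩ := h
  obtain ⟨g₀, hg₀⟩ := Function.ne_iff.mp hf3
  have h1 : (1 : Γ → F) ∈ odd V ρ := by
    refine one_mem_of_stable (alg V) (fun f hf h => alg_rt V h hf) (fun f hf => alg_iv V hf)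
      (odd V ρ) (fun f hf j hj => odd_mul V ρ hf hj) (lt g₀ f) (alg_lt V g₀ hf1)
      (LF_alg V (alg_lt V g₀ hf1)) (fun h => odd_lt V ρ h (odd_lt V ρ g₀ hf2)) ?_
    show f (g₀ * 1) ≠ 0
    rw [mul_one]
    exact hg₀
  intro i j
  have h2 := odd_odd V ρ had hdet h1 (odd_coef V ρ i j)
  rwa [one_mul] at h2

/-- **The sign argument.** -/
theorem sign_core [CharZero F] (had : ∀ i j, (fun g => ad0 ρ g i j) ∈ alg V)
    (hdet : (fun g => (ρ g).det) ∈ alg V) (t : Γ → F) (ht : t ∈ odd V ρ)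
    (P : (Γ → F)[X]) (hP : ∀ k, P.coeff k ∈ alg V) (h0 : P.eval t = 0)
    (hne : P.eval (-t) ≠ 0) (i j : Fin 2) : (fun g => ρ g i j) ∈ alg V := by
  rcases coef_or_disjoint V ρ had hdet with h | h
  · exact h i j
  exfalso
  apply hne
  have hpow : ∀ k : ℕ, t ^ (2 * k) ∈ alg V ∧ t ^ (2 * k + 1) ∈ odd V ρ := by
    intro k
    have h1 : t ^ (2 * k) ∈ alg V := by
      rw [pow_mul]
      exact (alg V).pow_mem (by rw [sq]; exact odd_odd V ρ had hdet ht ht) k
    exact ⟨h1, by rw [pow_succ]; exact odd_mul V ρ h1 ht⟩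
  set e : Γ → F := ∑ k ∈ P.support.filter Even, P.coeff k * t ^ k with he
  set o : Γ → F := ∑ k ∈ P.support.filter (fun k => ¬ Even k), P.coeff k * t ^ k with ho
  have hev : ∀ s : Γ → F, P.eval s = ∑ k ∈ P.support, P.coeff k * s ^ k := fun s => by
    rw [Polynomial.eval_eq_sum, Polynomial.sum_def]
  have h1 : P.eval t = e + o := by
    rw [hev, ← Finset.sum_filter_add_sum_filter_not P.support Even]
  have h2 : P.eval (-t) = e - o := by
    rw [hev, ← Finset.sum_filter_add_sum_filter_not P.support Even, sub_eq_add_neg]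
    congr 1
    · apply Finset.sum_congr rfl
      intro k hk
      rw [(Finset.mem_filter.mp hk).2.neg_pow]
    · rw [ho, ← Finset.sum_neg_distrib]
      apply Finset.sum_congr rfl
      intro k hk
      rw [(Nat.not_even_iff_odd.mp (Finset.mem_filter.mp hk).2).neg_pow, mul_neg]
  have he1 : e ∈ alg V := by
    refine (alg V).sum_mem fun k hk => ?_
    obtain ⟨m, hm⟩ := (Finset.mem_filter.mp hk).2
    rw [show k = 2 * m by omega]
    exact (alg V).mul_mem (hP _) (hpow m).1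
  have ho1 : o ∈ odd V ρ := by
    refine Submodule.sum_mem _ fun k hk => ?_
    obtain ⟨m, hm⟩ := Nat.not_even_iff_odd.mp (Finset.mem_filter.mp hk).2
    rw [hm]
    exact odd_mul V ρ (hP _) (hpow m).2
  have h3 : e = -o := by
    rw [h1] at h0
    exact eq_neg_of_add_eq_zero_left h0
  have h4 : e = 0 := h e he1 (by rw [h3]; exact Submodule.neg_mem _ ho1)
  have h5 : o = 0 := by rw [h4] at h3; exact (neg_eq_zero.mp h3.symm)
  rw [h2, h4, h5, sub_zero]

end Pool.Agent.DS
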