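import Mathlib
import Pool.Agent.helper46.DS.Sign

/-!
# MP_2e0e07_nt (DS): a relation which is sensitive to the sign of the trace

The proof repeats `main_group` (helper85/AR) and adds the sign argument.
-/

namespace Pool.Agent.DS

open Matrix Polynomial Pool.Agent.GO Pool.Agent.AR MeasureTheory

theorem sign_group {Γ : Type*} [Group Γ] [TopologicalSpace Γ] [IsTopologicalGroup Γ]
    [CompactSpace Γ] [MeasurableSpace Γ] [BorelSpace Γ] (μ : Measure Γ) [μ.IsHaarMeasure]
    {F : Type*} [Field F] [IsAlgClosed F] [CharZero F] [TopologicalSpace F]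
    [IsTopologicalRing F] [T2Space F] {ι : Type*} [Fintype ι] [DecidableEq ι]
    (V : Γ →* Matrix ι ι F) (hV : Continuous V) (ρ : Γ →* Matrix (Fin 2) (Fin 2) F)
    (hρ : Continuous ρ) (hirr : ∀ U : Subgroup Γ, IsOpen (U : Set Γ) → Irred (fun u : U => ρ u))
    (S : Set Γ) (hS : ∀ C : Set Γ, IsClosed C → μ C = 0 → ∃ s ∈ S, s ∉ C)
    (hdetV : (fun g => (ρ g).det) ∈ alg V)
    (P : (alg V)[X])
    (hP' : ∀ s ∈ S, (P.map ((evG V s : alg V →ₐ[F] F) : alg V →+* F)).IsRoot (ρ s).trace ∧
      ¬ (P.map ((evG V s : alg V →ₐ[F] F) : alg V →+* F)).IsRoot (-(ρ s).trace)) :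
    ∃ U : Subgroup Γ, IsOpen (U : Set Γ) ∧ SI (ρ.comp U.subtype) ∧
      ∀ i j, (fun u : U => ρ u i j) ∈ alg (V.comp U.subtype) := by
  have hP : ∀ s ∈ S, P.map ((evG V s : alg V →ₐ[F] F) : alg V →+* F) ≠ 0 ∧
      (P.map ((evG V s : alg V →ₐ[F] F) : alg V →+* F)).IsRoot (ρ s).trace := by
    intro s hs
    refine ⟨fun h0 => (hP' s hs).2 ?_, (hP' s hs).1⟩
    rw [h0]
    exact Polynomial.eval_zero
  classical
  have hSI : SI ρ := SI_of_open ρ hρ hirr
  let W := ds V ρ
  have hW : Continuous W := by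
    apply continuous_matrix
    intro a b
    show Continuous fun g => Matrix.fromBlocks (V g) 0 0 (ρ g) a b
    rcases a with i | i <;> rcases b with j | j
    · exact hV.matrix_elem i j
    · exact continuous_const
    · exact continuous_const
    · exact hρ.matrix_elem i j
  have hft : Algebra.FiniteType F (alg W) := finiteType_alg W
  have hnoeth : IsNoetherianRing (alg W) := Algebra.FiniteType.isNoetherianRing F _
  obtain ⟨U, hUopen, hU⟩ := exists_component μ (alg W) (fun f hf => continuous_alg W hW hf)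
    (fun f hf h => alg_lt W h hf)
  have hVW : alg V ≤ alg W := alg_le_ds V ρ
  -- the relation as a function
  let f : Γ → F := fun g => ∑ k ∈ Finset.range (P.natDegree + 1), (P.coeff k).1 g *
    ((ρ g).trace) ^ k
  have htr : (fun g => (ρ g).trace) ∈ alg W := by
    have h1 : (fun g => (ρ g).trace) = (fun g => W g (Sum.inr 0) (Sum.inr 0)) +
        fun g => W g (Sum.inr 1) (Sum.inr 1) := by
      ext g
      rw [Matrix.trace_fin_two]
      rfl
    rw [h1]
    exact Subalgebra.add_mem _ (coef_mem W _ _) (coef_mem W _ _)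
  have hfW : f ∈ alg W := by
    have h1 : f = ∑ k ∈ Finset.range (P.natDegree + 1), (P.coeff k).1 *
        (fun g => (ρ g).trace) ^ k := by
      ext g
      simp only [f, Finset.sum_apply, Pi.mul_apply, Pi.pow_apply]
    rw [h1]
    exact Subalgebra.sum_mem _ fun k _ => Subalgebra.mul_mem _ (hVW (P.coeff k).2)
      (Subalgebra.pow_mem _ htr k)
  have hf_eq : ∀ g, f g = (P.map ((evG V g : alg V →ₐ[F] F) : alg V →+* F)).eval
      (ρ g).trace := by
    intro g
    rw [Polynomial.eval_map, Polynomial.eval₂_eq_sum_range]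
    rfl
  have hfcont : Continuous f := continuous_alg W hW hfW
  -- the bad set
  have hUfin : Finite (Γ ⧸ U) := Subgroup.quotient_finite_of_isOpen U hUopen
  let cs : Γ ⧸ U → Set Γ := fun q => {g | (q.out)⁻¹ * g ∈ U}
  have hUclosed : IsClosed (U : Set Γ) := Subgroup.isClosed_of_isOpen U hUopen
  let C : Set Γ := ⋃ q : Γ ⧸ U, if μ ({g | f g = 0} ∩ cs q) = 0 then {g | f g = 0} ∩ cs q else ∅
  have hCclosed : IsClosed C := by
    apply isClosed_iUnion_of_finite
    intro q
    split_ifs
    · refine (isClosed_singleton.preimage hfcont).inter ?_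
      exact hUclosed.preimage (continuous_const.mul continuous_id)
    · exact isClosed_empty
  have hCnull : μ C = 0 := by
    apply measure_iUnion_null
    intro q
    split_ifs with h
    · exact h
    · exact measure_empty
  obtain ⟨s, hsS, hsC⟩ := hS C hCclosed hCnull
  obtain ⟨hs1, hs2⟩ := hP s hsS
  have hfs : f s = 0 := by rw [hf_eq]; exact hs2
  have hpos : μ ({g | f g = 0} ∩ {g | s⁻¹ * g ∈ U}) ≠ 0 := by
    intro h0
    apply hsC
    have hq : ((QuotientGroup.mk s : Γ ⧸ U).out)⁻¹ * s ∈ U := by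
      rw [← QuotientGroup.eq, QuotientGroup.out_eq']
    have hset : cs (QuotientGroup.mk s) = {g | s⁻¹ * g ∈ U} := by
      ext g
      show _ ↔ s⁻¹ * g ∈ U
      have e : ((QuotientGroup.mk s : Γ ⧸ U).out)⁻¹ * g =
          (((QuotientGroup.mk s : Γ ⧸ U).out)⁻¹ * s) * (s⁻¹ * g) := by group
      constructor
      · intro h
        have h1 : ((QuotientGroup.mk s : Γ ⧸ U).out)⁻¹ * g ∈ U := h
        rw [e] at h1
        exact (U.mul_mem_cancel_left hq).mp h1
      · intro h
        show ((QuotientGroup.mk s : Γ ⧸ U).out)⁻¹ * g ∈ U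
        rw [e]
        exact U.mul_mem hq h
    refine Set.mem_iUnion.mpr ⟨QuotientGroup.mk s, ?_⟩
    rw [hset, if_pos h0]
    exact ⟨hfs, by simp [U.one_mem]⟩
  have hvan := hU f hfW s hpos
  -- the group `U`
  refine ⟨U, hUopen, hSI.restrict ρ U (Subgroup.finiteIndex_of_finite_quotient), ?_⟩
  have hSIU : SI (ρ.comp U.subtype) :=
    hSI.restrict ρ U (Subgroup.finiteIndex_of_finite_quotient)
  have hspan : Submodule.span F (Set.range (ρ.comp U.subtype)) = ⊤ :=
    span_top_of_irred _ (SI.irred _ hSIU)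
  have hdom : NoZeroDivisors (alg (V.comp U.subtype)) := by
    constructor
    intro a b hab
    obtain ⟨a', ha', ha⟩ := res_surj V U a.2
    obtain ⟨b', hb', hb⟩ := res_surj V U b.2
    have hcov : (U : Set Γ) ⊆ ({g | a' g = 0} ∩ {g | (1 : Γ)⁻¹ * g ∈ U}) ∪
        ({g | b' g = 0} ∩ {g | (1 : Γ)⁻¹ * g ∈ U}) := by
      intro g hg
      have h1 : a.1 ⟨g, hg⟩ * b.1 ⟨g, hg⟩ = 0 :=
        congrArg (fun z : alg (V.comp U.subtype) => z.1 ⟨g, hg⟩) hab
      rw [← ha, ← hb] at h1
      have h2 : a' g * b' g = 0 := h1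
      have h3 : (1 : Γ)⁻¹ * g ∈ U := by rw [inv_one, one_mul]; exact hg
      rcases mul_eq_zero.mp h2 with h4 | h4
      · left; exact ⟨h4, h3⟩
      · right; exact ⟨h4, h3⟩
    have hUpos : μ (U : Set Γ) ≠ 0 := (hUopen.measure_pos μ ⟨1, U.one_mem⟩).ne'
    have hor : μ ({g | a' g = 0} ∩ {g | (1 : Γ)⁻¹ * g ∈ U}) ≠ 0 ∨
        μ ({g | b' g = 0} ∩ {g | (1 : Γ)⁻¹ * g ∈ U}) ≠ 0 := by
      by_contra hcon
      push Not at hcon
      exact hUpos (measure_mono_null hcov (measure_union_null hcon.1 hcon.2))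
    rcases hor with h | h
    · left
      apply Subtype.ext
      rw [← ha]
      ext u
      exact hU a' (hVW ha') 1 h u.1 (by rw [inv_one, one_mul]; exact u.2)
    · right
      apply Subtype.ext
      rw [← hb]
      ext u
      exact hU b' (hVW hb') 1 h u.1 (by rw [inv_one, one_mul]; exact u.2)
  let PU : (alg (V.comp U.subtype))[X] := P.map ((trRes V U s : alg V →ₐ[F] _) : alg V →+* _)
  have hPU : PU ≠ 0 := by
    intro h0
    apply hs1
    ext k
    have h1 := congrArg (fun Q : (alg (V.comp U.subtype))[X] => (Q.coeff k).1 1) h0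
    simp only [PU, coeff_map, coeff_zero] at h1
    rw [coeff_map, coeff_zero]
    have h2 : (P.coeff k).1 (s * ((1 : U) : Γ)) = 0 := h1
    rw [OneMemClass.coe_one, mul_one] at h2
    exact h2
  have hrel : aeval (fun u : U => (ρ s * (ρ.comp U.subtype) u).trace) PU = 0 := by
    ext u
    have h1 : f (s * u) = 0 := hvan _ (by rw [inv_mul_cancel_left]; exact u.2)
    rw [hf_eq] at h1
    let ev : (U → F) →+* F := Pi.evalRingHom (fun _ => F) u
    show ev (aeval (fun u : U => (ρ s * (ρ.comp U.subtype) u).trace) PU) = 0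
    rw [Polynomial.aeval_def, Polynomial.hom_eval₂, Polynomial.eval₂_map]
    rw [Polynomial.eval_map] at h1
    have h2 : (ev.comp (algebraMap (alg (V.comp U.subtype)) (U → F))).comp
        ((trRes V U s : alg V →ₐ[F] _) : alg V →+* _) =
        ((evG V (s * u) : alg V →ₐ[F] F) : alg V →+* F) := by
      ext a
      rfl
    rw [h2]
    have h3 : ev (fun u : U => (ρ s * (ρ.comp U.subtype) u).trace) = (ρ (s * u)).trace := by
      rw [map_mul]
      rfl
    rw [h3]
    exact h1
  have hdet : IsUnit (ρ s).det := isUnit_iff_ne_zero.mpr (hom_det_ne ρ s)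
  have halg := algebraic_coef (V.comp U.subtype) (ρ.comp U.subtype) hspan (ρ s) hdet PU hPU hrel
  have hint := coef_integral_of_algebraic (V.comp U.subtype) (ρ.comp U.subtype) halg
  have had : ∀ i j, (fun g => ad0 (ρ.comp U.subtype) g i j) ∈ alg (V.comp U.subtype) :=
    fun i j => ad_coef_mem (V.comp U.subtype) (ρ.comp U.subtype) hSIU
      (ad_integral (V.comp U.subtype) (ρ.comp U.subtype) hint) i j
  -- the sign
  let t : U → F := fun u => (ρ s * (ρ.comp U.subtype) u).trace
  have ht : t ∈ odd (V.comp U.subtype) (ρ.comp U.subtype) := by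
    have h1 : t = ∑ q : Fin 2 × Fin 2, ρ s q.1 q.2 • fun u : U => (ρ.comp U.subtype) u q.2 q.1 := by
      ext u
      simp only [t, Matrix.trace, Matrix.diag, Matrix.mul_apply, Fintype.sum_prod_type,
        Finset.sum_apply, Pi.smul_apply, smul_eq_mul]
    rw [h1]
    exact Submodule.sum_mem _ fun q _ => Submodule.smul_mem _ _ (odd_coef _ _ _ _)
  let R : (U → F)[X] := PU.map (algebraMap (alg (V.comp U.subtype)) (U → F))
  have hR1 : ∀ k, R.coeff k ∈ alg (V.comp U.subtype) := by
    intro k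
    show (PU.map _).coeff k ∈ _
    rw [coeff_map]
    exact (PU.coeff k).2
  have hR2 : R.eval t = 0 := by
    show (PU.map _).eval t = 0
    rw [Polynomial.eval_map]
    exact hrel
  have hR3 : R.eval (-t) ≠ 0 := by
    intro h0
    apply (hP' s hsS).2
    have h1 := congrFun h0 1
    let ev : (U → F) →+* F := Pi.evalRingHom (fun _ => F) 1
    have h1' : ev (R.eval (-t)) = 0 := h1
    have h3 : ev (-t) = -(ρ s).trace := by
      show -(ρ s * ρ ((1 : U) : Γ)).trace = _
      rw [OneMemClass.coe_one, map_one, mul_one]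
    have h2 : (ev.comp (algebraMap (alg (V.comp U.subtype)) (U → F))).comp
        ((trRes V U s : alg V →ₐ[F] _) : alg V →+* _) =
        ((evG V s : alg V →ₐ[F] F) : alg V →+* F) := by
      apply RingHom.ext
      intro a
      show a.1 (s * ((1 : U) : Γ)) = a.1 s
      rw [OneMemClass.coe_one, mul_one]
    show (P.map ((evG V s : alg V →ₐ[F] F) : alg V →+* F)).eval (-(ρ s).trace) = 0
    rw [← h2, ← h3, Polynomial.eval_map, ← h1']
    show _ = ev ((PU.map _).eval (-t))
    rw [Polynomial.eval_map, Polynomial.hom_eval₂, Polynomial.eval₂_map]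
  have hdetU : (fun u : U => ((ρ.comp U.subtype) u).det) ∈ alg (V.comp U.subtype) :=
    res_mem V U hdetV
  exact fun i j => sign_core (V.comp U.subtype) (ρ.comp U.subtype) had hdetU t ht R hR1 hR2 hR3 i j


end Pool.Agent.DS
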