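import Mathlib
import Pool.Agent.helper46.DS.SignGroup

/-!
# MP_2e0e07_nt (DS): from an open subgroup to the whole group
-/

set_option autoImplicit false

namespace Pool.Agent.DS

open Matrix Polynomial Pool.Agent.GO Pool.Agent.AR

variable {F : Type*} [Field F] {Γ : Type*} [Group Γ] {ι : Type*} [Fintype ι] [DecidableEq ι]
  (V : Γ →* Matrix ι ι F) (ρ : Γ →* Matrix (Fin 2) (Fin 2) F)

/-- a function which on every coset of `U` is in the algebra is integral -/
theorem integral_of_coset (U : Subgroup Γ) (hU : U.FiniteIndex)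
    (h : ∀ i j, (fun u : U => ρ u i j) ∈ alg (V.comp U.subtype)) (i j : Fin 2) :
    IsIntegral (alg V) (fun g => ρ g i j) := by
  classical
  have _ : Fintype (Γ ⧸ U) := Fintype.ofFinite _
  choose b hb hb' using fun k => res_surj V U (h k j)
  let a : Γ ⧸ U → alg V := fun q => ⟨∑ k, ρ q.out i k • lt (q.out)⁻¹ (b k), by
    refine Subalgebra.sum_mem _ fun k _ => Subalgebra.smul_mem _ (alg_lt V _ (hb k)) _⟩
  have ha : ∀ (q : Γ ⧸ U) (g : Γ), (q.out)⁻¹ * g ∈ U → (a q).1 g = ρ g i j := by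
    intro q g hg
    show (∑ k, ρ q.out i k • lt (q.out)⁻¹ (b k)) g = _
    rw [Finset.sum_apply]
    have h1 : g = q.out * ((q.out)⁻¹ * g) := by group
    conv_rhs => rw [h1, map_mul, Matrix.mul_apply]
    refine Finset.sum_congr rfl fun k _ => ?_
    have h2 := congrFun (hb' k) ⟨(q.out)⁻¹ * g, hg⟩
    have h3 : b k ((q.out)⁻¹ * g) = ρ ((q.out)⁻¹ * g) k j := h2
    show ρ q.out i k * b k ((q.out)⁻¹ * g) = _
    rw [h3]
  refine ⟨∏ q : Γ ⧸ U, (X - C (a q)), monic_prod_of_monic _ _ fun q _ => monic_X_sub_C _, ?_⟩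
  rw [Polynomial.eval₂_finsetProd]
  ext g
  rw [Finset.prod_apply]
  refine Finset.prod_eq_zero (Finset.mem_univ (QuotientGroup.mk g)) ?_
  rw [Polynomial.eval₂_sub, Polynomial.eval₂_X, Polynomial.eval₂_C]
  show ρ g i j - (a (QuotientGroup.mk g)).1 g = 0
  rw [ha (QuotientGroup.mk g) g (by rw [← QuotientGroup.eq, QuotientGroup.out_eq']), sub_self]

/-- **From an open subgroup to the whole group.** -/
theorem coef_global [IsAlgClosed F] [CharZero F] (hSI : SI ρ) (U : Subgroup Γ)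
    (hU : U.FiniteIndex) (h : ∀ i j, (fun u : U => ρ u i j) ∈ alg (V.comp U.subtype))
    (hdet : (fun g => (ρ g).det) ∈ alg V) (P : (Γ → F)[X]) (hP : ∀ k, P.coeff k ∈ alg V)
    (h0 : P.eval (fun g => (ρ g).trace) = 0) (hne : P.eval (-fun g => (ρ g).trace) ≠ 0)
    (i j : Fin 2) : (fun g => ρ g i j) ∈ alg V := by
  have hint := integral_of_coset V ρ U hU h
  have had : ∀ i j, (fun g => ad0 ρ g i j) ∈ alg V :=
    fun i j => ad_coef_mem V ρ hSI (ad_integral V ρ hint) i j
  refine sign_core V ρ had hdet (fun g => (ρ g).trace) ?_ P hP h0 hne i j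
  have h1 : (fun g => (ρ g).trace) = (fun g => ρ g 0 0) + fun g => ρ g 1 1 := by
    ext g
    rw [Matrix.trace_fin_two]
    rfl
  rw [h1]
  exact Submodule.add_mem _ (odd_coef V ρ 0 0) (odd_coef V ρ 1 1)

end Pool.Agent.DS
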