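import Mathlib
import Pool.Agent.helper85.FCR.Main

/-!
# MP_2e0e07_nt (DS): a finite set decides every polynomial relation of bounded degree
-/

namespace Pool.Agent.DS

open Matrix Pool.Agent.GO Pool.Agent.FC

section functional

variable {F κ : Type*} [Field F] [Fintype κ] [DecidableEq κ]

/-- `X ⊕ 1` -/
def addOne (X : Matrix κ κ F) : Matrix (κ ⊕ Fin 1) (κ ⊕ Fin 1) F := Matrix.fromBlocks X 0 0 1

omit [Fintype κ] [DecidableEq κ] in
theorem prod_map_toMultiset (m : κ →₀ ℕ) (f : κ → F) :
    (m.toMultiset.map f).prod = m.prod fun a k => f a ^ k := by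
  induction m using Finsupp.induction_linear with
  | zero => simp
  | add m n hm hn =>
    rw [Finsupp.toMultiset_add, Multiset.map_add, Multiset.prod_add, hm, hn,
      Finsupp.prod_add_index' (by simp) (by intro a b c; rw [pow_add])]
  | single a k =>
    rw [Finsupp.toMultiset_single, Multiset.map_nsmul, Multiset.prod_nsmul]
    simp

omit [Fintype κ] [DecidableEq κ] in
theorem exists_index (D : ℕ) (l : List (κ × κ)) (hl : l.length ≤ D) :
    ∃ c : Fin D → (κ ⊕ Fin 1) × (κ ⊕ Fin 1), ∀ X : Matrix κ κ F,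
      ∏ k, addOne X (c k).1 (c k).2 = (l.map fun q => X q.1 q.2).prod := by
  induction D generalizing l with
  | zero =>
    have : l = [] := List.length_eq_zero_iff.mp (Nat.le_zero.mp hl)
    subst this
    exact ⟨Fin.elim0, fun X => by simp⟩
  | succ D ih =>
    cases l with
    | nil =>
      refine ⟨fun _ => (Sum.inr 0, Sum.inr 0), fun X => ?_⟩
      simp [addOne]
    | cons a l =>
      obtain ⟨c, hc⟩ := ih l (by simpa using hl)
      refine ⟨Fin.cons (Sum.inl a.1, Sum.inl a.2) c, fun X => ?_⟩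
      rw [Fin.prod_univ_succ]
      simp only [Fin.cons_zero, Fin.cons_succ, List.map_cons, List.prod_cons]
      rw [hc X]
      rfl

omit [Fintype κ] [DecidableEq κ] in
theorem exists_functional_monomial (D : ℕ) (m : κ × κ →₀ ℕ) (hm : m.degree ≤ D) (c : F) :
    ∃ ℓ : Matrix (Fin D → κ ⊕ Fin 1) (Fin D → κ ⊕ Fin 1) F →ₗ[F] F,
      ∀ X : Matrix κ κ F, ℓ (kp D (addOne X)) =
        MvPolynomial.eval (fun q : κ × κ => X q.1 q.2) (MvPolynomial.monomial m c) := by
  obtain ⟨d, hd⟩ := exists_index (F := F) D m.toMultiset.toList (by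
    rw [Multiset.length_toList, Finsupp.card_toMultiset]
    exact hm)
  refine ⟨c • Matrix.entryLinearMap F F (fun k => (d k).1) (fun k => (d k).2), fun X => ?_⟩
  rw [LinearMap.smul_apply, Matrix.entryLinearMap_apply]
  simp only [kp, Matrix.of_apply]
  rw [hd X, MvPolynomial.eval_monomial, smul_eq_mul]
  congr 1
  have h1 : (m.toMultiset.toList.map fun q : κ × κ => X q.1 q.2).prod =
      (m.toMultiset.map fun q : κ × κ => X q.1 q.2).prod := by
    conv_rhs => rw [← Multiset.coe_toList m.toMultiset, Multiset.map_coe, Multiset.prod_coe]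
  rw [h1, prod_map_toMultiset]

theorem exists_functional_poly (D : ℕ) (G : MvPolynomial (κ × κ) F) (hG : G.totalDegree ≤ D) :
    ∃ ℓ : Matrix (Fin D → κ ⊕ Fin 1) (Fin D → κ ⊕ Fin 1) F →ₗ[F] F,
      ∀ X : Matrix κ κ F, ℓ (kp D (addOne X)) =
        MvPolynomial.eval (fun q : κ × κ => X q.1 q.2) G := by
  have h1 : ∀ m ∈ G.support, ∃ ℓ : Matrix (Fin D → κ ⊕ Fin 1) (Fin D → κ ⊕ Fin 1) F →ₗ[F] F,
      ∀ X : Matrix κ κ F, ℓ (kp D (addOne X)) =
        MvPolynomial.eval (fun q : κ × κ => X q.1 q.2) (MvPolynomial.monomial m (G.coeff m)) := by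
    intro m hm
    refine exists_functional_monomial D m ?_ _
    exact (MvPolynomial.le_totalDegree hm).trans hG
  choose! ℓ hℓ using h1
  refine ⟨∑ m ∈ G.support, ℓ m, fun X => ?_⟩
  rw [LinearMap.sum_apply]
  conv_rhs => rw [G.as_sum, map_sum]
  exact Finset.sum_congr rfl fun m hm => hℓ m hm X

end functional

section criterion

variable {p : ℕ} [Fact p.Prime] {Γ : Type*} [Group Γ] [TopologicalSpace Γ]
    [IsTopologicalGroup Γ] [CompactSpace Γ] {F : Type*} [Field F] [Algebra ℚ_[p] F]
    [FiniteDimensional ℚ_[p] F] [TopologicalSpace F] [IsTopologicalRing F]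
    [ContinuousSMul ℚ_[p] F] [T2Space F] {κ : Type*} [Fintype κ] [DecidableEq κ]

/-- the representation `W ⊕ 1` -/
def addOneHom (W : Γ →* Matrix κ κ F) : Γ →* Matrix (κ ⊕ Fin 1) (κ ⊕ Fin 1) F where
  toFun g := addOne (W g)
  map_one' := by rw [addOne, map_one, Matrix.fromBlocks_one]
  map_mul' g h := by
    rw [addOne, addOne, addOne, Matrix.fromBlocks_multiply, map_mul]
    simp

/-- A set `Z` which meets all cosets of all open normal subgroups of index at most
`p ^ ([F : ℚ_p] (|κ| + 1)^(2D))` decides every polynomial relation of degree at most `D` between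
the matrix entries of `W`. -/
theorem criterion_poly {e : ℕ} (he : Module.finrank ℚ_[p] F ≤ e) (W : Γ →* Matrix κ κ F)
    (hW : Continuous W) {D : ℕ} (G : MvPolynomial (κ × κ) F) (hG : G.totalDegree ≤ D) (Z : Set Γ)
    (hZ : ∀ U : Subgroup Γ, IsOpen (U : Set Γ) → U.Normal →
      U.index ≤ p ^ (e * (Fintype.card κ + 1) ^ (2 * D)) → ∀ g, ∃ s ∈ Z, s⁻¹ * g ∈ U)
    (h : ∀ s ∈ Z, MvPolynomial.eval (fun q : κ × κ => W s q.1 q.2) G = 0) (g : Γ) :
    MvPolynomial.eval (fun q : κ × κ => W g q.1 q.2) G = 0 := by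
  obtain ⟨ℓ, hℓ⟩ := exists_functional_poly D G hG
  have hR : Continuous (kpHom D (addOneHom W)) := by
    apply continuous_matrix
    intro a b
    show Continuous fun g => ∏ k, addOneHom W g (a k) (b k)
    apply continuous_finsetProd
    intro k _
    show Continuous fun g => Matrix.fromBlocks (W g) 0 0 1 (a k) (b k)
    rcases a k with i | i <;> rcases b k with j | j
    · exact hW.matrix_elem i j
    · exact continuous_const
    · exact continuous_const
    · exact continuous_const
  have hdim : Module.finrank ℚ_[p] (Matrix (Fin D → κ ⊕ Fin 1) (Fin D → κ ⊕ Fin 1) F) ≤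
      e * (Fintype.card κ + 1) ^ (2 * D) := by
    rw [Module.finrank_matrix]
    simp only [Fintype.card_pi, Fintype.card_sum, Fintype.card_fin, Finset.prod_const,
      Finset.card_univ]
    calc (Fintype.card κ + 1) ^ D * (Fintype.card κ + 1) ^ D * Module.finrank ℚ_[p] F
        ≤ (Fintype.card κ + 1) ^ D * (Fintype.card κ + 1) ^ D * e := Nat.mul_le_mul_left _ he
      _ = e * (Fintype.card κ + 1) ^ (2 * D) := by rw [← pow_add]; ring_nf
  have h1 := faltings (p := p) (kpHom D (addOneHom W)) hR Z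
    (fun U hU1 hU2 hU3 => hZ U hU1 hU2
      (hU3.trans (Nat.pow_le_pow_right (Fact.out : p.Prime).pos hdim)))
    (ℓ.restrictScalars ℚ_[p]) (fun s hs => by
      show ℓ (kp D (addOne (W s))) = 0
      rw [hℓ]
      exact h s hs) g
  have h2 : ℓ (kp D (addOne (W g))) = 0 := h1
  rw [hℓ] at h2
  exact h2

/-- The same for representations which are trivial on a normal subgroup `N`. -/
theorem criterion_poly_mod {e : ℕ} (he : Module.finrank ℚ_[p] F ≤ e) (N : Subgroup Γ) [N.Normal]
    (W : Γ →* Matrix κ κ F) (hW : Continuous W) (hWN : N ≤ W.ker)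
    {D : ℕ} (G : MvPolynomial (κ × κ) F) (hG : G.totalDegree ≤ D) (Z : Set Γ)
    (hZ : ∀ U : Subgroup Γ, IsOpen (U : Set Γ) → U.Normal → N ≤ U →
      U.index ≤ p ^ (e * (Fintype.card κ + 1) ^ (2 * D)) → ∀ g, ∃ s ∈ Z, s⁻¹ * g ∈ U)
    (h : ∀ s ∈ Z, MvPolynomial.eval (fun q : κ × κ => W s q.1 q.2) G = 0) (g : Γ) :
    MvPolynomial.eval (fun q : κ × κ => W g q.1 q.2) G = 0 := by
  have h1 := criterion_poly (Γ := Γ ⧸ N) he (QuotientGroup.lift N W hWN)
    (by
      rw [show ((QuotientGroup.lift N W hWN : Γ ⧸ N →* Matrix κ κ F) :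
        Γ ⧸ N → Matrix κ κ F) = Quotient.lift W _ from rfl]
      exact Continuous.quotient_lift hW _) G hG
    ((QuotientGroup.mk : Γ → Γ ⧸ N) '' Z)
    (by
      intro U hU1 hU2 hU3 g'
      obtain ⟨g, rfl⟩ := QuotientGroup.mk_surjective g'
      obtain ⟨s, hs, hsg⟩ := hZ (U.comap (QuotientGroup.mk' N))
        (hU1.preimage continuous_quot_mk) inferInstance
        (by
          intro x hx
          rw [Subgroup.mem_comap]
          have : QuotientGroup.mk' N x = 1 := (QuotientGroup.eq_one_iff x).mpr hx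
          rw [this]
          exact U.one_mem)
        (by
          rw [Subgroup.index_comap_of_surjective _ (QuotientGroup.mk'_surjective N)]
          exact hU3) g
      exact ⟨_, ⟨s, hs, rfl⟩, hsg⟩)
    (by
      rintro _ ⟨s, hs, rfl⟩
      exact h s hs) (QuotientGroup.mk g)
  exact h1

end criterion

end Pool.Agent.DS
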