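import Mathlib

/-!
# MP_2e0e07_nt (DS): symmetric polynomials in the roots as polynomials in the coefficients
-/

namespace Pool.Agent.DS

open Polynomial

universe u v

/-- A polynomial whose coefficients are symmetric in `r_1, ..., r_n` is a polynomial in the
coefficients of `∏ (X - r_i)`. -/
theorem sym_transfer {E : Type u} [CommRing E] (n : ℕ) (G : (MvPolynomial (Fin n) E)[X])
    (hG : ∀ k, (G.coeff k).IsSymmetric) :
    ∃ Ψ : (MvPolynomial ℕ E)[X], ∀ {F : Type v} [Field F] (ι : E →+* F) (r : Fin n → F),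
      Ψ.map (MvPolynomial.eval₂Hom ι fun k => (∏ i, (X - C (r i))).coeff k) =
        G.map (MvPolynomial.eval₂Hom ι r) := by
  have h1 : ∀ k, ∃ q : MvPolynomial (Fin n) E,
      MvPolynomial.aeval (fun i : Fin n => MvPolynomial.esymm (Fin n) E (i + 1)) q =
        G.coeff k := by
    intro k
    obtain ⟨q, hq⟩ := (MvPolynomial.esymmAlgHom_fin_surjective (R := E) (n := n) (m := n) le_rfl)
      ⟨G.coeff k, hG k⟩
    refine ⟨q, ?_⟩
    rw [← MvPolynomial.esymmAlgHom_apply, hq]
  choose q hq using h1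
  let θ : MvPolynomial (Fin n) E →ₐ[E] MvPolynomial ℕ E :=
    MvPolynomial.aeval fun i : Fin n =>
      (-1 : MvPolynomial ℕ E) ^ ((i : ℕ) + 1) * MvPolynomial.X (n - ((i : ℕ) + 1))
  refine ⟨∑ k ∈ Finset.range (G.natDegree + 1), C (θ (q k)) * X ^ k, ?_⟩
  intro F _ ι r
  have hvieta : ∀ i : Fin n, (∏ j, (X - C (r j)) : F[X]).coeff (n - ((i : ℕ) + 1)) =
      (-1) ^ ((i : ℕ) + 1) * (Finset.univ.val.map r).esymm ((i : ℕ) + 1) := by
    intro i
    have h2 : (∏ j, (X - C (r j)) : F[X]) =
        ((Finset.univ.val.map r).map fun t => X - C t).prod := by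
      rw [Multiset.map_map]; rfl
    have hcard : Multiset.card (Finset.univ.val.map r) = n := by simp
    rw [h2, Multiset.prod_X_sub_C_coeff _ (by rw [hcard]; omega), hcard]
    have h3 : n - (n - ((i : ℕ) + 1)) = (i : ℕ) + 1 := by
      have := i.2; omega
    rw [h3]
  have hθ : ((MvPolynomial.eval₂Hom ι fun k => (∏ i, (X - C (r i)) : F[X]).coeff k).comp
      (θ : MvPolynomial (Fin n) E →+* MvPolynomial ℕ E)) =
      (MvPolynomial.eval₂Hom ι r).comp
        ((MvPolynomial.aeval (fun i : Fin n => MvPolynomial.esymm (Fin n) E (i + 1)) :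
          MvPolynomial (Fin n) E →ₐ[E] MvPolynomial (Fin n) E) :
          MvPolynomial (Fin n) E →+* MvPolynomial (Fin n) E) := by
    apply MvPolynomial.ringHom_ext
    · intro x
      simp [θ]
    · intro i
      simp only [RingHom.comp_apply, RingHom.coe_coe, θ, MvPolynomial.aeval_X, map_mul, map_pow,
        map_neg, map_one, MvPolynomial.coe_eval₂Hom, MvPolynomial.eval₂_X, hvieta]
      have h4 : MvPolynomial.eval₂ ι r (MvPolynomial.esymm (Fin n) E ((i : ℕ) + 1)) =
          (Finset.univ.val.map r).esymm ((i : ℕ) + 1) := by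
        let _ : Algebra E F := ι.toAlgebra
        have h5 := MvPolynomial.aeval_esymm_eq_multiset_esymm (Fin n) E (S := F) ((i : ℕ) + 1) r
        rw [← h5]
        rfl
      rw [h4, ← mul_assoc, ← mul_pow]
      simp
  have hcoef : ∀ k, (MvPolynomial.eval₂Hom ι fun k => (∏ i, (X - C (r i)) : F[X]).coeff k)
      (θ (q k)) = MvPolynomial.eval₂Hom ι r (G.coeff k) := by
    intro k
    have h6 := congrArg (fun f : MvPolynomial (Fin n) E →+* F => f (q k)) hθ
    simp only [RingHom.comp_apply, RingHom.coe_coe] at h6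
    rw [h6, hq k]
  rw [Polynomial.map_sum]
  conv_rhs => rw [G.as_sum_range_C_mul_X_pow, Polynomial.map_sum]
  refine Finset.sum_congr rfl fun k _ => ?_
  rw [Polynomial.map_mul, Polynomial.map_mul, Polynomial.map_C, Polynomial.map_C, hcoef k,
    Polynomial.map_pow, Polynomial.map_pow, Polynomial.map_X, Polynomial.map_X]

/-- `∏ γ ∏ (N / δ)`: the monomial of a pair of index functions -/
def mon {R : Type*} [CommRing R] {n a b : ℕ} (r : Fin n → R)
    (j : (Fin a → Fin n) × (Fin b → Fin n)) : R :=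
  (∏ k, r (j.1 k)) * ∏ k, ∏ i ∈ Finset.univ.erase (j.2 k), r i

theorem mon_map {R S : Type*} [CommRing R] [CommRing S] (f : R →+* S) {n a b : ℕ} (r : Fin n → R)
    (j : (Fin a → Fin n) × (Fin b → Fin n)) : f (mon r j) = mon (fun i => f (r i)) j := by
  simp only [mon, map_mul, map_prod]

theorem mon_perm {R : Type*} [CommRing R] {n a b : ℕ} (r : Fin n → R) (σ : Equiv.Perm (Fin n))
    (j : (Fin a → Fin n) × (Fin b → Fin n)) :
    mon (fun i => r (σ i)) j = mon r (fun k => σ (j.1 k), fun k => σ (j.2 k)) := by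
  simp only [mon]
  congr 1
  refine Finset.prod_congr rfl fun k _ => ?_
  have h1 : (Finset.univ.erase (σ (j.2 k)) : Finset (Fin n)) =
      (Finset.univ.erase (j.2 k)).map σ.toEmbedding := by
    ext i
    simp only [Finset.mem_erase, Finset.mem_univ, and_true, Finset.mem_map,
      Equiv.coe_toEmbedding]
    constructor
    · intro h
      exact ⟨σ.symm i, fun h2 => h (by rw [← h2, Equiv.apply_symm_apply]),
        Equiv.apply_symm_apply σ i⟩
    · rintro ⟨i', h, rfl⟩ h2
      exact h (σ.injective h2)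
  rw [h1, Finset.prod_map]
  rfl

/-- The polynomial with the roots `(m + m') / N^b`, up to a constant. -/
noncomputable def relPoly {R : Type*} [CommRing R] {n : ℕ} (a b : ℕ) (r : Fin n → R) : R[X] :=
  ∏ j : ((Fin a → Fin n) × (Fin b → Fin n)) × ((Fin a → Fin n) × (Fin b → Fin n)),
    (C ((∏ i, r i) ^ b) * X - C (mon r j.1 + mon r j.2))

theorem relPoly_map {R S : Type*} [CommRing R] [CommRing S] (f : R →+* S) {n : ℕ} (a b : ℕ)
    (r : Fin n → R) : (relPoly a b r).map f = relPoly a b (fun i => f (r i)) := by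
  unfold relPoly
  rw [Polynomial.map_prod]
  refine Finset.prod_congr rfl fun j _ => ?_
  rw [Polynomial.map_sub, Polynomial.map_mul, Polynomial.map_C, Polynomial.map_C,
    Polynomial.map_X, map_pow, map_prod, map_add, mon_map, mon_map]

theorem relPoly_perm {R : Type*} [CommRing R] {n : ℕ} (a b : ℕ) (r : Fin n → R)
    (σ : Equiv.Perm (Fin n)) : relPoly a b (fun i => r (σ i)) = relPoly a b r := by
  unfold relPoly
  let e : (((Fin a → Fin n) × (Fin b → Fin n)) × ((Fin a → Fin n) × (Fin b → Fin n))) ≃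
      (((Fin a → Fin n) × (Fin b → Fin n)) × ((Fin a → Fin n) × (Fin b → Fin n))) :=
    Equiv.prodCongr
      (Equiv.prodCongr (Equiv.arrowCongr (Equiv.refl _) σ) (Equiv.arrowCongr (Equiv.refl _) σ))
      (Equiv.prodCongr (Equiv.arrowCongr (Equiv.refl _) σ) (Equiv.arrowCongr (Equiv.refl _) σ))
  refine Fintype.prod_equiv e _ _ fun j => ?_
  rw [mon_perm, mon_perm, Equiv.prod_comp σ r]
  rfl

/-- The relation satisfied by `α + β`, `α`, `β` quotients of products of roots. -/
theorem SYM {E : Type u} [CommRing E] (n a b : ℕ) :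
    ∃ Ψ : (MvPolynomial ℕ E)[X], ∀ {F : Type v} [Field F] (ι : E →+* F) (r : Fin n → F),
      Ψ.map (MvPolynomial.eval₂Hom ι fun k => (∏ i, (X - C (r i))).coeff k) =
        relPoly a b r := by
  obtain ⟨Ψ, hΨ⟩ := sym_transfer.{u, v} n
    (relPoly a b (fun i : Fin n => (MvPolynomial.X i : MvPolynomial (Fin n) E))) (by
      intro k σ
      have h1 := relPoly_map ((MvPolynomial.rename σ : MvPolynomial (Fin n) E →ₐ[E] _) :
        MvPolynomial (Fin n) E →+* MvPolynomial (Fin n) E) a b
        (fun i : Fin n => (MvPolynomial.X i : MvPolynomial (Fin n) E))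
      have h2 := congrArg (fun p : (MvPolynomial (Fin n) E)[X] => p.coeff k) h1
      simp only [Polynomial.coeff_map, RingHom.coe_coe, MvPolynomial.rename_X] at h2
      rw [h2, relPoly_perm a b (fun i : Fin n => (MvPolynomial.X i : MvPolynomial (Fin n) E)) σ])
  refine ⟨Ψ, fun ι r => ?_⟩
  rw [hΨ ι r, relPoly_map]
  congr 1
  ext i
  simp

theorem relPoly_root {F : Type*} [Field F] {n a b : ℕ} (r : Fin n → F) (hr : ∀ i, r i ≠ 0)
    {α β : F} {γ γ' : Fin a → Fin n} {δ δ' : Fin b → Fin n}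
    (hα : α * ∏ k, r (δ k) = ∏ k, r (γ k)) (hβ : β * ∏ k, r (δ' k) = ∏ k, r (γ' k)) :
    (relPoly a b r).IsRoot (α + β) := by
  have key : ∀ (x : F) (γ : Fin a → Fin n) (δ : Fin b → Fin n),
      x * ∏ k, r (δ k) = ∏ k, r (γ k) → (∏ i, r i) ^ b * x = mon r (γ, δ) := by
    intro x γ δ h
    have h1 : ∏ k, r (δ k) ≠ 0 := Finset.prod_ne_zero_iff.mpr fun k _ => hr _
    have h2 : (∏ i, r i) ^ b = (∏ k, r (δ k)) * ∏ k, ∏ i ∈ Finset.univ.erase (δ k), r i := by
      rw [← Finset.prod_mul_distrib]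
      rw [Finset.prod_congr rfl fun k _ =>
        Finset.mul_prod_erase Finset.univ r (Finset.mem_univ (δ k))]
      rw [Finset.prod_const, Finset.card_univ, Fintype.card_fin]
    rw [h2, mon, ← h]
    ring
  rw [relPoly, Polynomial.IsRoot, Polynomial.eval_prod]
  refine Finset.prod_eq_zero (Finset.mem_univ ((γ, δ), (γ', δ'))) ?_
  rw [Polynomial.eval_sub, Polynomial.eval_mul, Polynomial.eval_C, Polynomial.eval_C,
    Polynomial.eval_X, mul_add, key α γ δ hα, key β γ' δ' hβ, sub_self]

theorem relPoly_one {F : Type*} [Field F] [CharZero F] (n a b : ℕ) :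
    (relPoly a b (fun _ : Fin n => (1 : F))).eval (-2) ≠ 0 := by
  rw [relPoly, Polynomial.eval_prod, Finset.prod_ne_zero_iff]
  intro j _
  rw [Polynomial.eval_sub, Polynomial.eval_mul, Polynomial.eval_C, Polynomial.eval_C,
    Polynomial.eval_X]
  simp only [mon, Finset.prod_const_one, one_pow, mul_one]
  norm_num

end Pool.Agent.DS
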