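import Mathlib
import Pool.Agent.helper46.DS.SignGroup
import Pool.Agent.helper46.DS.Sym
import Pool.Agent.helper67.RG.TB
import Pool.Agent.helper67.RG.Rows3

/-!
# MP_2e0e07_nt (DS): a relation sensitive to the sign is equivalent to geometric origin
-/

set_option autoImplicit false

namespace Pool.Agent.DS

open Matrix Polynomial Pool.Agent.GO Pool.Agent.AR Pool.Agent.RG MeasureTheory Kronecker

/-- The relation `Φ` at the places of `S`: with the coefficients of the `P i v` substituted for the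
variables, `Φ` vanishes at `a_v` and does not vanish at `-a_v` (`a_v` is minus the coefficient of
`X` in `Q v`). -/
def IsSignedRelation {Place E : Type*} [Field E] {r : ℕ} (P : Fin r → Place → E[X])
    (Q : Place → E[X]) (S : Set Place) (Φ : (MvPolynomial (Fin r × ℕ) E)[X]) : Prop :=
  ∀ v ∈ S, (Φ.map (MvPolynomial.eval fun k => (P k.1 v).coeff k.2)).IsRoot (-(Q v).coeff 1) ∧
    ¬ (Φ.map (MvPolynomial.eval fun k => (P k.1 v).coeff k.2)).IsRoot ((Q v).coeff 1)

/-- `ρ` is a subquotient of `V ⊗ ⋯ ⊗ V ⊗ V^∨ ⊗ ⋯ ⊗ V^∨ ⊗ F[Fin N]`, `V = ⊕ V i`, for some numbers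
of factors and some permutation representation with open kernel. -/
def ArisesTens {Γ F : Type*} [Group Γ] [TopologicalSpace Γ] [Field F] {r : ℕ} {n : Fin r → ℕ}
    (V : (i : Fin r) → Γ →* Matrix (Fin (n i)) (Fin (n i)) F)
    (ρ : Γ →* Matrix (Fin 2) (Fin 2) F) : Prop :=
  ∃ (a b N : ℕ) (τ : Γ →* Equiv.Perm (Fin N)), IsOpen (τ.ker : Set Γ) ∧
    IsSubquotient (fun g => ρ g) (fun g => tens (dirSum V) a b g ⊗ₖ
      (Matrix.of fun x y : Fin N => if x = τ g y then (1 : F) else 0))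

section lemmas

variable {Γ F : Type*} [Group Γ] [Field F] {m : Type*} [Fintype m] [DecidableEq m]

/-- `tens` as a homomorphism -/
def tensHom (W : Γ →* Matrix m m F) (a b : ℕ) :
    Γ →* Matrix ((Fin a → m) × (Fin b → m)) ((Fin a → m) × (Fin b → m)) F where
  toFun g := tens W a b g
  map_one' := by
    ext p q
    have h0 : tens W a b 1 p q = (∏ k, (1 : Matrix m m F) (p.1 k) (q.1 k)) *
        ∏ k, (1 : Matrix m m F) (q.2 k) (p.2 k) := by
      rw [tens, Matrix.of_apply, inv_one, map_one]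
    rw [h0]
    by_cases h : p = q
    · subst h; simp
    · rw [Matrix.one_apply_ne h]
      by_cases h1 : p.1 = q.1
      · have h2 : p.2 ≠ q.2 := fun h2 => h (Prod.ext h1 h2)
        obtain ⟨k, hk⟩ := Function.ne_iff.mp h2
        have h3 : (∏ k, (1 : Matrix m m F) (q.2 k) (p.2 k)) = 0 :=
          Finset.prod_eq_zero (Finset.mem_univ k) (Matrix.one_apply_ne (Ne.symm hk))
        rw [h3, mul_zero]
      · obtain ⟨k, hk⟩ := Function.ne_iff.mp h1
        have h3 : (∏ k, (1 : Matrix m m F) (p.1 k) (q.1 k)) = 0 :=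
          Finset.prod_eq_zero (Finset.mem_univ k) (Matrix.one_apply_ne hk)
        rw [h3, zero_mul]
  map_mul' g h := tens_mul W a b g h

theorem charcoeff_mem' (W : Γ →* Matrix m m F) (k : ℕ) :
    (fun g => (W g).charpoly.coeff k) ∈ alg W := by
  let M : Matrix m m (alg W) := Matrix.of fun a b => gen W a b
  have h : (fun g => (W g).charpoly.coeff k) = (M.charpoly.coeff k).1 := by
    ext g
    have h1 : M.map ((evG W g : alg W →ₐ[F] F) : alg W →+* F) = W g := by
      ext a b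
      rfl
    rw [← h1, Matrix.charpoly_map, Polynomial.coeff_map]
    rfl
  rw [h]
  exact (M.charpoly.coeff k).2

end lemmas

section forward

universe u v w x

variable {Γ : Type u} {Place : Type x} {E : Type w} [Group Γ] [TopologicalSpace Γ]
  [IsTopologicalGroup Γ] [CompactSpace Γ] [MeasurableSpace Γ] [BorelSpace Γ]
  (μ : Measure Γ) [μ.IsHaarMeasure] (frob : Place → Set Γ) [Field E]
  {r : ℕ} {n : Fin r → ℕ} (P : Fin r → Place → E[X]) (Q : Place → E[X])

theorem trace_of_charpoly {F : Type*} [Field F] (ι : E →+* F) {A : Matrix (Fin 2) (Fin 2) F}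
    {q : E[X]} (h : A.charpoly = q.map ι) : A.trace = ι (-q.coeff 1) ∧ A.det = ι (q.coeff 0) := by
  constructor
  · have h5 := congrArg (fun p : F[X] => p.coeff 1) h
    simp only [Polynomial.coeff_map] at h5
    rw [map_neg, ← h5, Matrix.charpoly_fin_two]
    simp [Polynomial.coeff_C]
  · have h5 := congrArg (fun p : F[X] => p.coeff 0) h
    simp only [Polynomial.coeff_map] at h5
    rw [← h5, Matrix.charpoly_fin_two]
    simp

omit [CompactSpace Γ] [MeasurableSpace Γ] [BorelSpace Γ] in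
/-- If `det ρ` is one of the `V i` then it is in the algebra of the coefficients of `V`. -/
theorem det_mem (hd : DenseIn frob ⊤ Set.univ) (i₀ : Fin r)
    (hdet : ∀ v, P i₀ v = X - C ((Q v).coeff 0)) {F : Type v} [Field F] [TopologicalSpace F]
    [IsTopologicalRing F] [T2Space F] (ι : E →+* F)
    (V : (i : Fin r) → Γ →* Matrix (Fin (n i)) (Fin (n i)) F)
    (ρ : Γ →* Matrix (Fin 2) (Fin 2) F) (hR : IsRealisation frob P Q ι V ρ) :
    (fun g => (ρ g).det) ∈ alg (dirSum V) := by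
  have h1 := (alg (dirSum V)).neg_mem (charcoeff_mem V i₀ 0)
  have h2 : (fun g => (ρ g).det) = -fun g => (V i₀ g).charpoly.coeff 0 := by
    obtain ⟨T₁, hT₁, hc₁⟩ := hR.compV i₀
    obtain ⟨T₂, hT₂, hc₂⟩ := hR.comp
    have hcont : Continuous (-fun g => (V i₀ g).charpoly.coeff 0 : Γ → F) :=
      continuous_alg (dirSum V) (dirSum_continuous V hR.contV) h1
    have hcl : IsClosed {g | (ρ g).det = (-fun g => (V i₀ g).charpoly.coeff 0 : Γ → F) g} :=
      isClosed_eq hR.cont.matrix_det hcont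
    ext g
    by_contra hg
    obtain ⟨v, -, hv, s, hs, -, hsO⟩ := hd _ (T₁ ∪ T₂) hcl.isOpen_compl
      ⟨g, hg, Subgroup.mem_top g⟩ (hT₁.union hT₂)
    apply hsO
    have hv1 : v ∉ T₁ := fun h => hv (Or.inl h)
    have hv2 : v ∉ T₂ := fun h => hv (Or.inr h)
    show (ρ s).det = -(V i₀ s).charpoly.coeff 0
    rw [(trace_of_charpoly ι (hc₂ v hv2 s hs)).2, hc₁ v hv1 s hs, hdet v]
    simp
  rw [h2]
  exact h1

/-- **Forward direction.** -/
theorem coef_of_signed (hd : DenseIn frob ⊤ Set.univ) (i₀ : Fin r)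
    (hdet : ∀ v, P i₀ v = X - C ((Q v).coeff 0)) (S : Set Place) (hS : NonNegl μ frob S)
    (Φ : (MvPolynomial (Fin r × ℕ) E)[X]) (hΦ : IsSignedRelation P Q S Φ)
    {F : Type v} [Field F] [IsAlgClosed F] [CharZero F] [TopologicalSpace F]
    [IsTopologicalRing F] [T2Space F] (ι : E →+* F)
    (V : (i : Fin r) → Γ →* Matrix (Fin (n i)) (Fin (n i)) F)
    (ρ : Γ →* Matrix (Fin 2) (Fin 2) F) (hR : IsRealisation frob P Q ι V ρ) :
    ∃ U : Subgroup Γ, IsOpen (U : Set Γ) ∧ SI (ρ.comp U.subtype) ∧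
      ∀ i j, (fun u : U => ρ u i j) ∈ alg ((dirSum V).comp U.subtype) := by
  classical
  have hdm := det_mem frob P Q hd i₀ hdet ι V ρ hR
  obtain ⟨hVc, hρc, hV, hρ, hirr⟩ := hR
  choose TV hTV hTV' using hV
  obtain ⟨Tρ, hTρ, hTρ'⟩ := hρ
  set T : Set Place := (⋃ i, TV i) ∪ Tρ with hT
  have hTfin : T.Finite := (Set.finite_iUnion hTV).union hTρ
  let c : Fin r × ℕ → alg (dirSum V) := fun k =>
    ⟨fun g => (V k.1 g).charpoly.coeff k.2, charcoeff_mem V k.1 k.2⟩
  let θ : MvPolynomial (Fin r × ℕ) E →+* alg (dirSum V) :=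
    MvPolynomial.eval₂Hom ((algebraMap F (alg (dirSum V))).comp ι) c
  have hθ : ∀ v, v ∉ T → ∀ s ∈ frob v,
      ((evG (dirSum V) s : alg (dirSum V) →ₐ[F] F) : alg (dirSum V) →+* F).comp θ =
        ι.comp (MvPolynomial.eval fun k => (P k.1 v).coeff k.2) := by
    intro v hv s hs
    apply MvPolynomial.ringHom_ext
    · intro x
      simp only [RingHom.comp_apply, θ, MvPolynomial.coe_eval₂Hom, MvPolynomial.eval₂_C,
        MvPolynomial.eval_C]
      exact AlgHom.commutes (evG (dirSum V) s) (ι x)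
    · intro k
      simp only [RingHom.comp_apply, θ, MvPolynomial.coe_eval₂Hom, MvPolynomial.eval₂_X,
        MvPolynomial.eval_X]
      have h1 : v ∉ TV k.1 := fun h => hv (Or.inl (Set.mem_iUnion.mpr ⟨k.1, h⟩))
      show (V k.1 s).charpoly.coeff k.2 = _
      rw [hTV' k.1 v h1 s hs, Polynomial.coeff_map]
  refine sign_group μ (dirSum V) (dirSum_continuous V hVc) ρ hρc hirr
    (⋃ v ∈ S \ T, frob v) (by
      intro C hC hC0
      obtain ⟨v, hvS, hvT, s, hs, hsC⟩ := hS C T hC hC0 hTfin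
      refine ⟨s, ?_, hsC⟩
      simp only [Set.mem_iUnion]
      exact ⟨v, ⟨hvS, hvT⟩, hs⟩) hdm (Φ.map θ) (by
      intro s hs
      simp only [Set.mem_iUnion] at hs
      obtain ⟨v, ⟨hvS, hvT⟩, hs⟩ := hs
      obtain ⟨h1, h2⟩ := hΦ v hvS
      have h3 := (trace_of_charpoly ι (hTρ' v (fun h => hvT (Or.inr h)) s hs)).1
      rw [Polynomial.map_map, hθ v hvT s hs, ← Polynomial.map_map, h3]
      refine ⟨h1.map, ?_⟩
      rw [← map_neg, neg_neg]
      intro h4
      apply h2
      rw [Polynomial.IsRoot, Polynomial.eval_map, Polynomial.eval₂_at_apply] at h4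
      exact (map_eq_zero_iff ι ι.injective).mp h4)

omit [MeasurableSpace Γ] [BorelSpace Γ] in
theorem arisesTens_of_coef {F : Type v} [Field F] [IsAlgClosed F] [CharZero F]
    (V : (i : Fin r) → Γ →* Matrix (Fin (n i)) (Fin (n i)) F)
    (ρ : Γ →* Matrix (Fin 2) (Fin 2) F) (U : Subgroup Γ) (hU : IsOpen (U : Set Γ))
    (hSI : SI (ρ.comp U.subtype))
    (h : ∀ i j, (fun u : U => ρ u i j) ∈ alg ((dirSum V).comp U.subtype)) : ArisesTens V ρ := by
  classical
  obtain ⟨a, b, hab⟩ := subquot_of_coef ((dirSum V).comp U.subtype) (ρ.comp U.subtype)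
    (SI.irred _ hSI) h
  let W := tensHom (dirSum V) a b
  let κ := (Fin a → (Σ i : Fin r, Fin (n i))) × (Fin b → (Σ i : Fin r, Fin (n i)))
  let e : κ ≃ Fin (Fintype.card κ) := Fintype.equivFin κ
  let W' : Γ →* Matrix (Fin (Fintype.card κ)) (Fin (Fintype.card κ)) F :=
    ((Matrix.reindexAlgEquiv F F e).toMulEquiv.toMonoidHom).comp W
  have hW' : ∀ g p q, W' g (e p) (e q) = W g p q := by
    intro g p q
    show W g (e.symm (e p)) (e.symm (e q)) = _
    rw [Equiv.symm_apply_apply, Equiv.symm_apply_apply]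
  have h1 : IsSubquotient (fun u : U => ρ u) (fun u : U => W' u) :=
    RG.IDP.reindex_subquotient e (fun u : U => ρ u) (fun u : U => W u) (fun u : U => W' u)
      (fun u p q => hW' u p q) hab
  obtain ⟨i, N, τ, hτ, hsub⟩ := Row3.IDP (r := 1) (n := fun _ => Fintype.card κ)
    (fun _ => W') ρ ⟨U, hU, 0, h1⟩
  refine ⟨a, b, N, τ, hτ, ?_⟩
  refine RG.IDP.reindex_subquotient (Equiv.prodCongr e.symm (Equiv.refl _)) (fun g => ρ g)
    (fun g => W' g ⊗ₖ (Matrix.of fun x y : Fin N => if x = τ g y then (1 : F) else 0))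
    _ ?_ hsub
  intro g p q
  show W g (e.symm p.1) (e.symm q.1) * _ = W' g p.1 q.1 * _
  rw [← hW' g (e.symm p.1) (e.symm q.1), Equiv.apply_symm_apply, Equiv.apply_symm_apply]
  rfl

end forward

end Pool.Agent.DS
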