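import Mathlib
import Pool.Agent.helper46.DS.Poly
import Pool.Agent.helper46.DS.Signed

/-!
# MP_2e0e07_nt (DS): a relation between Frobenius polynomials as a polynomial in matrix entries
-/

set_option autoImplicit false

namespace Pool.Agent.DS

open Matrix Polynomial Pool.Agent.GO Pool.Agent.AR

/-- `Φ` has degree at most `D` if the coefficient of `X ^ j` in `P i v` has degree `n i - j` and the
variable `X` of `Φ` has degree `1`. -/
def HasWeight {R : Type*} [CommRing R] {r : ℕ} (n : Fin r → ℕ)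
    (Φ : (MvPolynomial (Fin r × ℕ) R)[X]) (D : ℕ) : Prop :=
  ∀ k, ∀ m ∈ (Φ.coeff k).support, k + m.sum (fun x e => e * (n x.1 - x.2)) ≤ D

section gen

variable {R : Type*} [CommRing R] [Nontrivial R] {r : ℕ} (n : Fin r → ℕ)

/-- the index set of the matrix entries -/
abbrev Idx {r : ℕ} (n : Fin r → ℕ) : Type := (Σ i : Fin r, Fin (n i)) ⊕ Fin 2

/-- the generic coefficient of the characteristic polynomial of the block `i` -/
noncomputable def coefG (R : Type*) [CommRing R] {r : ℕ} (n : Fin r → ℕ) (k : Fin r × ℕ) :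
    MvPolynomial (Idx n × Idx n) R :=
  (Matrix.of fun a b : Fin (n k.1) => (MvPolynomial.X (Sum.inl ⟨k.1, a⟩, Sum.inl ⟨k.1, b⟩) :
    MvPolynomial (Idx n × Idx n) R)).charpoly.coeff k.2

/-- the generic trace of the last block -/
noncomputable def trG (R : Type*) [CommRing R] {r : ℕ} (n : Fin r → ℕ) :
    MvPolynomial (Idx n × Idx n) R :=
  MvPolynomial.X (Sum.inr 0, Sum.inr 0) + MvPolynomial.X (Sum.inr 1, Sum.inr 1)

theorem coefG_degree (k : Fin r × ℕ) : (coefG R n k).totalDegree ≤ n k.1 - k.2 := by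
  have h1 : coefG R n k = MvPolynomial.rename
      (fun q : Fin (n k.1) × Fin (n k.1) =>
        ((Sum.inl ⟨k.1, q.1⟩, Sum.inl ⟨k.1, q.2⟩) : Idx n × Idx n))
      ((Matrix.charpoly.univ R (Fin (n k.1))).coeff k.2) := by
    rw [coefG, ← AlgHom.coe_toRingHom, ← Polynomial.coeff_map, Matrix.charpoly.univ,
      ← Matrix.charpoly_map]
    congr 2
    ext a b
    simp [Matrix.mvPolynomialX]
  rw [h1]
  refine (MvPolynomial.totalDegree_rename_le _ _).trans ?_
  by_cases h : k.2 ≤ n k.1
  · exact (Matrix.charpoly.univ_coeff_isHomogeneous R (Fin (n k.1)) k.2 (n k.1 - k.2) (by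
      rw [Fintype.card_fin]; omega)).totalDegree_le
  · rw [Polynomial.coeff_eq_zero_of_natDegree_lt (by
      rw [Matrix.charpoly.univ_natDegree, Fintype.card_fin]; omega)]
    simp

theorem trG_degree : (trG R n).totalDegree ≤ 1 := by
  unfold trG
  refine (MvPolynomial.totalDegree_add _ _).trans ?_
  rw [MvPolynomial.totalDegree_X, MvPolynomial.totalDegree_X]
  simp

/-- the relation as a polynomial in the matrix entries -/
noncomputable def relG {S : Type*} [CommRing S] (f : S →+* R)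
    (Φ : (MvPolynomial (Fin r × ℕ) S)[X]) : MvPolynomial (Idx n × Idx n) R :=
  Φ.eval₂ (MvPolynomial.eval₂Hom (MvPolynomial.C.comp f) (coefG R n)) (trG R n)

theorem relG_degree {S : Type*} [CommRing S] (f : S →+* R)
    (Φ : (MvPolynomial (Fin r × ℕ) S)[X]) (D : ℕ) (hΦ : HasWeight n Φ D) :
    (relG n f Φ).totalDegree ≤ D := by
  unfold relG
  rw [Polynomial.eval₂_eq_sum_range]
  refine MvPolynomial.totalDegree_finsetSum_le fun k _ => ?_
  rw [(Φ.coeff k).as_sum, map_sum, Finset.sum_mul]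
  refine MvPolynomial.totalDegree_finsetSum_le fun m hm => ?_
  refine le_trans ?_ (hΦ k m hm)
  refine (MvPolynomial.totalDegree_mul _ _).trans ?_
  rw [add_comm]
  refine Nat.add_le_add ?_ ?_
  · refine (MvPolynomial.totalDegree_pow _ _).trans ?_
    calc k * (trG R n).totalDegree ≤ k * 1 := Nat.mul_le_mul_left _ (trG_degree n)
      _ = k := mul_one k
  · rw [MvPolynomial.coe_eval₂Hom, MvPolynomial.eval₂_monomial]
    refine (MvPolynomial.totalDegree_mul _ _).trans ?_
    rw [RingHom.comp_apply, MvPolynomial.totalDegree_C, zero_add, Finsupp.prod, Finsupp.sum]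
    refine (MvPolynomial.totalDegree_finset_prod _ _).trans ?_
    refine Finset.sum_le_sum fun x _ => ?_
    refine (MvPolynomial.totalDegree_pow _ _).trans ?_
    exact Nat.mul_le_mul_left _ (coefG_degree n x)

end gen

section evalG

variable {F Γ : Type*} [Field F] [Group Γ] {r : ℕ} {n : Fin r → ℕ}

theorem coefG_eval (V : (i : Fin r) → Γ →* Matrix (Fin (n i)) (Fin (n i)) F)
    (ρ : Γ →* Matrix (Fin 2) (Fin 2) F) (g : Γ) (k : Fin r × ℕ) :
    MvPolynomial.eval (fun q : Idx n × Idx n => dsum (dirSum V) ρ g q.1 q.2) (coefG F n k) =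
      (V k.1 g).charpoly.coeff k.2 := by
  rw [coefG, ← Polynomial.coeff_map, ← Matrix.charpoly_map]
  congr 2
  ext a b
  simp only [Matrix.map_apply, Matrix.of_apply, MvPolynomial.eval_X]
  show Matrix.fromBlocks (Matrix.blockDiagonal' fun i => V i g) 0 0 (ρ g) _ _ = _
  rw [Matrix.fromBlocks_apply₁₁, Matrix.blockDiagonal'_apply_eq]

theorem trG_eval (V : (i : Fin r) → Γ →* Matrix (Fin (n i)) (Fin (n i)) F)
    (ρ : Γ →* Matrix (Fin 2) (Fin 2) F) (g : Γ) :
    MvPolynomial.eval (fun q : Idx n × Idx n => dsum (dirSum V) ρ g q.1 q.2) (trG F n) =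
      (ρ g).trace := by
  rw [trG, map_add, MvPolynomial.eval_X, MvPolynomial.eval_X]
  show Matrix.fromBlocks (Matrix.blockDiagonal' fun i => V i g) 0 0 (ρ g) _ _ +
    Matrix.fromBlocks (Matrix.blockDiagonal' fun i => V i g) 0 0 (ρ g) _ _ = _
  rw [Matrix.fromBlocks_apply₂₂, Matrix.fromBlocks_apply₂₂, Matrix.trace_fin_two]

theorem relG_eval {S : Type*} [CommRing S] (f : S →+* F)
    (Φ : (MvPolynomial (Fin r × ℕ) S)[X])
    (V : (i : Fin r) → Γ →* Matrix (Fin (n i)) (Fin (n i)) F)
    (ρ : Γ →* Matrix (Fin 2) (Fin 2) F) (g : Γ) :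
    MvPolynomial.eval (fun q : Idx n × Idx n => dsum (dirSum V) ρ g q.1 q.2) (relG n f Φ) =
      (Φ.map (MvPolynomial.eval₂Hom f fun k => (V k.1 g).charpoly.coeff k.2)).eval
        (ρ g).trace := by
  rw [relG, Polynomial.hom_eval₂, trG_eval, Polynomial.eval_map]
  congr 1
  apply MvPolynomial.ringHom_ext
  · intro x
    simp
  · intro k
    simp only [RingHom.comp_apply, MvPolynomial.coe_eval₂Hom, MvPolynomial.eval₂_X]
    exact coefG_eval V ρ g k

end evalG

end Pool.Agent.DS
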