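import Mathlib
import Pool.Agent.helper46.DS.Rel

/-!
# MP_2e0e07_nt (DS): the size of the values of a relation
-/

set_option autoImplicit false

namespace Pool.Agent.DS

open Polynomial NumberField

/-- For every complex embedding the sum of the absolute values of the coefficients of `Φ` is at most
`H`. -/
def HasHeight {E : Type*} [Field E] {r : ℕ} (Φ : (MvPolynomial (Fin r × ℕ) (𝓞 E))[X]) (H : ℕ) :
    Prop :=
  ∀ φ : E →+* ℂ, ∑ k ∈ Finset.range (Φ.natDegree + 1), ∑ m ∈ (Φ.coeff k).support,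
    ‖φ ((Φ.coeff k).coeff m : 𝓞 E)‖ ≤ H

/-- the value of the relation `Φ` at the polynomials `P i`, `Q`: with the coefficients of the `P i`
substituted for the variables and minus the coefficient of `X` in `Q` for `X` -/
noncomputable def relVal {R : Type*} [CommRing R] {r : ℕ} (Φ : (MvPolynomial (Fin r × ℕ) R)[X])
    (P : Fin r → R[X]) (Q : R[X]) : R :=
  (Φ.map (MvPolynomial.eval fun k => (P k.1).coeff k.2)).eval (-Q.coeff 1)

theorem norm_val_le {R : Type*} [CommRing R] {r : ℕ} {n : Fin r → ℕ}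
    (Φ : (MvPolynomial (Fin r × ℕ) R)[X]) {D : ℕ} (hD : HasWeight n Φ D) (f : R →+* ℂ)
    (x : Fin r × ℕ → R) (t : R) {M : ℝ} (hM : 1 ≤ M) (hx : ∀ k, ‖f (x k)‖ ≤ M ^ (n k.1 - k.2))
    (ht : ‖f t‖ ≤ M) :
    ‖f ((Φ.map (MvPolynomial.eval x)).eval t)‖ ≤
      (∑ k ∈ Finset.range (Φ.natDegree + 1), ∑ m ∈ (Φ.coeff k).support,
        ‖f ((Φ.coeff k).coeff m)‖) * M ^ D := by
  rw [Polynomial.eval_map, Polynomial.hom_eval₂, Polynomial.eval₂_eq_sum_range, Finset.sum_mul]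
  refine (norm_sum_le _ _).trans (Finset.sum_le_sum fun k _ => ?_)
  rw [RingHom.comp_apply]
  conv_lhs => rw [(Φ.coeff k).as_sum]
  rw [map_sum, map_sum, Finset.sum_mul, Finset.sum_mul]
  refine (norm_sum_le _ _).trans (Finset.sum_le_sum fun m hm => ?_)
  rw [MvPolynomial.eval_monomial, map_mul, norm_mul, norm_mul, mul_assoc]
  refine mul_le_mul_of_nonneg_left ?_ (norm_nonneg _)
  have h1 : ‖f (m.prod fun i e => x i ^ e)‖ ≤ M ^ (m.sum fun x e => e * (n x.1 - x.2)) := by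
    rw [Finsupp.prod, Finsupp.sum, map_prod, norm_prod, ← Finset.prod_pow_eq_pow_sum]
    refine Finset.prod_le_prod (fun _ _ => norm_nonneg _) fun i _ => ?_
    rw [map_pow, norm_pow, mul_comm (m i), pow_mul]
    exact pow_le_pow_left₀ (norm_nonneg _) (hx i) _
  have h2 : ‖f t ^ k‖ ≤ M ^ k := by
    rw [norm_pow]
    exact pow_le_pow_left₀ (norm_nonneg _) ht _
  calc ‖f (m.prod fun i e => x i ^ e)‖ * ‖f t ^ k‖
      ≤ M ^ (m.sum fun x e => e * (n x.1 - x.2)) * M ^ k :=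
        mul_le_mul h1 h2 (norm_nonneg _) (by positivity)
    _ = M ^ (k + m.sum fun x e => e * (n x.1 - x.2)) := by rw [← pow_add, add_comm]
    _ ≤ M ^ D := pow_le_pow_right₀ hM (hD k m hm)

theorem norm_coeff_le {R : Type*} [CommRing R] (f : R →+* ℂ) {p : R[X]} (hp : p.Monic)
    {B : ℝ} (hB : 1 ≤ B) (h : ∀ z, (p.map f).IsRoot z → ‖z‖ ≤ B) {N : ℕ}
    (hN : p.natDegree ≤ N) (j : ℕ) :
    ‖f (p.coeff j)‖ ≤ (N * B) ^ (p.natDegree - j) := by
  have hpm : (p.map f).Monic := hp.map f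
  have h1 := Polynomial.coeff_le_of_roots_le (f := RingHom.id ℂ) (p := p.map f) (B := B) j hpm
    (by rw [Polynomial.map_id]; exact IsAlgClosed.splits _)
    (by
      intro z hz
      rw [Polynomial.map_id] at hz
      exact h z (isRoot_of_mem_roots hz))
  rw [Polynomial.map_id, Polynomial.coeff_map, hp.natDegree_map] at h1
  refine h1.trans ?_
  by_cases hj : j ≤ p.natDegree
  · rw [mul_pow, mul_comm]
    refine mul_le_mul_of_nonneg_right ?_ (by positivity)
    rw [← Nat.choose_symm hj]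
    have h2 : ((p.natDegree.choose (p.natDegree - j) : ℕ) : ℝ) ≤
        (p.natDegree : ℝ) ^ (p.natDegree - j) := by
      exact_mod_cast Nat.choose_le_pow _ _
    refine h2.trans ?_
    exact pow_le_pow_left₀ (by positivity) (by exact_mod_cast hN) _
  · rw [Nat.choose_eq_zero_of_lt (by omega)]
    simp only [Nat.cast_zero, mul_zero]
    positivity

theorem eq_zero_of_norm {E : Type*} [Field E] [NumberField E] {x : 𝓞 E} {A : ℕ}
    (hA : ∀ φ : E →+* ℂ, ‖φ (x : E)‖ ≤ A) {I : Ideal (𝓞 E)} (hx : x ∈ I)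
    (hI : A ^ Module.finrank ℚ E < Ideal.absNorm I ∨ I = ⊥) : x = 0 := by
  rcases hI with hI | hI
  · by_contra hne
    have h1 : Ideal.absNorm I ∣ Ideal.absNorm (Ideal.span {x}) :=
      Ideal.absNorm_dvd_absNorm_of_le ((Ideal.span_singleton_le_iff_mem _).mpr hx)
    have h2 : Ideal.absNorm (Ideal.span {x}) ≠ 0 := by
      rw [Ideal.absNorm_span_singleton, Int.natAbs_ne_zero]
      exact (Algebra.norm_ne_zero_iff).mpr hne
    have h3 := Nat.le_of_dvd (Nat.pos_of_ne_zero h2) h1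
    have h4 : ((Ideal.absNorm (Ideal.span {x}) : ℕ) : ℝ) ≤ (A : ℝ) ^ Module.finrank ℚ E := by
      rw [Ideal.absNorm_span_singleton]
      have h5 : ((Algebra.norm ℤ x).natAbs : ℝ) = ‖∏ φ : E →ₐ[ℚ] ℂ, φ (x : E)‖ := by
        rw [← Algebra.norm_eq_prod_embeddings, ← Algebra.coe_norm_int]
        simp only [eq_ratCast, Rat.cast_intCast, Complex.norm_intCast, Nat.cast_natAbs,
          Int.cast_abs]
      rw [h5, norm_prod]
      calc ∏ φ : E →ₐ[ℚ] ℂ, ‖φ (x : E)‖
          ≤ ∏ _φ : E →ₐ[ℚ] ℂ, (A : ℝ) :=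
            Finset.prod_le_prod (fun _ _ => norm_nonneg _) fun φ _ => hA (φ : E →+* ℂ)
        _ = (A : ℝ) ^ Module.finrank ℚ E := by
            rw [Finset.prod_const, Finset.card_univ, AlgHom.card]
    have h5 : Ideal.absNorm (Ideal.span {x}) ≤ A ^ Module.finrank ℚ E := by exact_mod_cast h4
    omega
  · rw [hI] at hx
    exact (Submodule.mem_bot _).mp hx

/-- `P` is monic of degree `n` and all complex conjugates of its roots have absolute value at most
`B`. -/
def IsBounded {E : Type*} [Field E] (n B : ℕ) (P : (𝓞 E)[X]) : Prop :=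
  P.Monic ∧ P.natDegree = n ∧
    ∀ φ : E →+* ℂ, ∀ z, (P.map (φ.comp (algebraMap (𝓞 E) E))).IsRoot z → ‖z‖ ≤ B

/-- a small congruence modulo a large ideal is an equality -/
theorem relVal_eq_zero {E : Type*} [Field E] [NumberField E] {r : ℕ} {n : Fin r → ℕ}
    {Φ : (MvPolynomial (Fin r × ℕ) (𝓞 E))[X]} {D H B : ℕ} (hD : HasWeight n Φ D)
    (hH : HasHeight Φ H) (hB : 1 ≤ B) {P : Fin r → (𝓞 E)[X]} {Q : (𝓞 E)[X]}
    (hP : ∀ i, IsBounded (n i) B (P i)) (hQ : IsBounded 2 B Q)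
    {I : Ideal (𝓞 E)} (hI : (H * (((∑ i, n i) + 2) * B) ^ D) ^ Module.finrank ℚ E <
      Ideal.absNorm I ∨ I = ⊥) (h : relVal Φ P Q ∈ I) : relVal Φ P Q = 0 := by
  refine eq_zero_of_norm ?_ h hI
  intro φ
  have hB' : (1 : ℝ) ≤ B := by exact_mod_cast hB
  have hM : (1 : ℝ) ≤ ((((∑ i, n i) + 2 : ℕ) : ℝ) * B) := by
    have : (1 : ℝ) ≤ (((∑ i, n i) + 2 : ℕ) : ℝ) := by exact_mod_cast (by omega)
    nlinarith
  have h1 := norm_val_le Φ hD (φ.comp (algebraMap (𝓞 E) E)) (fun k => (P k.1).coeff k.2)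
    (-Q.coeff 1) hM (by
      intro k
      obtain ⟨p1, p2, p3⟩ := hP k.1
      have h2 := norm_coeff_le (φ.comp (algebraMap (𝓞 E) E)) p1 hB' (p3 φ)
        (N := (∑ i, n i) + 2) (by
          rw [p2]
          exact (Finset.single_le_sum (fun _ _ => Nat.zero_le _) (Finset.mem_univ k.1)).trans
            (Nat.le_add_right _ _)) k.2
      rw [p2] at h2
      exact h2) (by
      obtain ⟨p1, p2, p3⟩ := hQ
      have h2 := norm_coeff_le (φ.comp (algebraMap (𝓞 E) E)) p1 hB' (p3 φ)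
        (N := (∑ i, n i) + 2) (by rw [p2]; omega) 1
      rw [p2, show 2 - 1 = 1 from rfl, pow_one] at h2
      rw [map_neg, norm_neg]
      exact h2)
  refine h1.trans ?_
  push_cast
  have h3 := hH φ
  refine mul_le_mul_of_nonneg_right ?_ (by positivity)
  exact h3

end Pool.Agent.DS
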