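import Mathlib
import Pool.Agent.helper46.DS.NormB
import Pool.Agent.helper46.DS.Glob

/-!
# MP_2e0e07_nt (DS): a signed algebraic relation, congruent to zero at finitely many places
-/

set_option autoImplicit false

namespace Pool.Agent.DS

open Polynomial NumberField Matrix Pool.Agent.GO Pool.Agent.AR Pool.Agent.RG MeasureTheory

section prelim

variable {E : Type*} [Field E] {r : ℕ} {n : Fin r → ℕ}

theorem map_relVal {R F : Type*} [CommRing R] [CommRing F] (f : R →+* F)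
    (Φ : (MvPolynomial (Fin r × ℕ) R)[X]) (x : Fin r × ℕ → R) (t : R) :
    f ((Φ.map (MvPolynomial.eval x)).eval t) =
      (Φ.map (MvPolynomial.eval₂Hom f fun k => f (x k))).eval (f t) := by
  rw [Polynomial.eval_map, Polynomial.hom_eval₂, Polynomial.eval_map]
  congr 1
  apply MvPolynomial.ringHom_ext
  · intro y
    simp
  · intro k
    simp

/-- the value at `t` as a continuous function -/
theorem continuous_rel {Γ F R : Type*} [Group Γ] [TopologicalSpace Γ] [IsTopologicalGroup Γ]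
    [Field F] [TopologicalSpace F] [IsTopologicalRing F] [CommRing R] (f : R →+* F)
    (Φ : (MvPolynomial (Fin r × ℕ) R)[X])
    (V : (i : Fin r) → Γ →* Matrix (Fin (n i)) (Fin (n i)) F)
    (hV : ∀ i, Continuous (V i)) (t : Γ → F) (ht : Continuous t) :
    Continuous fun g => (Φ.map (MvPolynomial.eval₂Hom f fun k =>
      (V k.1 g).charpoly.coeff k.2)).eval (t g) := by
  have h1 : (fun g => (Φ.map (MvPolynomial.eval₂Hom f fun k =>
      (V k.1 g).charpoly.coeff k.2)).eval (t g)) = fun g =>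
      ∑ k ∈ Finset.range (Φ.natDegree + 1),
        MvPolynomial.eval (fun k : Fin r × ℕ => (V k.1 g).charpoly.coeff k.2)
          (MvPolynomial.map f (Φ.coeff k)) * (t g) ^ k := by
    ext g
    rw [Polynomial.eval_map, Polynomial.eval₂_eq_sum_range]
    refine Finset.sum_congr rfl fun k _ => ?_
    rw [MvPolynomial.eval_map, MvPolynomial.coe_eval₂Hom]
  rw [h1]
  refine continuous_finsetSum _ fun k _ => ?_
  refine Continuous.mul ?_ (ht.pow _)
  refine (MvPolynomial.continuous_eval _).comp ?_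
  refine continuous_pi fun q => ?_
  exact continuous_alg (dirSum V) (dirSum_continuous V hV) (charcoeff_mem V q.1 q.2)

/-- the relation as a polynomial over the functions on the group -/
theorem rel_fun {Γ F R : Type*} [Group Γ] [Field F] [CommRing R] (f : R →+* F)
    (Φ : (MvPolynomial (Fin r × ℕ) R)[X])
    (V : (i : Fin r) → Γ →* Matrix (Fin (n i)) (Fin (n i)) F) :
    ∃ P : (Γ → F)[X], (∀ k, P.coeff k ∈ alg (dirSum V)) ∧ ∀ (t : Γ → F) (g : Γ),
      P.eval t g = (Φ.map (MvPolynomial.eval₂Hom f fun k =>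
        (V k.1 g).charpoly.coeff k.2)).eval (t g) := by
  let θ : MvPolynomial (Fin r × ℕ) R →+* alg (dirSum V) :=
    MvPolynomial.eval₂Hom ((algebraMap F (alg (dirSum V))).comp f)
      fun k => ⟨fun g => (V k.1 g).charpoly.coeff k.2, charcoeff_mem V k.1 k.2⟩
  refine ⟨(Φ.map θ).map (algebraMap (alg (dirSum V)) (Γ → F)), ?_, ?_⟩
  · intro k
    rw [Polynomial.coeff_map]
    exact ((Φ.map θ).coeff k).2
  · intro t g
    let ev : (Γ → F) →+* F := Pi.evalRingHom (fun _ => F) g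
    show ev (Polynomial.eval t _) = _
    rw [Polynomial.eval_map, Polynomial.hom_eval₂, Polynomial.eval₂_map, Polynomial.eval_map]
    congr 1
    apply MvPolynomial.ringHom_ext
    · intro y
      simp only [RingHom.comp_apply, θ, MvPolynomial.coe_eval₂Hom, MvPolynomial.eval₂_C]
      rfl
    · intro k
      simp only [RingHom.comp_apply, θ, MvPolynomial.coe_eval₂Hom, MvPolynomial.eval₂_X]
      rfl

/-- the value of the relation `Φ` after the change of sign `a_v ↦ -a_v` -/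
noncomputable def relNeg {R : Type*} [CommRing R] {r : ℕ} (Φ : (MvPolynomial (Fin r × ℕ) R)[X])
    (P : Fin r → R[X]) (Q : R[X]) : R :=
  (Φ.map (MvPolynomial.eval fun k => (P k.1).coeff k.2)).eval (Q.coeff 1)

theorem rel_eq_relVal {Γ F : Type*} [Group Γ] [Field F] (ι : E →+* F)
    (Φ : (MvPolynomial (Fin r × ℕ) (𝓞 E))[X])
    (V : (i : Fin r) → Γ →* Matrix (Fin (n i)) (Fin (n i)) F)
    (ρ : Γ →* Matrix (Fin 2) (Fin 2) F) (P : Fin r → (𝓞 E)[X]) (Q : (𝓞 E)[X]) (s : Γ)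
    (hV : ∀ i, (V i s).charpoly = ((P i).map (algebraMap (𝓞 E) E)).map ι)
    (hρ : (ρ s).charpoly = (Q.map (algebraMap (𝓞 E) E)).map ι) :
    (Φ.map (MvPolynomial.eval₂Hom (ι.comp (algebraMap (𝓞 E) E)) fun k =>
      (V k.1 s).charpoly.coeff k.2)).eval (ρ s).trace =
      (ι.comp (algebraMap (𝓞 E) E)) (relVal Φ P Q) := by
  rw [relVal, map_relVal]
  have h4 := (trace_of_charpoly ι hρ).1
  have h5 : (fun k : Fin r × ℕ => (V k.1 s).charpoly.coeff k.2) =
      fun k => (ι.comp (algebraMap (𝓞 E) E)) ((P k.1).coeff k.2) := by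
    ext k
    rw [hV k.1, Polynomial.coeff_map, Polynomial.coeff_map]
    rfl
  rw [h4, h5, Polynomial.coeff_map, ← map_neg]
  rfl

theorem rel_eq_relNeg {Γ F : Type*} [Group Γ] [Field F] (ι : E →+* F)
    (Φ : (MvPolynomial (Fin r × ℕ) (𝓞 E))[X])
    (V : (i : Fin r) → Γ →* Matrix (Fin (n i)) (Fin (n i)) F)
    (ρ : Γ →* Matrix (Fin 2) (Fin 2) F) (P : Fin r → (𝓞 E)[X]) (Q : (𝓞 E)[X]) (s : Γ)
    (hV : ∀ i, (V i s).charpoly = ((P i).map (algebraMap (𝓞 E) E)).map ι)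
    (hρ : (ρ s).charpoly = (Q.map (algebraMap (𝓞 E) E)).map ι) :
    (Φ.map (MvPolynomial.eval₂Hom (ι.comp (algebraMap (𝓞 E) E)) fun k =>
      (V k.1 s).charpoly.coeff k.2)).eval (-(ρ s).trace) =
      (ι.comp (algebraMap (𝓞 E) E)) (relNeg Φ P Q) := by
  rw [relNeg, map_relVal]
  have h4 := (trace_of_charpoly ι hρ).1
  have h5 : (fun k : Fin r × ℕ => (V k.1 s).charpoly.coeff k.2) =
      fun k => (ι.comp (algebraMap (𝓞 E) E)) ((P k.1).coeff k.2) := by
    ext k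
    rw [hV k.1, Polynomial.coeff_map, Polynomial.coeff_map]
    rfl
  rw [h4, h5, ← map_neg, neg_neg, Polynomial.coeff_map]
  rfl

end prelim

section main

variable {Γ Place : Type*} [Group Γ] [TopologicalSpace Γ] [IsTopologicalGroup Γ]
  [CompactSpace Γ] (frob : Place → Set Γ) {E : Type*} [Field E] [NumberField E]
  {r : ℕ} {n : Fin r → ℕ}

omit [NumberField E] in
/-- If a relation which is sensitive to the sign holds at all but finitely many places then `ρ` is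
of geometric origin. -/
theorem of_relVal (hd : DenseIn frob ⊤ Set.univ) (P : Fin r → Place → (𝓞 E)[X])
    (Q : Place → (𝓞 E)[X]) (i₀ : Fin r) (hdet : ∀ v, P i₀ v = X - C ((Q v).coeff 0))
    (Φ : (MvPolynomial (Fin r × ℕ) (𝓞 E))[X])
    (hΦ : ∀ T : Set Place, T.Finite → ∃ v ∉ T, (frob v).Nonempty ∧
      relNeg Φ (fun i => P i v) (Q v) ≠ 0)
    (T₁ : Set Place) (hT₁ : T₁.Finite)
    (h : ∀ v ∉ T₁, (frob v).Nonempty → relVal Φ (fun i => P i v) (Q v) = 0)
    {F : Type*} [Field F] [IsAlgClosed F] [CharZero F] [TopologicalSpace F]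
    [IsTopologicalRing F] [T2Space F] (ι : E →+* F)
    (V : (i : Fin r) → Γ →* Matrix (Fin (n i)) (Fin (n i)) F)
    (ρ : Γ →* Matrix (Fin 2) (Fin 2) F)
    (hR : IsRealisation frob (fun i v => (P i v).map (algebraMap (𝓞 E) E))
      (fun v => (Q v).map (algebraMap (𝓞 E) E)) ι V ρ) :
    ∃ a b : ℕ, IsSubquotient (fun g => ρ g) (tens (dirSum V) a b) := by
  classical
  let _ : MeasurableSpace Γ := borel Γ
  have _ : BorelSpace Γ := ⟨rfl⟩
  let μ : Measure Γ := Measure.haar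
  let f : 𝓞 E →+* F := ι.comp (algebraMap (𝓞 E) E)
  have hf : Function.Injective f :=
    ι.injective.comp (FaithfulSMul.algebraMap_injective (𝓞 E) E)
  let w : Γ → F := fun g => (Φ.map (MvPolynomial.eval₂Hom f fun k =>
      (V k.1 g).charpoly.coeff k.2)).eval (-(ρ g).trace)
  have hw : Continuous w := continuous_rel f Φ V hR.contV (fun g => -(ρ g).trace) hR.cont.matrix_trace.neg
  obtain ⟨hVc, hρc, hV, hρ, hirr⟩ := id hR
  choose TV hTV hTV' using hV
  obtain ⟨Tρ, hTρ, hTρ'⟩ := hρ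
  set T : Set Place := (⋃ i, TV i) ∪ Tρ ∪ T₁ with hT
  have hTfin : T.Finite := ((Set.finite_iUnion hTV).union hTρ).union hT₁
  have hwf : ∀ v ∉ T, ∀ s ∈ frob v, w s = f (relNeg Φ (fun i => P i v) (Q v)) := by
    intro v hvT s hs
    exact rel_eq_relNeg ι Φ V ρ (fun i => P i v) (Q v) s
      (fun i => hTV' i v (fun hh => hvT (Or.inl (Or.inl (Set.mem_iUnion.mpr ⟨i, hh⟩)))) s hs)
      (hTρ' v (fun hh => hvT (Or.inl (Or.inr hh))) s hs)
  obtain ⟨v₀, hv₀, ⟨s₀, hs₀⟩, hne₀⟩ := hΦ T hTfin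
  have hw1 : w s₀ ≠ 0 := by
    rw [hwf v₀ hv₀ s₀ hs₀]
    exact fun h0 => hne₀ (hf (by rw [h0, map_zero]))
  let O : Set Γ := {g | w g ≠ 0}
  have hO : IsOpen O := isOpen_ne_fun hw continuous_const
  let S : Set Place := {v | v ∉ T ∧ ∃ s ∈ frob v, s ∈ O}
  have hS : NonNegl μ frob S := by
    intro C T' hC hC0 hT'
    have h1 : ∃ g ∈ O \ C, g ∈ (⊤ : Subgroup Γ) := by
      by_contra hne
      push Not at hne
      have h2 : O ⊆ C := by
        intro g hg
        by_contra hgC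
        exact hne g ⟨hg, hgC⟩ (Subgroup.mem_top g)
      have h3 : 0 < μ O := hO.measure_pos μ ⟨s₀, hw1⟩
      have h4 := measure_mono (μ := μ) h2
      rw [hC0] at h4
      exact absurd h3 (not_lt.mpr h4)
    obtain ⟨v, -, hv, s, hs, -, hsO, hsC⟩ := hd (O \ C) (T ∪ T') (hO.sdiff hC) h1
      (hTfin.union hT')
    exact ⟨v, ⟨fun h => hv (Or.inl h), s, hs, hsO⟩, fun h => hv (Or.inr h), s, hs, hsC⟩
  obtain ⟨U, hU, hSI, hco⟩ := coef_of_signed μ frob
    (fun i v => (P i v).map (algebraMap (𝓞 E) E)) (fun v => (Q v).map (algebraMap (𝓞 E) E))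
    hd i₀ (by
      intro v
      simp only [hdet v, Polynomial.map_sub, Polynomial.map_X, Polynomial.map_C,
        Polynomial.coeff_map]) S hS
    (Φ.map (MvPolynomial.map (algebraMap (𝓞 E) E))) (by
      intro v hv
      obtain ⟨hvT, s, hs, hsO⟩ := hv
      have hmap : (Φ.map (MvPolynomial.map (algebraMap (𝓞 E) E))).map
          (MvPolynomial.eval fun k => ((P k.1 v).map (algebraMap (𝓞 E) E)).coeff k.2) =
          Φ.map (MvPolynomial.eval₂Hom (algebraMap (𝓞 E) E) fun k =>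
            algebraMap (𝓞 E) E ((P k.1 v).coeff k.2)) := by
        rw [Polynomial.map_map]
        congr 1
        apply MvPolynomial.ringHom_ext
        · intro y
          simp
        · intro k
          simp
      rw [hmap]
      constructor
      · have h1 := h v (fun hh => hvT (Or.inr hh)) ⟨s, hs⟩
        have h2 := map_relVal (algebraMap (𝓞 E) E) Φ (fun k => (P k.1 v).coeff k.2)
          (-(Q v).coeff 1)
        rw [relVal] at h1
        rw [h1, map_zero, map_neg] at h2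
        rw [Polynomial.IsRoot, Polynomial.coeff_map]
        exact h2.symm
      · intro h3
        apply hsO
        show w s = 0
        rw [hwf v hvT s hs]
        have h4 := map_relVal (algebraMap (𝓞 E) E) Φ (fun k => (P k.1 v).coeff k.2)
          ((Q v).coeff 1)
        rw [Polynomial.IsRoot, Polynomial.coeff_map, ← h4] at h3
        have h5 : relNeg Φ (fun i => P i v) (Q v) = 0 :=
          FaithfulSMul.algebraMap_injective (𝓞 E) E (by rw [map_zero]; exact h3)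
        rw [h5, map_zero])
    ι V ρ hR
  -- from `U` to the whole group
  have hSIΓ : SI ρ := SI_of_open ρ hρc hirr
  obtain ⟨R, hR1, hR2⟩ := rel_fun f Φ V
  let w' : Γ → F := fun g => (Φ.map (MvPolynomial.eval₂Hom f fun k =>
      (V k.1 g).charpoly.coeff k.2)).eval ((ρ g).trace)
  have hw' : Continuous w' := continuous_rel f Φ V hR.contV (fun g => (ρ g).trace)
    hR.cont.matrix_trace
  have hw'0 : ∀ g, w' g = 0 := by
    intro g
    by_contra hg
    obtain ⟨v, -, hv, s, hs, -, hsO⟩ := hd {g | w' g ≠ 0} T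
      (isOpen_ne_fun hw' continuous_const) ⟨g, hg, Subgroup.mem_top _⟩ hTfin
    apply hsO
    show w' s = 0
    have h1 : w' s = f (relVal Φ (fun i => P i v) (Q v)) :=
      rel_eq_relVal ι Φ V ρ (fun i => P i v) (Q v) s
        (fun i => hTV' i v (fun hh => hv (Or.inl (Or.inl (Set.mem_iUnion.mpr ⟨i, hh⟩)))) s hs)
        (hTρ' v (fun hh => hv (Or.inl (Or.inr hh))) s hs)
    rw [h1, h v (fun hh => hv (Or.inr hh)) ⟨s, hs⟩, map_zero]
  have hdm := det_mem frob (fun i v => (P i v).map (algebraMap (𝓞 E) E))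
    (fun v => (Q v).map (algebraMap (𝓞 E) E)) hd i₀ (by
      intro v
      simp only [hdet v, Polynomial.map_sub, Polynomial.map_X, Polynomial.map_C,
        Polynomial.coeff_map]) ι V ρ hR
  have hfinU : Finite (Γ ⧸ U) := Subgroup.quotient_finite_of_isOpen U hU
  refine subquot_of_coef (dirSum V) ρ hSIΓ.irred ?_
  refine coef_global (dirSum V) ρ hSIΓ U Subgroup.finiteIndex_of_finite_quotient hco hdm R hR1
    ?_ ?_
  · ext g
    rw [hR2]
    exact hw'0 g
  · intro h0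
    apply hw1
    have h1 := congrFun h0 s₀
    rw [hR2] at h1
    exact h1

omit [CompactSpace Γ] [NumberField E] in
/-- If the relation is sensitive to the sign at one place then at infinitely many. -/
theorem sensitive_inf (hd : DenseIn frob ⊤ Set.univ) (P : Fin r → Place → (𝓞 E)[X])
    (Q : Place → (𝓞 E)[X]) (Φ : (MvPolynomial (Fin r × ℕ) (𝓞 E))[X])
    {F₁ : Type*} [Field F₁] [TopologicalSpace F₁] [IsTopologicalRing F₁] [T2Space F₁]
    (ι₁ : E →+* F₁)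
    (V₁ : (i : Fin r) → Γ →* Matrix (Fin (n i)) (Fin (n i)) F₁)
    (ρ₁ : Γ →* Matrix (Fin 2) (Fin 2) F₁)
    (hV₁ : ∀ i, Continuous (V₁ i)) (hρ₁ : Continuous ρ₁) (T₁ : Set Place) (hT₁ : T₁.Finite)
    (hcV : ∀ i, ∀ v ∉ T₁, ∀ s ∈ frob v,
      (V₁ i s).charpoly = (P i v).map (ι₁.comp (algebraMap (𝓞 E) E)))
    (hcρ : ∀ v ∉ T₁, ∀ s ∈ frob v,
      (ρ₁ s).charpoly = (Q v).map (ι₁.comp (algebraMap (𝓞 E) E)))
    (v₀ : Place) (hv₀ : v₀ ∉ T₁) (hf₀ : (frob v₀).Nonempty)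
    (h₀ : relNeg Φ (fun i => P i v₀) (Q v₀) ≠ 0) (T : Set Place) (hT : T.Finite) :
    ∃ v ∉ T, (frob v).Nonempty ∧ relNeg Φ (fun i => P i v) (Q v) ≠ 0 := by
  let f : 𝓞 E →+* F₁ := ι₁.comp (algebraMap (𝓞 E) E)
  have hf : Function.Injective f :=
    ι₁.injective.comp (FaithfulSMul.algebraMap_injective (𝓞 E) E)
  let w : Γ → F₁ := fun g => (Φ.map (MvPolynomial.eval₂Hom f fun k =>
      (V₁ k.1 g).charpoly.coeff k.2)).eval (-(ρ₁ g).trace)
  have hw : Continuous w := continuous_rel f Φ V₁ hV₁ (fun g => -(ρ₁ g).trace) hρ₁.matrix_trace.neg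
  have hwf : ∀ v ∉ T₁, ∀ s ∈ frob v, w s = f (relNeg Φ (fun i => P i v) (Q v)) := by
    intro v hvT s hs
    exact rel_eq_relNeg ι₁ Φ V₁ ρ₁ (fun i => P i v) (Q v) s
      (fun i => by rw [hcV i v hvT s hs, Polynomial.map_map])
      (by rw [hcρ v hvT s hs, Polynomial.map_map])
  obtain ⟨s₀, hs₀⟩ := hf₀
  have hw1 : w s₀ ≠ 0 := by
    rw [hwf v₀ hv₀ s₀ hs₀]
    exact fun h0 => h₀ (hf (by rw [h0, map_zero]))
  obtain ⟨v, -, hv, s, hs, -, hsO⟩ := hd {g | w g ≠ 0} (T ∪ T₁)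
    (isOpen_ne_fun hw continuous_const) ⟨s₀, hw1, Subgroup.mem_top _⟩ (hT.union hT₁)
  refine ⟨v, fun hh => hv (Or.inl hh), ⟨s, hs⟩, fun h0 => ?_⟩
  apply hsO
  rw [hwf v (fun hh => hv (Or.inr hh)) s hs, h0, map_zero]

omit [NumberField E] in
/-- The finite test. -/
theorem relVal_all {p : ℕ} [Fact p.Prime] (N : Subgroup Γ) [N.Normal] (e D : ℕ) (T : Set Place)
    (hT : ∀ U : Subgroup Γ, IsOpen (U : Set Γ) → U.Normal → N ≤ U →
      U.index ≤ p ^ (e * ((∑ i, n i) + 3) ^ (2 * D)) → ∀ g, ∃ v ∈ T, ∃ s ∈ frob v, s⁻¹ * g ∈ U)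
    (P : Fin r → Place → (𝓞 E)[X]) (Q : Place → (𝓞 E)[X])
    (Φ : (MvPolynomial (Fin r × ℕ) (𝓞 E))[X]) (hΦD : HasWeight n Φ D)
    {F₁ : Type*} [Field F₁] [Algebra ℚ_[p] F₁] [FiniteDimensional ℚ_[p] F₁] [TopologicalSpace F₁]
    [IsTopologicalRing F₁] [ContinuousSMul ℚ_[p] F₁] [T2Space F₁]
    (he : Module.finrank ℚ_[p] F₁ ≤ e) (ι₁ : E →+* F₁)
    (V₁ : (i : Fin r) → Γ →* Matrix (Fin (n i)) (Fin (n i)) F₁)
    (ρ₁ : Γ →* Matrix (Fin 2) (Fin 2) F₁)
    (hV₁ : ∀ i, Continuous (V₁ i)) (hρ₁ : Continuous ρ₁) (hVN : ∀ i, N ≤ (V₁ i).ker)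
    (hρN : N ≤ ρ₁.ker) (T₁ : Set Place) (hTT : Disjoint T T₁)
    (hcV : ∀ i, ∀ v ∉ T₁, ∀ s ∈ frob v,
      (V₁ i s).charpoly = (P i v).map (ι₁.comp (algebraMap (𝓞 E) E)))
    (hcρ : ∀ v ∉ T₁, ∀ s ∈ frob v,
      (ρ₁ s).charpoly = (Q v).map (ι₁.comp (algebraMap (𝓞 E) E)))
    (h : ∀ v ∈ T, relVal Φ (fun i => P i v) (Q v) = 0) :
    ∀ v ∉ T₁, (frob v).Nonempty → relVal Φ (fun i => P i v) (Q v) = 0 := by
  classical
  let f : 𝓞 E →+* F₁ := ι₁.comp (algebraMap (𝓞 E) E)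
  have hf : Function.Injective f :=
    ι₁.injective.comp (FaithfulSMul.algebraMap_injective (𝓞 E) E)
  have key : ∀ v ∉ T₁, ∀ s ∈ frob v,
      MvPolynomial.eval (fun q : Idx n × Idx n => dsum (dirSum V₁) ρ₁ s q.1 q.2)
        (relG n f Φ) = f (relVal Φ (fun i => P i v) (Q v)) := by
    intro v hv s hs
    rw [relG_eval, relVal, map_relVal]
    have h1 := (trace_of_charpoly (E := E) ι₁ (A := ρ₁ s)
      (q := (Q v).map (algebraMap (𝓞 E) E)) (by
        rw [hcρ v hv s hs, Polynomial.map_map])).1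
    have h2 : (fun k : Fin r × ℕ => (V₁ k.1 s).charpoly.coeff k.2) =
        fun k => f ((P k.1 v).coeff k.2) := by
      ext k
      rw [hcV k.1 v hv s hs, Polynomial.coeff_map]
    rw [h1, h2, Polynomial.coeff_map, ← map_neg]
    rfl
  have hcard : Fintype.card (Idx n) + 1 = (∑ i, n i) + 3 := by
    rw [Fintype.card_sum, Fintype.card_sigma]
    simp
  have hall := criterion_poly_mod he N (dsum (dirSum V₁) ρ₁)
    (by
      apply continuous_matrix
      intro a b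
      show Continuous fun g => Matrix.fromBlocks (dirSum V₁ g) 0 0 (ρ₁ g) a b
      rcases a with a | a <;> rcases b with b | b
      · exact (dirSum_continuous V₁ hV₁).matrix_elem a b
      · exact continuous_const
      · exact continuous_const
      · exact hρ₁.matrix_elem a b)
    (by
      intro g hg
      rw [MonoidHom.mem_ker]
      show Matrix.fromBlocks (Matrix.blockDiagonal' fun i => V₁ i g) 0 0 (ρ₁ g) = 1
      have h1 : (fun i => V₁ i g) =
          (1 : (i : Fin r) → Matrix (Fin (n i)) (Fin (n i)) F₁) := by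
        ext1 i
        exact (MonoidHom.mem_ker).mp (hVN i hg)
      rw [h1, Matrix.blockDiagonal'_one, (MonoidHom.mem_ker).mp (hρN hg),
        Matrix.fromBlocks_one])
    (relG n f Φ) (relG_degree n f Φ D hΦD) (⋃ v ∈ T, frob v)
    (by
      intro U hU1 hU2 hU3 hU4 g
      rw [hcard] at hU4
      obtain ⟨v, hv, s, hs, hsg⟩ := hT U hU1 hU2 hU3 hU4 g
      refine ⟨s, ?_, hsg⟩
      simp only [Set.mem_iUnion]
      exact ⟨v, hv, hs⟩)
    (by
      intro s hs
      simp only [Set.mem_iUnion] at hs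
      obtain ⟨v, hv, hs⟩ := hs
      rw [key v (Set.disjoint_left.mp hTT hv) s hs, h v hv, map_zero])
  intro v hv ⟨s, hs⟩
  apply hf
  rw [← key v hv s hs, hall s, map_zero]

/-- **Main theorem.** -/
theorem congruence_criterion (hd : DenseIn frob ⊤ Set.univ)
    {p : ℕ} [Fact p.Prime] (N : Subgroup Γ) [N.Normal] (e D : ℕ) (T : Set Place)
    (hT : ∀ U : Subgroup Γ, IsOpen (U : Set Γ) → U.Normal → N ≤ U →
      U.index ≤ p ^ (e * ((∑ i, n i) + 3) ^ (2 * D)) → ∀ g, ∃ v ∈ T, ∃ s ∈ frob v, s⁻¹ * g ∈ U)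
    (P : Fin r → Place → (𝓞 E)[X]) (Q : Place → (𝓞 E)[X]) (i₀ : Fin r)
    (hdet : ∀ v, P i₀ v = X - C ((Q v).coeff 0))
    (B : Place → ℕ) (hB : ∀ v ∈ T, 1 ≤ B v)
    (hP : ∀ v ∈ T, ∀ i, IsBounded (n i) (B v) (P i v)) (hQ : ∀ v ∈ T, IsBounded 2 (B v) (Q v))
    (Φ : (MvPolynomial (Fin r × ℕ) (𝓞 E))[X]) (H : ℕ) (hΦD : HasWeight n Φ D)
    (hΦH : HasHeight Φ H)
    {F₁ : Type*} [Field F₁] [Algebra ℚ_[p] F₁] [FiniteDimensional ℚ_[p] F₁] [TopologicalSpace F₁]
    [IsTopologicalRing F₁] [ContinuousSMul ℚ_[p] F₁] [T2Space F₁]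
    (he : Module.finrank ℚ_[p] F₁ ≤ e) (ι₁ : E →+* F₁)
    (V₁ : (i : Fin r) → Γ →* Matrix (Fin (n i)) (Fin (n i)) F₁)
    (ρ₁ : Γ →* Matrix (Fin 2) (Fin 2) F₁)
    (hV₁ : ∀ i, Continuous (V₁ i)) (hρ₁ : Continuous ρ₁) (hVN : ∀ i, N ≤ (V₁ i).ker)
    (hρN : N ≤ ρ₁.ker) (T₁ : Set Place) (hT₁ : T₁.Finite) (hTT : Disjoint T T₁)
    (hcV : ∀ i, ∀ v ∉ T₁, ∀ s ∈ frob v,
      (V₁ i s).charpoly = (P i v).map (ι₁.comp (algebraMap (𝓞 E) E)))
    (hcρ : ∀ v ∉ T₁, ∀ s ∈ frob v,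
      (ρ₁ s).charpoly = (Q v).map (ι₁.comp (algebraMap (𝓞 E) E)))
    (h : ∀ v ∈ T, ∃ I : Ideal (𝓞 E),
      ((H * (((∑ i, n i) + 2) * B v) ^ D) ^ Module.finrank ℚ E < Ideal.absNorm I ∨ I = ⊥) ∧
        relVal Φ (fun i => P i v) (Q v) ∈ I)
    (v₀ : Place) (hv₀ : v₀ ∉ T₁) (hf₀ : (frob v₀).Nonempty)
    (h₀ : relNeg Φ (fun i => P i v₀) (Q v₀) ≠ 0)
    {F : Type*} [Field F] [IsAlgClosed F] [CharZero F] [TopologicalSpace F]
    [IsTopologicalRing F] [T2Space F] (ι : E →+* F)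
    (V : (i : Fin r) → Γ →* Matrix (Fin (n i)) (Fin (n i)) F)
    (ρ : Γ →* Matrix (Fin 2) (Fin 2) F)
    (hR : IsRealisation frob (fun i v => (P i v).map (algebraMap (𝓞 E) E))
      (fun v => (Q v).map (algebraMap (𝓞 E) E)) ι V ρ) :
    ∃ a b : ℕ, IsSubquotient (fun g => ρ g) (tens (dirSum V) a b) := by
  refine of_relVal frob hd P Q i₀ hdet Φ (sensitive_inf frob hd P Q Φ ι₁ V₁ ρ₁ hV₁ hρ₁ T₁ hT₁ hcV
    hcρ v₀ hv₀ hf₀ h₀) T₁ hT₁ ?_ ι V ρ hR
  refine relVal_all frob N e D T hT P Q Φ hΦD he ι₁ V₁ ρ₁ hV₁ hρ₁ hVN hρN T₁ hTT hcV hcρ ?_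
  intro v hv
  obtain ⟨I, hI, hmem⟩ := h v hv
  exact relVal_eq_zero hΦD hΦH (hB v hv) (hP v hv) (hQ v hv) hI hmem

end main

end Pool.Agent.DS
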