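import Mathlib
import Pool.Agent.helper46.DS.Signed
import Pool.Agent.helper67.RG.TB

/-!
# MP_2e0e07_nt (DS): a subquotient of a tensor construction satisfies a relation
-/

set_option autoImplicit false

namespace Pool.Agent.DS

open Matrix Polynomial Pool.Agent.GO Pool.Agent.AR Pool.Agent.RG

universe u v w

theorem eig_of_sub {F Γ κ : Type*} [Field F] [Group Γ] [Fintype κ]
    (ρ : Γ →* Matrix (Fin 2) (Fin 2) F) (T : Γ → Matrix κ κ F)
    (h : IsSubquotient (fun g => ρ g) T) (g : Γ) (x : F) (hx : Eig (ρ g) x) : Eig (T g) x := by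
  classical
  obtain ⟨Q, hQ, π, hπ, heq⟩ := h
  by_contra hne
  let f : Q →ₗ[F] Q := (T g).mulVecLin.restrict (hQ g) - x • LinearMap.id
  have hf : ∀ y : Q, f y = ⟨T g *ᵥ y.1, hQ g y.1 y.2⟩ - x • y := fun y => rfl
  have hfi : Function.Injective f := by
    rw [injective_iff_map_eq_zero]
    intro y hy
    by_contra hy0
    apply hne
    refine ⟨y.1, fun h0 => hy0 (Subtype.ext h0), ?_⟩
    rw [hf, sub_eq_zero] at hy
    exact congrArg Subtype.val hy
  have hfs : Function.Surjective f := LinearMap.injective_iff_surjective.1 hfi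
  let Ψ : (Fin 2 → F) →ₗ[F] (Fin 2 → F) := (ρ g).mulVecLin - x • LinearMap.id
  have hΨ : ∀ w, Ψ w = ρ g *ᵥ w - x • w := fun w => rfl
  have hs : Function.Surjective Ψ := by
    intro w
    obtain ⟨y, rfl⟩ := hπ w
    obtain ⟨y', rfl⟩ := hfs y
    refine ⟨π y', ?_⟩
    rw [hΨ, hf, map_sub, map_smul, heq g y']
  have hi : Function.Injective Ψ := LinearMap.injective_iff_surjective.2 hs
  obtain ⟨y, hy, hyx⟩ := hx
  apply hy
  apply hi
  rw [map_zero, hΨ, hyx, sub_self]

/-- the roots of a polynomial, numbered -/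
theorem exists_roots {F : Type*} [Field F] [IsAlgClosed F] (m : ℕ) (p : F[X]) (hp : p.Monic)
    (hm : p.natDegree = m) : ∃ r : Fin m → F, p = ∏ i, (X - C (r i)) := by
  have hs := IsAlgClosed.splits p
  have hc : p.roots.toList.length = m := by
    rw [Multiset.length_toList, ← hm]
    exact (splits_iff_card_roots.mp hs)
  subst hc
  refine ⟨fun i => p.roots.toList.get i, ?_⟩
  conv_lhs => rw [hs.eq_prod_roots_of_monic hp]
  have h1 : (Multiset.map (fun x => X - C x) p.roots) =
      ((p.roots.toList.map fun x => (X - C x : F[X])) : Multiset F[X]) := by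
    rw [← Multiset.map_coe, Multiset.coe_toList]
  rw [h1, Multiset.prod_coe]
  rw [← List.prod_ofFn]
  congr 1
  apply List.ext_get
  · simp
  · intro k h1 h2
    simp

/-- The coefficient `k` of the product of the polynomials with the coefficients `X (i, j)`. -/
noncomputable def prodCoeff (R : Type*) [CommRing R] {r : ℕ} (n : Fin r → ℕ) (k : ℕ) :
    MvPolynomial (Fin r × ℕ) R :=
  (∏ i, ∑ j ∈ Finset.range (n i + 1), C (MvPolynomial.X (i, j)) * X ^ j :
    (MvPolynomial (Fin r × ℕ) R)[X]).coeff k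

theorem prodCoeff_eval {R F : Type*} [CommRing R] [Field F] {r : ℕ} (n : Fin r → ℕ) (k : ℕ)
    (f : R →+* F) (p : Fin r → F[X]) (hp : ∀ i, (p i).natDegree ≤ n i) :
    MvPolynomial.eval₂Hom f (fun q => (p q.1).coeff q.2) (prodCoeff R n k) =
      (∏ i, p i).coeff k := by
  rw [prodCoeff, ← Polynomial.coeff_map, Polynomial.map_prod]
  congr 1
  refine Finset.prod_congr rfl fun i _ => ?_
  rw [Polynomial.map_sum, (p i).as_sum_range' (n i + 1) (by have := hp i; omega)]
  refine Finset.sum_congr rfl fun j _ => ?_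
  rw [Polynomial.map_mul, Polynomial.map_C, Polynomial.map_pow, Polynomial.map_X,
    MvPolynomial.coe_eval₂Hom, MvPolynomial.eval₂_X, Polynomial.C_mul_X_pow_eq_monomial]

/-- **Converse.** -/
theorem conv {R : Type u} [CommRing R] {r : ℕ} (n : Fin r → ℕ) (a b : ℕ) :
    ∃ Φ : (MvPolynomial (Fin r × ℕ) R)[X], ∀ {F : Type v} [Field F] (f : R →+* F),
      (∀ {Γ : Type w} [Group Γ] [IsAlgClosed F]
        (V : (i : Fin r) → Γ →* Matrix (Fin (n i)) (Fin (n i)) F)
        (ρ : Γ →* Matrix (Fin 2) (Fin 2) F),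
        IsSubquotient (fun g => ρ g) (tens (dirSum V) a b) → ∀ g,
        (Φ.map (MvPolynomial.eval₂Hom f fun k => (V k.1 g).charpoly.coeff k.2)).eval
          (ρ g).trace = 0) ∧
      (CharZero F → (Φ.map (MvPolynomial.eval₂Hom f fun k =>
        (((X - 1 : F[X]) ^ n k.1).coeff k.2))).eval (-2) ≠ 0) := by
  classical
  obtain ⟨Ψ, hΨ⟩ := SYM.{u, v} (E := R) (∑ i, n i) a b
  refine ⟨Ψ.map (MvPolynomial.eval₂Hom MvPolynomial.C (prodCoeff R n) :
    MvPolynomial ℕ R →+* MvPolynomial (Fin r × ℕ) R), ?_⟩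
  intro F _ f
  have key : ∀ (p : Fin r → F[X]) (hp : ∀ i, (p i).natDegree ≤ n i),
      (Ψ.map (MvPolynomial.eval₂Hom MvPolynomial.C (prodCoeff R n) :
        MvPolynomial ℕ R →+* MvPolynomial (Fin r × ℕ) R)).map
        (MvPolynomial.eval₂Hom f fun q => (p q.1).coeff q.2) =
      Ψ.map (MvPolynomial.eval₂Hom f fun k => (∏ i, p i).coeff k) := by
    intro p hp
    rw [Polynomial.map_map]
    congr 1
    apply MvPolynomial.ringHom_ext
    · intro x
      simp
    · intro k
      simp only [RingHom.comp_apply, MvPolynomial.coe_eval₂Hom, MvPolynomial.eval₂_X]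
      exact prodCoeff_eval n k f p hp
  constructor
  · intro Γ _ _ V ρ h g
    have h1 := key (fun i => (V i g).charpoly) (fun i => by
      rw [Matrix.charpoly_natDegree_eq_dim, Fintype.card_fin])
    rw [h1, ← charpoly_dirSum' V g]
    obtain ⟨ro, hro⟩ := exists_roots (∑ i, n i) (dirSum V g).charpoly
      (Matrix.charpoly_monic _) (by
        rw [Matrix.charpoly_natDegree_eq_dim, Fintype.card_sigma]
        simp)
    rw [hro, hΨ f ro]
    have hdetW : (dirSum V g).charpoly.eval 0 ≠ 0 := by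
      intro h2
      have h3 := Matrix.det_eq_sign_charpoly_coeff (dirSum V g)
      rw [← Polynomial.coeff_zero_eq_eval_zero] at h2
      rw [h2, mul_zero] at h3
      have h4 : dirSum V g * dirSum V g⁻¹ = 1 := by rw [← map_mul, mul_inv_cancel, map_one]
      have h5 := congrArg Matrix.det h4
      rw [Matrix.det_mul, h3, zero_mul, Matrix.det_one] at h5
      exact zero_ne_one h5
    have hr0 : ∀ i, ro i ≠ 0 := by
      intro i h2
      apply hdetW
      rw [hro, Polynomial.eval_prod]
      refine Finset.prod_eq_zero (Finset.mem_univ i) ?_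
      rw [Polynomial.eval_sub, Polynomial.eval_X, Polynomial.eval_C, h2, sub_zero]
    have hmem : ∀ x, Eig (dirSum V g) x → ∃ i, x = ro i := by
      intro x hx
      rw [eig_iff_root, hro, Polynomial.IsRoot, Polynomial.eval_prod,
        Finset.prod_eq_zero_iff] at hx
      obtain ⟨i, -, hi⟩ := hx
      rw [Polynomial.eval_sub, Polynomial.eval_X, Polynomial.eval_C, sub_eq_zero] at hi
      exact ⟨i, hi⟩
    obtain ⟨α, β, hα, hβ, hsum, hprod⟩ := eig_two (ρ g)
    have hinv : ρ g * ρ g⁻¹ = 1 := by rw [← map_mul, mul_inv_cancel, map_one]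
    have hdet : (ρ g).det ≠ 0 := by
      intro h0
      have h1 := congrArg Matrix.det hinv
      rw [Matrix.det_mul, h0, zero_mul, Matrix.det_one] at h1
      exact zero_ne_one h1
    have hα0 : α ≠ 0 := fun h0 => hdet (by rw [← hprod, h0, zero_mul])
    have hβ0 : β ≠ 0 := fun h0 => hdet (by rw [← hprod, h0, mul_zero])
    obtain ⟨γ, δ, hγ, hδ, e1⟩ := eig_tens (dirSum V) a b g α hα0
      (eig_of_sub ρ _ h g α hα)
    obtain ⟨γ', δ', hγ', hδ', e2⟩ := eig_tens (dirSum V) a b g β hβ0
      (eig_of_sub ρ _ h g β hβ)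
    choose cγ hcγ using fun k => hmem _ (hγ k)
    choose cδ hcδ using fun k => hmem _ (hδ k)
    choose cγ' hcγ' using fun k => hmem _ (hγ' k)
    choose cδ' hcδ' using fun k => hmem _ (hδ' k)
    rw [← hsum]
    refine relPoly_root ro hr0 (γ := cγ) (γ' := cγ') (δ := cδ) (δ' := cδ') ?_ ?_
    · rw [← Finset.prod_congr rfl fun k _ => hcδ k, ← Finset.prod_congr rfl fun k _ => hcγ k]
      exact e1
    · rw [← Finset.prod_congr rfl fun k _ => hcδ' k, ← Finset.prod_congr rfl fun k _ => hcγ' k]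
      exact e2
  · intro _
    have h1 := key (fun i => (X - 1 : F[X]) ^ n i) (fun i => by
      refine (Polynomial.natDegree_pow_le).trans ?_
      have : (X - 1 : F[X]).natDegree ≤ 1 := by
        rw [← Polynomial.C_1]
        exact Polynomial.natDegree_X_sub_C_le 1
      calc n i * (X - 1 : F[X]).natDegree ≤ n i * 1 := Nat.mul_le_mul_left _ this
        _ = n i := mul_one _)
    rw [h1]
    have h2 : (∏ i, (X - 1 : F[X]) ^ n i) = ∏ _i : Fin (∑ i, n i), (X - C (1 : F)) := by
      rw [Finset.prod_pow_eq_pow_sum, Finset.prod_const, Finset.card_univ, Fintype.card_fin,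
        Polynomial.C_1]
    rw [h2, hΨ f (fun _ => (1 : F))]
    exact relPoly_one (∑ i, n i) a b

end Pool.Agent.DS
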