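import Mathlib
import Pool.Agent.helper46.DS.AB
import Pool.Agent.helper46.DS.Conv

/-!
# MP_2e0e07_nt (DS): finite certificates
-/

set_option autoImplicit false

namespace Pool.Agent.DS

open Polynomial NumberField Matrix Pool.Agent.GO Pool.Agent.AR Pool.Agent.RG

/-- The Frobenius elements of the places of `T` meet all cosets of all open normal subgroups
`U ⊇ N` of index at most `B`. -/
def Meets {Γ Place : Type*} [Group Γ] [TopologicalSpace Γ] (frob : Place → Set Γ) (N : Subgroup Γ)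
    (B : ℕ) (T : Set Place) : Prop :=
  ∀ U : Subgroup Γ, IsOpen (U : Set Γ) → U.Normal → N ≤ U → U.index ≤ B →
    ∀ g, ∃ v ∈ T, ∃ s ∈ frob v, s⁻¹ * g ∈ U

/-- A finite certificate: a polynomial `Φ` in the coefficients of the `P i` and in `a`, of weight at
most `D` and height at most `H`, and a finite set `T` of places which meets all cosets of the open
normal subgroups of index at most `p ^ (e (∑ n i + 3) ^ (2 D))`, such that for `v ∈ T` the value of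
`Φ` at `v` is in an ideal of norm greater than `(H ((∑ n i + 2) B v) ^ D) ^ [E : ℚ]`, and a place
`v₀` at which the value of `Φ` is nonzero after the change of sign `a_v ↦ -a_v`. -/
def HasCertificate {Γ Place : Type*} [Group Γ] [TopologicalSpace Γ] (frob : Place → Set Γ)
    (N : Subgroup Γ) (T₁ : Set Place) {E : Type*} [Field E] [NumberField E] {r : ℕ}
    (n : Fin r → ℕ) (P : Fin r → Place → (𝓞 E)[X]) (Q : Place → (𝓞 E)[X]) (B : Place → ℕ)
    (p e : ℕ) : Prop :=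
  ∃ (D H : ℕ) (Φ : (MvPolynomial (Fin r × ℕ) (𝓞 E))[X]) (T : Set Place) (v₀ : Place),
    HasWeight n Φ D ∧ HasHeight Φ H ∧ T.Finite ∧ Disjoint T T₁ ∧
    Meets frob N (p ^ (e * ((∑ i, n i) + 3) ^ (2 * D))) T ∧
    (∀ v ∈ T, ∃ I : Ideal (𝓞 E),
      (H * (((∑ i, n i) + 2) * B v) ^ D) ^ Module.finrank ℚ E < Ideal.absNorm I ∧
        relVal Φ (fun i => P i v) (Q v) ∈ I) ∧
    v₀ ∉ T₁ ∧ relNeg Φ (fun i => P i v₀) (Q v₀) ≠ 0

/-- Continuous representations `V i`, `ρ` over the finite extension `F` of `ℚ_p` of degree at most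
`e`, trivial on `N` and compatible with the `P i`, `Q` outside `T₁`. -/
structure IsFiniteRealisation {Γ Place : Type*} [Group Γ] [TopologicalSpace Γ]
    (frob : Place → Set Γ) (N : Subgroup Γ) (T₁ : Set Place) {E : Type*} [Field E] {r : ℕ}
    {n : Fin r → ℕ} (P : Fin r → Place → (𝓞 E)[X]) (Q : Place → (𝓞 E)[X])
    {F : Type*} [Field F] [TopologicalSpace F] (ι : E →+* F)
    (V : (i : Fin r) → Γ →* Matrix (Fin (n i)) (Fin (n i)) F)
    (ρ : Γ →* Matrix (Fin 2) (Fin 2) F) : Prop where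
  contV : ∀ i, Continuous (V i)
  cont : Continuous ρ
  kerV : ∀ i, N ≤ (V i).ker
  ker : N ≤ ρ.ker
  compV : ∀ i, ∀ v ∉ T₁, ∀ s ∈ frob v,
    (V i s).charpoly = (P i v).map (ι.comp (algebraMap (𝓞 E) E))
  comp : ∀ v ∉ T₁, ∀ s ∈ frob v, (ρ s).charpoly = (Q v).map (ι.comp (algebraMap (𝓞 E) E))

section aux

theorem exists_weight {R : Type*} [CommRing R] {r : ℕ} (n : Fin r → ℕ)
    (Φ : (MvPolynomial (Fin r × ℕ) R)[X]) : ∃ D, HasWeight n Φ D := by
  refine ⟨Φ.support.sup fun k => (Φ.coeff k).support.sup fun m =>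
    k + m.sum (fun x e => e * (n x.1 - x.2)), ?_⟩
  intro k m hm
  have hk : k ∈ Φ.support := by
    rw [Polynomial.mem_support_iff]
    intro h0
    rw [h0] at hm
    simp at hm
  exact (Finset.le_sup (f := fun m : Fin r × ℕ →₀ ℕ =>
    k + m.sum (fun x e => e * (n x.1 - x.2))) hm).trans
    (Finset.le_sup (f := fun k => (Φ.coeff k).support.sup fun m =>
      k + m.sum (fun x e => e * (n x.1 - x.2))) hk)

theorem exists_height {E : Type*} [Field E] [NumberField E] {r : ℕ}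
    (Φ : (MvPolynomial (Fin r × ℕ) (𝓞 E))[X]) : ∃ H, HasHeight Φ H := by
  obtain ⟨M, hM⟩ := Set.Finite.bddAbove (Set.finite_range fun φ : E →+* ℂ =>
    ∑ k ∈ Finset.range (Φ.natDegree + 1), ∑ m ∈ (Φ.coeff k).support,
      ‖φ ((Φ.coeff k).coeff m : 𝓞 E)‖)
  refine ⟨⌈M⌉₊, fun φ => ?_⟩
  exact (hM ⟨φ, rfl⟩).trans (Nat.le_ceil M)

/-- finitely many places meet all cosets of finitely many open subgroups -/
theorem exists_meets {Γ Place : Type*} [Group Γ] [TopologicalSpace Γ] [IsTopologicalGroup Γ]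
    [CompactSpace Γ] (frob : Place → Set Γ) (N : Subgroup Γ) (B : ℕ) (T₁ : Set Place)
    (hT₁ : T₁.Finite) (hd : DenseIn frob ⊤ Set.univ)
    (hfin : {U : Subgroup Γ | IsOpen (U : Set Γ) ∧ U.Normal ∧ N ≤ U ∧ U.index ≤ B}.Finite) :
    ∃ T : Set Place, T.Finite ∧ Disjoint T T₁ ∧ Meets frob N B T := by
  classical
  have h1 : ∀ U ∈ {U : Subgroup Γ | IsOpen (U : Set Γ) ∧ U.Normal ∧ N ≤ U ∧ U.index ≤ B},
      ∃ T : Set Place, T.Finite ∧ Disjoint T T₁ ∧
        ∀ g, ∃ v ∈ T, ∃ s ∈ frob v, s⁻¹ * g ∈ U := by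
    intro U hU
    have hfq : Finite (Γ ⧸ U) := Subgroup.quotient_finite_of_isOpen U hU.1
    have h2 : ∀ q : Γ ⧸ U, ∃ v, v ∉ T₁ ∧ ∃ s ∈ frob v, s⁻¹ * q.out ∈ U := by
      intro q
      have hopen : IsOpen {x : Γ | x⁻¹ * q.out ∈ U} :=
        hU.1.preimage (continuous_inv.mul continuous_const)
      obtain ⟨v, -, hv, s, hs, -, hsO⟩ := hd _ T₁ hopen
        ⟨q.out, by simp [U.one_mem], Subgroup.mem_top _⟩ hT₁
      exact ⟨v, hv, s, hs, hsO⟩
    choose v hv s hs hU' using h2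
    refine ⟨Set.range v, Set.finite_range v, ?_, ?_⟩
    · rw [Set.disjoint_left]
      rintro _ ⟨q, rfl⟩
      exact hv q
    · intro g
      refine ⟨v (QuotientGroup.mk g), ⟨_, rfl⟩, s (QuotientGroup.mk g), hs _, ?_⟩
      have h3 := hU' (QuotientGroup.mk g)
      have h4 : ((QuotientGroup.mk g : Γ ⧸ U).out)⁻¹ * g ∈ U := by
        rw [← QuotientGroup.eq, QuotientGroup.out_eq']
      have h5 := U.mul_mem h3 h4
      have h6 : (s (QuotientGroup.mk g))⁻¹ * (QuotientGroup.mk g : Γ ⧸ U).out *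
          (((QuotientGroup.mk g : Γ ⧸ U).out)⁻¹ * g) = (s (QuotientGroup.mk g))⁻¹ * g := by
        group
      rwa [h6] at h5
  choose! T hT1 hT2 hT3 using h1
  refine ⟨⋃ U ∈ {U : Subgroup Γ | IsOpen (U : Set Γ) ∧ U.Normal ∧ N ≤ U ∧ U.index ≤ B}, T U,
    hfin.biUnion hT1, ?_, ?_⟩
  · rw [Set.disjoint_left]
    intro v hv
    simp only [Set.mem_iUnion] at hv
    obtain ⟨U, hU, hvU⟩ := hv
    exact Set.disjoint_left.mp (hT2 U hU) hvU
  · intro U hU1 hU2 hU3 hU4 g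
    obtain ⟨v, hv, s, hs, hsg⟩ := hT3 U ⟨hU1, hU2, hU3, hU4⟩ g
    refine ⟨v, ?_, s, hs, hsg⟩
    simp only [Set.mem_iUnion]
    exact ⟨U, ⟨hU1, hU2, hU3, hU4⟩, hv⟩

end aux

universe u

/-- **The theorem.** -/
theorem certificate {Γ Place : Type*} [Group Γ] [TopologicalSpace Γ] [IsTopologicalGroup Γ]
    [CompactSpace Γ] (frob : Place → Set Γ) (hne : ∀ v, (frob v).Nonempty)
    (hd : DenseIn frob ⊤ Set.univ) (N : Subgroup Γ) [N.Normal]
    (hfin : ∀ B : ℕ,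
      {U : Subgroup Γ | IsOpen (U : Set Γ) ∧ U.Normal ∧ N ≤ U ∧ U.index ≤ B}.Finite)
    (T₁ : Set Place) (hT₁ : T₁.Finite) {E : Type*} [Field E] [NumberField E] {r : ℕ}
    (n : Fin r → ℕ) (P : Fin r → Place → (𝓞 E)[X]) (Q : Place → (𝓞 E)[X]) (i₀ : Fin r)
    (hdet : ∀ v, P i₀ v = X - C ((Q v).coeff 0))
    (B : Place → ℕ) (hB : ∀ v ∉ T₁, 1 ≤ B v)
    (hP : ∀ v ∉ T₁, ∀ i, IsBounded (n i) (B v) (P i v))
    (hQ : ∀ v ∉ T₁, IsBounded 2 (B v) (Q v))
    {p : ℕ} [Fact p.Prime] (e : ℕ)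
    {F₁ : Type*} [Field F₁] [Algebra ℚ_[p] F₁] [FiniteDimensional ℚ_[p] F₁] [TopologicalSpace F₁]
    [IsTopologicalRing F₁] [ContinuousSMul ℚ_[p] F₁] [T2Space F₁]
    (he : Module.finrank ℚ_[p] F₁ ≤ e) (ι₁ : E →+* F₁)
    (V₁ : (i : Fin r) → Γ →* Matrix (Fin (n i)) (Fin (n i)) F₁)
    (ρ₁ : Γ →* Matrix (Fin 2) (Fin 2) F₁) (hR₁ : IsFiniteRealisation frob N T₁ P Q ι₁ V₁ ρ₁)
    {F₀ : Type u} [Field F₀] [IsAlgClosed F₀] [CharZero F₀] [TopologicalSpace F₀]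
    [IsTopologicalRing F₀] [T2Space F₀] (ι₀ : E →+* F₀)
    (V₀ : (i : Fin r) → Γ →* Matrix (Fin (n i)) (Fin (n i)) F₀)
    (ρ₀ : Γ →* Matrix (Fin 2) (Fin 2) F₀)
    (hR₀ : IsRealisation frob (fun i v => (P i v).map (algebraMap (𝓞 E) E))
      (fun v => (Q v).map (algebraMap (𝓞 E) E)) ι₀ V₀ ρ₀) :
    List.TFAE [
      ∃ a b : ℕ, IsSubquotient (fun g => ρ₀ g) (tens (dirSum V₀) a b),
      ∃ Φ : (MvPolynomial (Fin r × ℕ) (𝓞 E))[X],
        (∀ v ∉ T₁, relVal Φ (fun i => P i v) (Q v) = 0) ∧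
        ∃ v ∉ T₁, relNeg Φ (fun i => P i v) (Q v) ≠ 0,
      HasCertificate frob N T₁ n P Q B p e,
      ∀ (F : Type u) [Field F] [IsAlgClosed F] [CharZero F] [TopologicalSpace F]
        [IsTopologicalRing F] [T2Space F] (ι : E →+* F)
        (V : (i : Fin r) → Γ →* Matrix (Fin (n i)) (Fin (n i)) F)
        (ρ : Γ →* Matrix (Fin 2) (Fin 2) F),
        IsRealisation frob (fun i v => (P i v).map (algebraMap (𝓞 E) E))
          (fun v => (Q v).map (algebraMap (𝓞 E) E)) ι V ρ →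
        ∃ a b : ℕ, IsSubquotient (fun g => ρ g) (tens (dirSum V) a b)] := by
  obtain ⟨hVc, hρc, hVk, hρk, hcV, hcρ⟩ := hR₁
  tfae_have 1 → 2 := by
    rintro ⟨a, b, hab⟩
    obtain ⟨Φ, hΦ⟩ := conv (R := 𝓞 E) n a b
    let f₀ : 𝓞 E →+* F₀ := ι₀.comp (algebraMap (𝓞 E) E)
    have hf₀ : Function.Injective f₀ :=
      ι₀.injective.comp (FaithfulSMul.algebraMap_injective (𝓞 E) E)
    let f₁ : 𝓞 E →+* F₁ := ι₁.comp (algebraMap (𝓞 E) E)
    have hf₁ : Function.Injective f₁ :=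
      ι₁.injective.comp (FaithfulSMul.algebraMap_injective (𝓞 E) E)
    obtain ⟨hΦ1, hΦ2⟩ := hΦ f₀
    have h1 := hΦ1 V₀ ρ₀ hab
    obtain ⟨-, -, hV, hρ, -⟩ := id hR₀
    choose TV hTV hTV' using hV
    obtain ⟨Tρ, hTρ, hTρ'⟩ := hρ
    set T₀ : Set Place := (⋃ i, TV i) ∪ Tρ with hT₀
    have hT₀f : T₀.Finite := (Set.finite_iUnion hTV).union hTρ
    have h2 : ∀ v ∉ T₀, relVal Φ (fun i => P i v) (Q v) = 0 := by
      intro v hv
      obtain ⟨s, hs⟩ := hne v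
      apply hf₀
      rw [map_zero, ← h1 s]
      exact (rel_eq_relVal ι₀ Φ V₀ ρ₀ (fun i => P i v) (Q v) s
        (fun i => hTV' i v (fun hh => hv (Or.inl (Set.mem_iUnion.mpr ⟨i, hh⟩))) s hs)
        (hTρ' v (fun hh => hv (Or.inr hh)) s hs)).symm
    let w : Γ → F₁ := fun g => (Φ.map (MvPolynomial.eval₂Hom f₁ fun k =>
      (V₁ k.1 g).charpoly.coeff k.2)).eval ((ρ₁ g).trace)
    have hw : Continuous w := continuous_rel f₁ Φ V₁ hVc (fun g => (ρ₁ g).trace)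
      hρc.matrix_trace
    have hwf : ∀ v ∉ T₁, ∀ s ∈ frob v, w s = f₁ (relVal Φ (fun i => P i v) (Q v)) := by
      intro v hv s hs
      exact rel_eq_relVal ι₁ Φ V₁ ρ₁ (fun i => P i v) (Q v) s
        (fun i => by rw [hcV i v hv s hs, Polynomial.map_map])
        (by rw [hcρ v hv s hs, Polynomial.map_map])
    have hw0 : ∀ g, w g = 0 := by
      intro g
      by_contra hg
      obtain ⟨v, -, hv, s, hs, -, hsO⟩ := hd {g | w g ≠ 0} (T₀ ∪ T₁)
        (isOpen_ne_fun hw continuous_const) ⟨g, hg, Subgroup.mem_top _⟩ (hT₀f.union hT₁)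
      apply hsO
      show w s = 0
      rw [hwf v (fun hh => hv (Or.inr hh)) s hs, h2 v (fun hh => hv (Or.inl hh)), map_zero]
    refine ⟨Φ, ?_, ?_⟩
    · intro v hv
      obtain ⟨s, hs⟩ := hne v
      apply hf₁
      rw [map_zero, ← hwf v hv s hs, hw0 s]
    · -- the sign
      let x : 𝓞 E := (Φ.map (MvPolynomial.eval fun k =>
        ((X - 1 : (𝓞 E)[X]) ^ n k.1).coeff k.2)).eval (-2)
      have hx : x ≠ 0 := by
        intro h0
        apply hΦ2 inferInstance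
        have h3 := map_relVal f₀ Φ (fun k => ((X - 1 : (𝓞 E)[X]) ^ n k.1).coeff k.2) (-2)
        have h4 : (fun k : Fin r × ℕ => f₀ (((X - 1 : (𝓞 E)[X]) ^ n k.1).coeff k.2)) =
            fun k => ((X - 1 : F₀[X]) ^ n k.1).coeff k.2 := by
          ext k
          rw [← Polynomial.coeff_map]
          simp
        rw [h4, map_neg f₀, map_ofNat f₀] at h3
        rw [← h3]
        show f₀ x = 0
        rw [h0, map_zero]
      let w' : Γ → F₁ := fun g => (Φ.map (MvPolynomial.eval₂Hom f₁ fun k =>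
        (V₁ k.1 g).charpoly.coeff k.2)).eval (-(ρ₁ g).trace)
      have hw' : Continuous w' := continuous_rel f₁ Φ V₁ hVc (fun g => -(ρ₁ g).trace)
        hρc.matrix_trace.neg
      have hw'1 : w' 1 ≠ 0 := by
        have h3 := map_relVal f₁ Φ (fun k => ((X - 1 : (𝓞 E)[X]) ^ n k.1).coeff k.2) (-2)
        have h4 : (fun k : Fin r × ℕ => (V₁ k.1 1).charpoly.coeff k.2) =
            fun k => f₁ (((X - 1 : (𝓞 E)[X]) ^ n k.1).coeff k.2) := by
          ext k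
          rw [map_one, Matrix.charpoly_one, Fintype.card_fin, ← Polynomial.coeff_map]
          simp
        have h5 : (ρ₁ 1).trace = 2 := by
          rw [map_one, Matrix.trace_one]
          simp
        have h6 : w' 1 = f₁ x := by
          show (Φ.map (MvPolynomial.eval₂Hom f₁ fun k =>
            (V₁ k.1 1).charpoly.coeff k.2)).eval (-(ρ₁ 1).trace) = _
          rw [h4, h5]
          rw [map_neg f₁, map_ofNat f₁] at h3
          exact h3.symm
        rw [h6]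
        exact fun h0 => hx (hf₁ (by rw [h0, map_zero]))
      obtain ⟨v, -, hv, s, hs, -, hsO⟩ := hd {g | w' g ≠ 0} T₁
        (isOpen_ne_fun hw' continuous_const) ⟨1, hw'1, Subgroup.mem_top _⟩ hT₁
      refine ⟨v, hv, fun h0 => hsO ?_⟩
      show w' s = 0
      have h3 : w' s = f₁ (relNeg Φ (fun i => P i v) (Q v)) :=
        rel_eq_relNeg ι₁ Φ V₁ ρ₁ (fun i => P i v) (Q v) s
          (fun i => by rw [hcV i v hv s hs, Polynomial.map_map])
          (by rw [hcρ v hv s hs, Polynomial.map_map])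
      rw [h3, h0, map_zero]
  tfae_have 2 → 3 := by
    rintro ⟨Φ, hΦ, v₀, hv₀, hne₀⟩
    obtain ⟨D, hD⟩ := exists_weight n Φ
    obtain ⟨H, hH⟩ := exists_height Φ
    obtain ⟨T, hT, hTT, hTm⟩ := exists_meets frob N (p ^ (e * ((∑ i, n i) + 3) ^ (2 * D))) T₁ hT₁
      hd (hfin _)
    refine ⟨D, H, Φ, T, v₀, hD, hH, hT, hTT, hTm, ?_, hv₀, hne₀⟩
    intro v hv
    set M : ℕ := (H * (((∑ i, n i) + 2) * B v) ^ D) ^ Module.finrank ℚ E with hM
    refine ⟨Ideal.span {((M + 1 : ℕ) : 𝓞 E)}, ?_, ?_⟩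
    · rw [Ideal.absNorm_span_natCast]
      have h1 : 0 < Module.finrank ℤ (𝓞 E) := by
        rw [RingOfIntegers.rank]
        exact Module.finrank_pos
      calc M < M + 1 := Nat.lt_succ_self M
        _ ≤ (M + 1) ^ Module.finrank ℤ (𝓞 E) := Nat.le_self_pow h1.ne' _
    · rw [hΦ v (Set.disjoint_left.mp hTT hv)]
      exact Ideal.zero_mem _
  tfae_have 3 → 4 := by
    rintro ⟨D, H, Φ, T, v₀, hD, hH, hT, hTT, hTm, hI, hv₀, hne₀⟩ F _ _ _ _ _ _ ι V ρ hR
    refine congruence_criterion frob hd N e D T hTm P Q i₀ hdet B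
      (fun v hv => hB v (Set.disjoint_left.mp hTT hv))
      (fun v hv => hP v (Set.disjoint_left.mp hTT hv))
      (fun v hv => hQ v (Set.disjoint_left.mp hTT hv)) Φ H hD hH he ι₁ V₁ ρ₁ hVc hρc hVk hρk T₁
      hT₁ hTT hcV hcρ ?_ v₀ hv₀ (hne v₀) hne₀ ι V ρ hR
    intro v hv
    obtain ⟨I, hI1, hI2⟩ := hI v hv
    exact ⟨I, Or.inl hI1, hI2⟩
  tfae_have 4 → 1 := fun h => h F₀ ι₀ V₀ ρ₀ hR₀
  tfae_finish

end Pool.Agent.DS
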