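import Mathlib
import Pool.Agent.helper46.DS.Cert

/-!
# MP_2e0e07_nt (DS): Faltings's finiteness lemma

The Frobenius polynomials of a `p`-adic representation unramified outside a fixed set are
determined by those at finitely many places.
-/

set_option autoImplicit false

namespace Pool.Agent.DS

open Polynomial NumberField Matrix Pool.Agent.GO Pool.Agent.AR Pool.Agent.RG

/-- the direct sum of two representations -/
def blk {Γ F m m' : Type*} [Group Γ] [CommRing F] [Fintype m] [DecidableEq m] [Fintype m']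
    [DecidableEq m'] (V : Γ →* Matrix m m F) (W : Γ →* Matrix m' m' F) :
    Γ →* Matrix (m ⊕ m') (m ⊕ m') F where
  toFun g := Matrix.fromBlocks (V g) 0 0 (W g)
  map_one' := by rw [map_one, map_one, Matrix.fromBlocks_one]
  map_mul' g h := by rw [map_mul, map_mul, Matrix.fromBlocks_multiply]; simp

theorem charpoly_blk_poly {F m κ : Type*} [Field F] [Fintype m] [DecidableEq m] (j : m → κ)
    (k : ℕ) : ∃ G : MvPolynomial (κ × κ) F, G.totalDegree ≤ Fintype.card m ∧
      ∀ M : κ × κ → F, MvPolynomial.eval M G =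
        (Matrix.of fun a b => M (j a, j b)).charpoly.coeff k := by
  refine ⟨MvPolynomial.rename (fun q : m × m => (j q.1, j q.2))
    ((Matrix.charpoly.univ F m).coeff k), ?_, ?_⟩
  · refine (MvPolynomial.totalDegree_rename_le _ _).trans ?_
    by_cases h : k ≤ Fintype.card m
    · refine (Matrix.charpoly.univ_coeff_isHomogeneous F m k (Fintype.card m - k) (by
        omega)).totalDegree_le.trans (by omega)
    · rw [Polynomial.coeff_eq_zero_of_natDegree_lt (by
        rw [Matrix.charpoly.univ_natDegree]; omega)]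
      simp
  · intro M
    rw [MvPolynomial.eval_rename]
    have h1 := Matrix.charpoly.univ_coeff_eval₂Hom m (RingHom.id F)
      (M ∘ fun q : m × m => (j q.1, j q.2)) k
    have h2 : (Matrix.of (Function.curry (M ∘ fun q : m × m => (j q.1, j q.2)))) =
        Matrix.of fun a b => M (j a, j b) := rfl
    rw [h2] at h1
    rw [← h1]
    rfl

theorem Meets.mono {Γ Place : Type*} [Group Γ] [TopologicalSpace Γ] {frob : Place → Set Γ}
    {N : Subgroup Γ} {B B' : ℕ} (hB : B' ≤ B) {T : Set Place} (h : Meets frob N B T) :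
    Meets frob N B' T :=
  fun U h1 h2 h3 h4 => h U h1 h2 h3 (h4.trans hB)

/-- **Faltings's lemma.** -/
theorem eq_of_eqOn {p : ℕ} [Fact p.Prime] {Γ Place : Type*} [Group Γ] [TopologicalSpace Γ]
    [IsTopologicalGroup Γ] [CompactSpace Γ] (frob : Place → Set Γ) (hne : ∀ v, (frob v).Nonempty)
    (N : Subgroup Γ) [N.Normal] (m e : ℕ)
    {F₁ : Type*} [Field F₁] [Algebra ℚ_[p] F₁] [FiniteDimensional ℚ_[p] F₁] [TopologicalSpace F₁]
    [IsTopologicalRing F₁] [ContinuousSMul ℚ_[p] F₁] [T2Space F₁]
    (he : Module.finrank ℚ_[p] F₁ ≤ e) (T : Set Place)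
    (hT : Meets frob N (p ^ (e * (m + m + 1) ^ (2 * m))) T)
    {E : Type*} [Field E] (ι₁ : E →+* F₁) (T₁ : Set Place) (hTT : Disjoint T T₁)
    (P P' : Place → E[X]) (V V' : Γ →* Matrix (Fin m) (Fin m) F₁) (hV : Continuous V)
    (hV' : Continuous V') (hN : N ≤ V.ker) (hN' : N ≤ V'.ker)
    (hc : ∀ v ∉ T₁, ∀ s ∈ frob v, (V s).charpoly = (P v).map ι₁)
    (hc' : ∀ v ∉ T₁, ∀ s ∈ frob v, (V' s).charpoly = (P' v).map ι₁)
    (h : ∀ v ∈ T, P v = P' v) : ∀ v ∉ T₁, P v = P' v := by
  classical
  have key : ∀ (k : ℕ) (g : Γ), (V g).charpoly.coeff k = (V' g).charpoly.coeff k := by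
    intro k g
    obtain ⟨G, hG1, hG2⟩ := charpoly_blk_poly (F := F₁) (m := Fin m) (κ := Fin m ⊕ Fin m)
      Sum.inl k
    obtain ⟨G', hG1', hG2'⟩ := charpoly_blk_poly (F := F₁) (m := Fin m) (κ := Fin m ⊕ Fin m)
      Sum.inr k
    rw [Fintype.card_fin] at hG1 hG1'
    have e1 : ∀ g, MvPolynomial.eval (fun q => blk V V' g q.1 q.2) (G - G') =
        (V g).charpoly.coeff k - (V' g).charpoly.coeff k := by
      intro g
      rw [map_sub, hG2, hG2']
      rfl
    have h1 := criterion_poly_mod he N (blk V V')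
      (by
        apply continuous_matrix
        intro a b
        show Continuous fun g => Matrix.fromBlocks (V g) 0 0 (V' g) a b
        rcases a with a | a <;> rcases b with b | b
        · exact hV.matrix_elem a b
        · exact continuous_const
        · exact continuous_const
        · exact hV'.matrix_elem a b)
      (by
        intro g hg
        rw [MonoidHom.mem_ker]
        show Matrix.fromBlocks (V g) 0 0 (V' g) = 1
        rw [(MonoidHom.mem_ker).mp (hN hg), (MonoidHom.mem_ker).mp (hN' hg),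
          Matrix.fromBlocks_one])
      (G - G') ((MvPolynomial.totalDegree_sub _ _).trans (max_le hG1 hG1')) (⋃ v ∈ T, frob v)
      (by
        intro U hU1 hU2 hU3 hU4 g
        rw [Fintype.card_sum, Fintype.card_fin] at hU4
        obtain ⟨v, hv, s, hs, hsg⟩ := hT U hU1 hU2 hU3 hU4 g
        refine ⟨s, ?_, hsg⟩
        simp only [Set.mem_iUnion]
        exact ⟨v, hv, hs⟩)
      (by
        intro s hs
        simp only [Set.mem_iUnion] at hs
        obtain ⟨v, hv, hs⟩ := hs
        have hv1 : v ∉ T₁ := Set.disjoint_left.mp hTT hv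
        rw [e1, hc v hv1 s hs, hc' v hv1 s hs, h v hv, sub_self]) g
    rw [e1] at h1
    exact sub_eq_zero.mp h1
  intro v hv
  obtain ⟨s, hs⟩ := hne v
  apply Polynomial.map_injective ι₁ ι₁.injective
  rw [← hc v hv s hs, ← hc' v hv s hs]
  ext k
  exact key k s

end Pool.Agent.DS
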