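import Mathlib
import Pool.Agent.helper46.DS.Falt
import Pool.Agent.helper91.HZ.Spec
import Pool.Agent.helper41.HZ.FWD

/-!
# MP_2e0e07_nt (DS): the dichotomy for bounded families
-/

set_option autoImplicit false

namespace Pool.Agent.DS

open Polynomial NumberField Matrix MeasureTheory Pool.Agent.GO Pool.Agent.AR Pool.Agent.RG
open Pool.Agent.HZ

universe u v

/-- Reductions modulo the primes `p j` of the systems `P j i` (which may depend on `j`) and `Q`: as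
`IsResidual`. -/
structure IsResidualFamily {Γ Place E : Type*} [Group Γ] [TopologicalSpace Γ] [Field E]
    (frob : Place → Set Γ) {r : ℕ} {n : Fin r → ℕ} {J : Type} (P : J → Fin r → Place → E[X])
    (Q : Place → E[X]) (p : J → ℕ) (κ : J → Type) [∀ j, Field (κ j)] [∀ j, CharP (κ j) (p j)]
    (φ : ∀ j, 𝓞 E →+* κ j)
    (V : ∀ j, (i : Fin r) → Γ →* Matrix (Fin (n i)) (Fin (n i)) (ZMod (p j)))
    (ρ : ∀ j, Γ →* Matrix (Fin 2) (Fin 2) (κ j)) : Prop where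
  prime : ∀ j, (p j).Prime
  tends : ∀ m : ℕ, {j | p j ≤ m}.Finite
  openV : ∀ j i, IsOpen ((V j i).ker : Set Γ)
  openρ : ∀ j, IsOpen ((ρ j).ker : Set Γ)
  comp : ∃ (T₀ : Set Place) (T : J → Set Place), T₀.Finite ∧ (∀ j, (T j).Finite) ∧
    (∀ v ∉ T₀, {j | v ∈ T j}.Finite) ∧ ∀ j, ∀ v ∉ T j, ∀ s ∈ frob v,
      (∀ i k, Red (φ j) ((P j i v).coeff k)
        (ZMod.castHom (dvd_refl (p j)) (κ j) ((V j i s).charpoly.coeff k))) ∧
      ∀ k, Red (φ j) ((Q v).coeff k) ((ρ j s).charpoly.coeff k)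
  irr : ∀ j, Irred (fun g => ρ j g)
  ord : ∀ j, ∃ g, orderOf (ρ j g) = p j

/-- On an open subgroup `ad⁰ ρ` is a subquotient of a tensor construction of `V`. -/
def AdArises {Γ F : Type*} [Group Γ] [TopologicalSpace Γ] [Field F] {r : ℕ} {n : Fin r → ℕ}
    (V : (i : Fin r) → Γ →* Matrix (Fin (n i)) (Fin (n i)) F)
    (ρ : Γ →* Matrix (Fin 2) (Fin 2) F) : Prop :=
  ∃ (U : Subgroup Γ) (a b : ℕ), IsOpen (U : Set Γ) ∧ AdSubquotient U ρ (tens (dirSum V) a b)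

/-- For every realisation, on an open subgroup `ad⁰ ρ` is a subquotient of a tensor construction of
`V`; and if the system has a good set of places (`f` of weight two, or ordinary at enough places)
then `ρ` is a subquotient of some `V i ⊗ F[Fin N]`. -/
def AllArise {Γ Place E : Type*} [Group Γ] [TopologicalSpace Γ] [MeasurableSpace Γ] [Field E]
    (μ : Measure Γ) (frob : Place → Set Γ) {r : ℕ} (n : Fin r → ℕ) (P : Fin r → Place → E[X])
    (Q : Place → E[X]) : Prop :=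
  ∀ (F : Type v) [Field F] [IsAlgClosed F] [CharZero F] [TopologicalSpace F]
    [IsTopologicalRing F] [T2Space F] (ι : E →+* F)
    (V : (i : Fin r) → Γ →* Matrix (Fin (n i)) (Fin (n i)) F)
    (ρ : Γ →* Matrix (Fin 2) (Fin 2) F), IsRealisation frob P Q ι V ρ →
    AdArises V ρ ∧ ∀ (q : Place → ℕ) (s : ℕ) (w : Fin r → ℕ) (O : Set Place),
      IsGoodSet μ frob n P Q q s w O → Arises V ρ

/-- For no realisation. -/
def NoneArises {Γ Place E : Type*} [Group Γ] [TopologicalSpace Γ] [MeasurableSpace Γ] [Field E]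
    (μ : Measure Γ) (frob : Place → Set Γ) {r : ℕ} (n : Fin r → ℕ) (P : Fin r → Place → E[X])
    (Q : Place → E[X]) : Prop :=
  ∀ (F : Type v) [Field F] [IsAlgClosed F] [CharZero F] [TopologicalSpace F]
    [IsTopologicalRing F] [T2Space F] (ι : E →+* F)
    (V : (i : Fin r) → Γ →* Matrix (Fin (n i)) (Fin (n i)) F)
    (ρ : Γ →* Matrix (Fin 2) (Fin 2) F), IsRealisation frob P Q ι V ρ →
    ¬ AdArises V ρ ∧ ∀ (q : Place → ℕ) (s : ℕ) (w : Fin r → ℕ) (O : Set Place),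
      IsGoodSet μ frob n P Q q s w O → ¬ Arises V ρ

/-- realisations depend only on the system outside a finite set -/
theorem realisation_congr {Γ Place E F : Type*} [Group Γ] [TopologicalSpace Γ] [Field E] [Field F]
    [TopologicalSpace F] (frob : Place → Set Γ) {r : ℕ} {n : Fin r → ℕ}
    (P P' : Fin r → Place → E[X]) (Q : Place → E[X]) (T₁ : Set Place) (hT₁ : T₁.Finite)
    (h : ∀ v ∉ T₁, ∀ i, P i v = P' i v) (ι : E →+* F)
    (V : (i : Fin r) → Γ →* Matrix (Fin (n i)) (Fin (n i)) F)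
    (ρ : Γ →* Matrix (Fin 2) (Fin 2) F) (hR : IsRealisation frob P Q ι V ρ) :
    IsRealisation frob P' Q ι V ρ := by
  refine ⟨hR.contV, hR.cont, fun i => ?_, hR.comp, hR.irr⟩
  obtain ⟨T, hT, hc⟩ := hR.compV i
  refine ⟨T ∪ T₁, hT.union hT₁, fun v hv s hs => ?_⟩
  rw [hc v (fun hh => hv (Or.inl hh)) s hs, h v (fun hh => hv (Or.inr hh)) i]

section

variable {Γ : Type} {Place : Type u} {E : Type} [Group Γ] [TopologicalSpace Γ]
  [IsTopologicalGroup Γ] [CompactSpace Γ] [MeasurableSpace Γ] [BorelSpace Γ]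
  (μ : Measure Γ) [μ.IsHaarMeasure] (frob : Place → Set Γ) [Field E] [NumberField E]
  {r : ℕ} {n : Fin r → ℕ} {J : Type}

/-- The dichotomy for the `j` with the same system. -/
theorem gap_class (hF : FWD_stmt.{u}) (hB : BWD_stmt.{u, v}) (hd : DenseIn frob ⊤ Set.univ)
    (P : J → Fin r → Place → E[X]) (Q : Place → E[X]) (i₀ : Fin r)
    (hdet : ∀ j v, P j i₀ v = X - C ((Q v).coeff 0)) (T₁ : Set Place) (hT₁ : T₁.Finite)
    (p : J → ℕ) (κ : J → Type) [∀ j, Field (κ j)] [∀ j, IsAlgClosed (κ j)]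
    [∀ j, CharP (κ j) (p j)] (φ : ∀ j, 𝓞 E →+* κ j)
    (V : ∀ j, (i : Fin r) → Γ →* Matrix (Fin (n i)) (Fin (n i)) (ZMod (p j)))
    (ρ : ∀ j, Γ →* Matrix (Fin 2) (Fin 2) (κ j)) (hres : IsResidualFamily frob P Q p κ φ V ρ)
    (j₀ : J)
    {F : Type v} [Field F] [IsAlgClosed F] [CharZero F] [TopologicalSpace F]
    [IsTopologicalRing F] [T2Space F] (ι : E →+* F)
    (V₀ : (i : Fin r) → Γ →* Matrix (Fin (n i)) (Fin (n i)) F)
    (ρ₀ : Γ →* Matrix (Fin 2) (Fin 2) F) (hR₀ : IsRealisation frob (P j₀) Q ι V₀ ρ₀) :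
    ∃ c B : ℕ, ∀ j, (∀ v ∉ T₁, ∀ i, P j i v = P j₀ i v) →
      (adDegree (V j) (ρ j) ≤ B ∧ AllArise.{v} μ frob n (P j) Q) ∨
        (p j ≤ c * adDegree (V j) (ρ j) ∧ NoneArises.{v} μ frob n (P j) Q) := by
  classical
  let Jx : Type := {j : J // ∀ v ∉ T₁, ∀ i, P j i v = P j₀ i v}
  obtain ⟨h1, h2, h3, h4, ⟨T₀, T, hT₀, hT, hT', hcomp⟩, h6, h7⟩ := hres
  have hres' : IsResidual frob (P j₀) Q (fun j : Jx => p j.1) (fun j : Jx => κ j.1)
      (fun j : Jx => φ j.1) (fun j : Jx => V j.1) (fun j : Jx => ρ j.1) := by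
    refine ⟨fun j => h1 j.1, fun m => ?_, fun j i => h3 j.1 i, fun j => h4 j.1, ?_,
      fun j => h6 j.1, fun j => h7 j.1⟩
    · exact (h2 m).preimage Subtype.val_injective.injOn
    · refine ⟨T₀ ∪ T₁, fun j => T j.1 ∪ T₁, hT₀.union hT₁, fun j => (hT j.1).union hT₁, ?_, ?_⟩
      · intro v hv
        refine ((hT' v (fun hh => hv (Or.inl hh))).preimage
          (Subtype.val_injective (p := fun j : J => ∀ v ∉ T₁, ∀ i,
            P j i v = P j₀ i v)).injOn).subset ?_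
        intro j hj
        exact hj.resolve_right (fun hh => hv (Or.inr hh))
      · intro j v hv s hs
        obtain ⟨a1, a2⟩ := hcomp j.1 v (fun hh => hv (Or.inl hh)) s hs
        refine ⟨fun i k => ?_, a2⟩
        rw [← j.2 v (fun hh => hv (Or.inr hh)) i]
        exact a1 i k
  by_cases hrel : ∃ (S : Set Place) (Φ : (MvPolynomial (Fin r × ℕ) E)[X]), NonNegl μ frob S ∧
      IsRelation (P j₀) Q S Φ
  · -- geometric
    obtain ⟨U, a, b, hU, hab⟩ := (ar1 μ frob hd (P j₀) Q i₀ (hdet j₀) ι V₀ ρ₀ hR₀).1 hrel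
    obtain ⟨B, hBB⟩ := hB frob hd (P j₀) Q ι V₀ ρ₀ hR₀.compV hR₀.comp U a b hU hab
      (fun j : Jx => p j.1) (fun j : Jx => κ j.1) (fun j : Jx => φ j.1)
      (fun j : Jx => V j.1) (fun j : Jx => ρ j.1) hres'
    refine ⟨0, B, fun j hj => Or.inl ⟨hBB ⟨j, hj⟩, ?_⟩⟩
    intro F' _ _ _ _ _ _ ι' V' ρ' hR'
    have hA := (ar1 μ frob hd (P j₀) Q i₀ (hdet j₀) ι' V' ρ'
      (realisation_congr frob (P j) (P j₀) Q T₁ hT₁ hj ι' V' ρ' hR')).1 hrel
    exact ⟨hA, fun q s w O hO => (clause1 μ frob (P j) Q q s w O hO ι' V' ρ' hR').1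
      ((ar1 μ frob hd (P j) Q i₀ (hdet j) ι' V' ρ' hR').2 hA)⟩
  · have hc : ∃ c : ℕ, ∀ j : Jx, p j.1 ≤ c * adDegree (V j.1) (ρ j.1) := by
      by_contra hcon
      push Not at hcon
      apply hrel
      refine hF μ frob hd (P j₀) Q i₀ (hdet j₀) (fun j : Jx => p j.1) (fun j : Jx => κ j.1)
        (fun j : Jx => φ j.1) (fun j : Jx => V j.1) (fun j : Jx => ρ j.1) hres' ?_
      intro c hfin
      let c' : ℕ := c + ∑ j ∈ hfin.toFinset, p j.1
      obtain ⟨j, hj⟩ := hcon c'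
      have hd0 : adDegree (V j.1) (ρ j.1) ≠ 0 := FWD_deg (V j.1) (ρ j.1) (h4 j.1)
      have hjm : j ∈ hfin.toFinset := by
        rw [Set.Finite.mem_toFinset]
        show c * adDegree (V j.1) (ρ j.1) < p j.1
        refine lt_of_le_of_lt ?_ hj
        exact Nat.mul_le_mul_right _ (Nat.le_add_right _ _)
      have hle : p j.1 ≤ c' := by
        refine (Finset.single_le_sum (f := fun j : Jx => p j.1) (fun _ _ => Nat.zero_le _)
          hjm).trans ?_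
        exact Nat.le_add_left _ _
      have h5 : c' ≤ c' * adDegree (V j.1) (ρ j.1) :=
        Nat.le_mul_of_pos_right _ (Nat.pos_of_ne_zero hd0)
      omega
    obtain ⟨c, hc⟩ := hc
    refine ⟨c, 0, fun j hj => Or.inr ⟨hc ⟨j, hj⟩, ?_⟩⟩
    intro F' _ _ _ _ _ _ ι' V' ρ' hR'
    have hno : ¬ AdArises V' ρ' := fun hA => hrel ((ar1 μ frob hd (P j₀) Q i₀ (hdet j₀) ι' V' ρ'
      (realisation_congr frob (P j) (P j₀) Q T₁ hT₁ hj ι' V' ρ' hR')).2 hA)
    exact ⟨hno, fun q s w O hO hA => hno ((ar1 μ frob hd (P j) Q i₀ (hdet j) ι' V' ρ' hR').1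
      ((clause1 μ frob (P j) Q q s w O hO ι' V' ρ' hR').2 hA))⟩

/-- **The dichotomy for a bounded family.** -/
theorem gap (hF : FWD_stmt.{u}) (hB : BWD_stmt.{u, v}) (hne : ∀ v, (frob v).Nonempty)
    (hd : DenseIn frob ⊤ Set.univ) (N : Subgroup Γ) [N.Normal]
    (hfin : ∀ B : ℕ,
      {U : Subgroup Γ | IsOpen (U : Set Γ) ∧ U.Normal ∧ N ≤ U ∧ U.index ≤ B}.Finite)
    (P : J → Fin r → Place → E[X]) (Q : Place → E[X]) (i₀ : Fin r)
    (hdet : ∀ j v, P j i₀ v = X - C ((Q v).coeff 0)) (T₁ : Set Place) (hT₁ : T₁.Finite)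
    (hbd : ∀ v ∉ T₁, ∀ i, (Set.range fun j => P j i v).Finite)
    {p₀ : ℕ} [Fact p₀.Prime] {F₁ : Type*} [Field F₁] [Algebra ℚ_[p₀] F₁]
    [FiniteDimensional ℚ_[p₀] F₁] [TopologicalSpace F₁]
    [IsTopologicalRing F₁] [ContinuousSMul ℚ_[p₀] F₁] [T2Space F₁] (ι₁ : E →+* F₁)
    (V₁ : J → (i : Fin r) → Γ →* Matrix (Fin (n i)) (Fin (n i)) F₁)
    (hV₁ : ∀ j i, Continuous (V₁ j i)) (hN₁ : ∀ j i, N ≤ (V₁ j i).ker)
    (hc₁ : ∀ j i, ∀ v ∉ T₁, ∀ s ∈ frob v, (V₁ j i s).charpoly = (P j i v).map ι₁)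
    (p : J → ℕ) (κ : J → Type) [∀ j, Field (κ j)] [∀ j, IsAlgClosed (κ j)]
    [∀ j, CharP (κ j) (p j)] (φ : ∀ j, 𝓞 E →+* κ j)
    (V : ∀ j, (i : Fin r) → Γ →* Matrix (Fin (n i)) (Fin (n i)) (ZMod (p j)))
    (ρ : ∀ j, Γ →* Matrix (Fin 2) (Fin 2) (κ j)) (hres : IsResidualFamily frob P Q p κ φ V ρ)
    {F : Type v} [Field F] [IsAlgClosed F] [CharZero F] [TopologicalSpace F]
    [IsTopologicalRing F] [T2Space F] (ι : E →+* F)
    (V₀ : J → (i : Fin r) → Γ →* Matrix (Fin (n i)) (Fin (n i)) F)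
    (ρ₀ : Γ →* Matrix (Fin 2) (Fin 2) F) (hR₀ : ∀ j, IsRealisation frob (P j) Q ι (V₀ j) ρ₀) :
    ∃ c B : ℕ, ∀ j,
      (adDegree (V j) (ρ j) ≤ B ∧ AllArise.{v} μ frob n (P j) Q) ∨
        (p j ≤ c * adDegree (V j) (ρ j) ∧ NoneArises.{v} μ frob n (P j) Q) := by
  classical
  set e := Module.finrank ℚ_[p₀] F₁ with he
  obtain ⟨T, hT, hTT, hTm⟩ := exists_meets frob N
    (∑ i, p₀ ^ (e * (n i + n i + 1) ^ (2 * n i))) T₁ hT₁ hd (hfin _)
  have _ : Finite T := hT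
  let cls : J → (T → Fin r → E[X]) := fun j v i => P j i v.1
  have hfincls : (Set.range cls).Finite := by
    refine Set.Finite.subset (Set.Finite.pi' (t := fun v : T => {f : Fin r → E[X] |
      ∀ i, f i ∈ Set.range fun j => P j i v.1}) fun v => ?_) ?_
    · exact Set.Finite.pi' fun i => hbd v.1 (Set.disjoint_left.mp hTT v.2) i
    · rintro _ ⟨j, rfl⟩ v i
      exact ⟨j, rfl⟩
  have hcls : ∀ j j', cls j = cls j' → ∀ v ∉ T₁, ∀ i, P j i v = P j' i v := by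
    intro j j' h v hv i
    refine eq_of_eqOn frob hne N (n i) e he.ge T (hTm.mono ?_) ι₁ T₁ hTT (P j i) (P j' i)
      (V₁ j i) (V₁ j' i) (hV₁ j i) (hV₁ j' i) (hN₁ j i) (hN₁ j' i) (hc₁ j i) (hc₁ j' i) ?_ v hv
    · exact Finset.single_le_sum (f := fun i => p₀ ^ (e * (n i + n i + 1) ^ (2 * n i)))
        (fun _ _ => Nat.zero_le _) (Finset.mem_univ i)
    · intro w hw
      exact congrFun (congrFun h ⟨w, hw⟩) i
  have hall : ∀ x ∈ Set.range cls, ∃ c B : ℕ, ∀ j, cls j = x →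
      (adDegree (V j) (ρ j) ≤ B ∧ AllArise.{v} μ frob n (P j) Q) ∨
        (p j ≤ c * adDegree (V j) (ρ j) ∧ NoneArises.{v} μ frob n (P j) Q) := by
    rintro _ ⟨j₀, rfl⟩
    obtain ⟨c, B, h⟩ := gap_class μ frob hF hB hd P Q i₀ hdet T₁ hT₁ p κ φ V ρ hres j₀ ι (V₀ j₀) ρ₀
      (hR₀ j₀)
    exact ⟨c, B, fun j hj => h j (hcls j j₀ hj)⟩
  choose! c B hcB using hall
  refine ⟨∑ x ∈ hfincls.toFinset, c x, ∑ x ∈ hfincls.toFinset, B x, fun j => ?_⟩
  have hx : cls j ∈ hfincls.toFinset := by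
    rw [Set.Finite.mem_toFinset]
    exact ⟨j, rfl⟩
  have hc : c (cls j) ≤ ∑ x ∈ hfincls.toFinset, c x :=
    Finset.single_le_sum (f := c) (fun _ _ => Nat.zero_le _) hx
  have hBle : B (cls j) ≤ ∑ x ∈ hfincls.toFinset, B x :=
    Finset.single_le_sum (f := B) (fun _ _ => Nat.zero_le _) hx
  rcases hcB (cls j) ⟨j, rfl⟩ j rfl with ⟨h1, h2⟩ | ⟨h1, h2⟩
  · exact Or.inl ⟨h1.trans hBle, h2⟩
  · exact Or.inr ⟨h1.trans (Nat.mul_le_mul_right _ hc), h2⟩

end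

end Pool.Agent.DS
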