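import Mathlib
import Pool.Agent.helper46.DS.Gap

/-!
# MP_2e0e07_nt (DS): the dichotomy, uniform in the variety and in the prime
-/

set_option autoImplicit false

namespace Pool.Agent.DS

open Polynomial NumberField Matrix MeasureTheory Pool.Agent.GO Pool.Agent.AR Pool.Agent.RG
open Pool.Agent.HZ

universe u v

/-- Reductions modulo primes `p j` (the same prime may occur for infinitely many `j`) of the systems
`P j i` (which may depend on `j`) and `Q`: `φ j` is a place of the number field `E`, the `V j i` are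
representations over the field with `p j` elements, `ρ j` is an irreducible representation of
dimension two over the field `κ j` of characteristic `p j`, with open kernels, whose characteristic
polynomials at the Frobenius elements `s` at a place `v` outside a finite set `T j` are the
reductions of `P j i v` and `Q v`; a place outside `T₀` is in `T j` only for `j` with `p j` bounded;
`p j` is the order of an element of the image of `ρ j`, and the images of the `ρ j` with `p j` bounded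
have bounded orders. -/
structure IsResidualFam {Γ Place E : Type*} [Group Γ] [TopologicalSpace Γ] [Field E]
    (frob : Place → Set Γ) {r : ℕ} {n : Fin r → ℕ} {J : Type} (P : J → Fin r → Place → E[X])
    (Q : Place → E[X]) (p : J → ℕ) (κ : J → Type) [∀ j, Field (κ j)] [∀ j, CharP (κ j) (p j)]
    (φ : ∀ j, 𝓞 E →+* κ j)
    (V : ∀ j, (i : Fin r) → Γ →* Matrix (Fin (n i)) (Fin (n i)) (ZMod (p j)))
    (ρ : ∀ j, Γ →* Matrix (Fin 2) (Fin 2) (κ j)) : Prop where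
  prime : ∀ j, (p j).Prime
  bounded : ∀ m : ℕ, ∃ B : ℕ, ∀ j, p j ≤ m → (ρ j).ker.index ≤ B
  openV : ∀ j i, IsOpen ((V j i).ker : Set Γ)
  openρ : ∀ j, IsOpen ((ρ j).ker : Set Γ)
  comp : ∃ (T₀ : Set Place) (T : J → Set Place), T₀.Finite ∧ (∀ j, (T j).Finite) ∧
    (∀ v ∉ T₀, ∃ m : ℕ, ∀ j, v ∈ T j → p j ≤ m) ∧ ∀ j, ∀ v ∉ T j, ∀ s ∈ frob v,
      (∀ i k, Red (φ j) ((P j i v).coeff k)
        (ZMod.castHom (dvd_refl (p j)) (κ j) ((V j i s).charpoly.coeff k))) ∧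
      ∀ k, Red (φ j) ((Q v).coeff k) ((ρ j s).charpoly.coeff k)
  irr : ∀ j, Irred (fun g => ρ j g)
  ord : ∀ j, ∃ g, orderOf (ρ j g) = p j

theorem exists_seq {J : Type} (p : J → ℕ) (R : ℕ → J → Prop)
    (hmono : ∀ k l j, k ≤ l → R l j → R k j) (hR : ∀ k, ∃ j, R k j)
    (hbig : ∀ m, ∃ k, ∀ j, R k j → m < p j) :
    ∃ s : ℕ → J, StrictMono (fun k => p (s k)) ∧ ∀ k, R k (s k) := by
  choose s hs using hR
  have ht : Filter.Tendsto (fun k => p (s k)) Filter.atTop Filter.atTop := by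
    rw [Filter.tendsto_atTop_atTop]
    intro m
    obtain ⟨k, hk⟩ := hbig m
    exact ⟨k, fun l hl => (hk (s l) (hmono k l (s l) hl (hs l))).le⟩
  obtain ⟨ψ, h1, h2⟩ := Filter.strictMono_subseq_of_tendsto_atTop ht
  exact ⟨fun k => s (ψ k), h2, fun k => hmono k (ψ k) _ (h1.id_le k) (hs (ψ k))⟩

theorem IsResidualFam.restrict {Γ Place E : Type*} [Group Γ] [TopologicalSpace Γ] [Field E]
    {frob : Place → Set Γ} {r : ℕ} {n : Fin r → ℕ} {J : Type} {P : J → Fin r → Place → E[X]}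
    {Q : Place → E[X]} {p : J → ℕ} {κ : J → Type} [∀ j, Field (κ j)] [∀ j, CharP (κ j) (p j)]
    {φ : ∀ j, 𝓞 E →+* κ j}
    {V : ∀ j, (i : Fin r) → Γ →* Matrix (Fin (n i)) (Fin (n i)) (ZMod (p j))}
    {ρ : ∀ j, Γ →* Matrix (Fin 2) (Fin 2) (κ j)} (h : IsResidualFam frob P Q p κ φ V ρ)
    (T₁ : Set Place) (hT₁ : T₁.Finite) (j₀ : J) (s : ℕ → J) (hs : StrictMono fun k => p (s k))
    (hcl : ∀ k, ∀ v ∉ T₁, ∀ i, P (s k) i v = P j₀ i v) :
    IsResidual frob (P j₀) Q (fun k => p (s k)) (fun k => κ (s k)) (fun k => φ (s k))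
      (fun k => V (s k)) (fun k => ρ (s k)) := by
  obtain ⟨h1, h2, h3, h4, ⟨T₀, T, hT₀, hT, hT', hcomp⟩, h6, h7⟩ := h
  refine ⟨fun k => h1 (s k), fun m => ?_, fun k i => h3 (s k) i, fun k => h4 (s k), ?_,
    fun k => h6 (s k), fun k => h7 (s k)⟩
  · exact (Set.finite_Iic m).subset fun k hk => (hs.id_le k).trans hk
  · refine ⟨T₀ ∪ T₁, fun k => T (s k) ∪ T₁, hT₀.union hT₁, fun k => (hT (s k)).union hT₁, ?_, ?_⟩
    · intro v hv
      obtain ⟨m, hm⟩ := hT' v (fun hh => hv (Or.inl hh))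
      refine (Set.finite_Iic m).subset fun k hk => (hs.id_le k).trans (hm _ ?_)
      exact hk.resolve_right (fun hh => hv (Or.inr hh))
    · intro k v hv t ht
      obtain ⟨a1, a2⟩ := hcomp (s k) v (fun hh => hv (Or.inl hh)) t ht
      refine ⟨fun i l => ?_, a2⟩
      rw [← hcl k v (fun hh => hv (Or.inr hh)) i]
      exact a1 i l

theorem adDegree_le {Γ : Type} {F F' : Type*} [Group Γ] [TopologicalSpace Γ] [IsTopologicalGroup Γ]
    [CompactSpace Γ] [Field F] [CommRing F'] {r : ℕ} {n : Fin r → ℕ}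
    (V : (i : Fin r) → Γ →* Matrix (Fin (n i)) (Fin (n i)) F')
    (ρ : Γ →* Matrix (Fin 2) (Fin 2) F) (hρ : IsOpen (ρ.ker : Set Γ)) :
    adDegree V ρ ≤ ρ.ker.index := by
  have h1 : ρ.ker.FiniteIndex := FWD_open _ hρ
  have hle : ρ.ker ≤ adKer ρ := by
    intro g hg
    refine ⟨1, ?_⟩
    rw [one_smul]
    exact hg
  have h2 : ρ.ker.relIndex ⊤ ≠ 0 := by
    rw [Subgroup.relIndex_top_right]
    exact h1.index_ne_zero
  have h3 : ρ.ker.relIndex (kerV V) ≠ 0 := fun h0 =>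
    h2 (Subgroup.relIndex_eq_zero_of_le_right le_top h0)
  calc adDegree V ρ ≤ ρ.ker.relIndex (kerV V) := Subgroup.relIndex_le_of_le_left hle h3
    _ ≤ ρ.ker.relIndex ⊤ := Subgroup.relIndex_le_of_le_right le_top h2
    _ = ρ.ker.index := Subgroup.relIndex_top_right _

section

variable {Γ : Type} {Place : Type u} {E : Type} [Group Γ] [TopologicalSpace Γ]
  [IsTopologicalGroup Γ] [CompactSpace Γ] [MeasurableSpace Γ] [BorelSpace Γ]
  (μ : Measure Γ) [μ.IsHaarMeasure] (frob : Place → Set Γ) [Field E] [NumberField E]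
  {r : ℕ} {n : Fin r → ℕ} {J : Type}

/-- The dichotomy for the `j` with the same system. -/
theorem gap_class2 (hF : FWD_stmt.{u}) (hB : BWD_stmt.{u, v}) (hd : DenseIn frob ⊤ Set.univ)
    (P : J → Fin r → Place → E[X]) (Q : Place → E[X]) (i₀ : Fin r)
    (hdet : ∀ j v, P j i₀ v = X - C ((Q v).coeff 0)) (T₁ : Set Place) (hT₁ : T₁.Finite)
    (p : J → ℕ) (κ : J → Type) [∀ j, Field (κ j)] [∀ j, IsAlgClosed (κ j)]
    [∀ j, CharP (κ j) (p j)] (φ : ∀ j, 𝓞 E →+* κ j)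
    (V : ∀ j, (i : Fin r) → Γ →* Matrix (Fin (n i)) (Fin (n i)) (ZMod (p j)))
    (ρ : ∀ j, Γ →* Matrix (Fin 2) (Fin 2) (κ j)) (hres : IsResidualFam frob P Q p κ φ V ρ)
    (j₀ : J)
    {F : Type v} [Field F] [IsAlgClosed F] [CharZero F] [TopologicalSpace F]
    [IsTopologicalRing F] [T2Space F] (ι : E →+* F)
    (V₀ : (i : Fin r) → Γ →* Matrix (Fin (n i)) (Fin (n i)) F)
    (ρ₀ : Γ →* Matrix (Fin 2) (Fin 2) F) (hR₀ : IsRealisation frob (P j₀) Q ι V₀ ρ₀) :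
    ∃ c B : ℕ, ∀ j, (∀ v ∉ T₁, ∀ i, P j i v = P j₀ i v) →
      (adDegree (V j) (ρ j) ≤ B ∧ AllArise.{v} μ frob n (P j) Q) ∨
        (p j ≤ c * adDegree (V j) (ρ j) ∧ NoneArises.{v} μ frob n (P j) Q) := by
  classical
  by_cases hrel : ∃ (S : Set Place) (Φ : (MvPolynomial (Fin r × ℕ) E)[X]), NonNegl μ frob S ∧
      IsRelation (P j₀) Q S Φ
  · -- geometric
    obtain ⟨U, a, b, hU, hab⟩ := (ar1 μ frob hd (P j₀) Q i₀ (hdet j₀) ι V₀ ρ₀ hR₀).1 hrel
    have hBB : ∃ B : ℕ, ∀ j, (∀ v ∉ T₁, ∀ i, P j i v = P j₀ i v) →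
        adDegree (V j) (ρ j) ≤ B := by
      by_contra hcon
      push Not at hcon
      obtain ⟨s, hs1, hs2⟩ := exists_seq p
        (fun k j => (∀ v ∉ T₁, ∀ i, P j i v = P j₀ i v) ∧ k < adDegree (V j) (ρ j))
        (fun k l j hkl hj => ⟨hj.1, hkl.trans_lt hj.2⟩) (fun k => (hcon k).imp fun j hj => hj)
        (fun m => by
          obtain ⟨B, hB'⟩ := hres.bounded m
          refine ⟨B, fun j hj => ?_⟩
          by_contra hlt
          exact absurd (hj.2.trans_le ((adDegree_le (V j) (ρ j) (hres.openρ j)).trans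
            (hB' j (not_lt.mp hlt)))) (lt_irrefl _))
      obtain ⟨B, hB'⟩ := hB frob hd (P j₀) Q ι V₀ ρ₀ hR₀.compV hR₀.comp U a b hU hab
        (fun k => p (s k)) (fun k => κ (s k)) (fun k => φ (s k))
        (fun k => V (s k)) (fun k => ρ (s k))
        (hres.restrict T₁ hT₁ j₀ s hs1 fun k => (hs2 k).1)
      exact absurd ((hs2 B).2.trans_le (hB' B)) (lt_irrefl _)
    obtain ⟨B, hBB⟩ := hBB
    refine ⟨0, B, fun j hj => Or.inl ⟨hBB j hj, ?_⟩⟩
    intro F' _ _ _ _ _ _ ι' V' ρ' hR'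
    have hA := (ar1 μ frob hd (P j₀) Q i₀ (hdet j₀) ι' V' ρ'
      (realisation_congr frob (P j) (P j₀) Q T₁ hT₁ hj ι' V' ρ' hR')).1 hrel
    exact ⟨hA, fun q s w O hO => (clause1 μ frob (P j) Q q s w O hO ι' V' ρ' hR').1
      ((ar1 μ frob hd (P j) Q i₀ (hdet j) ι' V' ρ' hR').2 hA)⟩
  · have hc : ∃ c : ℕ, ∀ j, (∀ v ∉ T₁, ∀ i, P j i v = P j₀ i v) →
        p j ≤ c * adDegree (V j) (ρ j) := by
      by_contra hcon
      push Not at hcon
      apply hrel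
      obtain ⟨s, hs1, hs2⟩ := exists_seq p
        (fun k j => (∀ v ∉ T₁, ∀ i, P j i v = P j₀ i v) ∧ k * adDegree (V j) (ρ j) < p j)
        (fun k l j hkl hj => ⟨hj.1, (Nat.mul_le_mul_right _ hkl).trans_lt hj.2⟩)
        (fun k => (hcon k).imp fun j hj => hj)
        (fun m => ⟨m, fun j hj => lt_of_le_of_lt (Nat.le_mul_of_pos_right _
          (Nat.pos_of_ne_zero (FWD_deg (V j) (ρ j) (hres.openρ j)))) hj.2⟩)
      refine hF μ frob hd (P j₀) Q i₀ (hdet j₀) (fun k => p (s k)) (fun k => κ (s k))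
        (fun k => φ (s k)) (fun k => V (s k)) (fun k => ρ (s k))
        (hres.restrict T₁ hT₁ j₀ s hs1 fun k => (hs2 k).1) ?_
      intro c
      refine (Set.Ici_infinite c).mono fun k hk => ?_
      exact lt_of_le_of_lt (Nat.mul_le_mul_right _ hk) (hs2 k).2
    obtain ⟨c, hc⟩ := hc
    refine ⟨c, 0, fun j hj => Or.inr ⟨hc j hj, ?_⟩⟩
    intro F' _ _ _ _ _ _ ι' V' ρ' hR'
    have hno : ¬ AdArises V' ρ' := fun hA => hrel ((ar1 μ frob hd (P j₀) Q i₀ (hdet j₀) ι' V' ρ'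
      (realisation_congr frob (P j) (P j₀) Q T₁ hT₁ hj ι' V' ρ' hR')).2 hA)
    exact ⟨hno, fun q s w O hO hA => hno ((ar1 μ frob hd (P j) Q i₀ (hdet j) ι' V' ρ' hR').1
      ((clause1 μ frob (P j) Q q s w O hO ι' V' ρ' hR').2 hA))⟩

/-- The family `P j` of systems has `p₀`-adic realisations of bounded degree, with bounded
ramification and bounded weights. -/
def HasBoundedRealisations (n : Fin r → ℕ) (P : J → Fin r → Place → E[X]) (T₁ : Set Place) :
    Prop :=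
  (∀ v, (frob v).Nonempty) ∧ (∀ v ∉ T₁, ∀ i, (Set.range fun j => P j i v).Finite) ∧
  ∃ (N : Subgroup Γ) (_ : N.Normal) (p₀ : ℕ) (_ : Fact p₀.Prime) (F₁ : Type) (_ : Field F₁)
    (_ : Algebra ℚ_[p₀] F₁) (_ : FiniteDimensional ℚ_[p₀] F₁) (_ : TopologicalSpace F₁)
    (_ : IsTopologicalRing F₁) (_ : ContinuousSMul ℚ_[p₀] F₁) (_ : T2Space F₁) (ι₁ : E →+* F₁)
    (V₁ : J → (i : Fin r) → Γ →* Matrix (Fin (n i)) (Fin (n i)) F₁),
    (∀ B : ℕ, {U : Subgroup Γ | IsOpen (U : Set Γ) ∧ U.Normal ∧ N ≤ U ∧ U.index ≤ B}.Finite) ∧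
    (∀ j i, Continuous (V₁ j i)) ∧ (∀ j i, N ≤ (V₁ j i).ker) ∧
    ∀ j i, ∀ v ∉ T₁, ∀ s ∈ frob v, (V₁ j i s).charpoly = (P j i v).map ι₁

/-- Faltings' finiteness. -/
theorem finite_classes (hd : DenseIn frob ⊤ Set.univ) (P : J → Fin r → Place → E[X])
    (T₁ : Set Place) (hT₁ : T₁.Finite) (h : HasBoundedRealisations frob n P T₁) :
    (Set.range fun j => fun v : {v : Place // v ∉ T₁} => fun i => P j i v.1).Finite := by
  classical
  obtain ⟨hne, hbd, N, _, p₀, _, F₁, _, _, _, _, _, _, _, ι₁, V₁, hfin, hV₁, hN₁, hc₁⟩ := h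
  set e := Module.finrank ℚ_[p₀] F₁ with he
  obtain ⟨T, hT, hTT, hTm⟩ := exists_meets frob N
    (∑ i, p₀ ^ (e * (n i + n i + 1) ^ (2 * n i))) T₁ hT₁ hd (hfin _)
  have _ : Finite T := hT
  let cls : J → (T → Fin r → E[X]) := fun j v i => P j i v.1
  have hfincls : (Set.range cls).Finite := by
    refine Set.Finite.subset (Set.Finite.pi' (t := fun v : T => {f : Fin r → E[X] |
      ∀ i, f i ∈ Set.range fun j => P j i v.1}) fun v => ?_) ?_
    · exact Set.Finite.pi' fun i => hbd v.1 (Set.disjoint_left.mp hTT v.2) i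
    · rintro _ ⟨j, rfl⟩ v i
      exact ⟨j, rfl⟩
  have hcls : ∀ j j', cls j = cls j' → ∀ v ∉ T₁, ∀ i, P j i v = P j' i v := by
    intro j j' h v hv i
    refine eq_of_eqOn frob hne N (n i) e he.ge T (hTm.mono ?_) ι₁ T₁ hTT (P j i) (P j' i)
      (V₁ j i) (V₁ j' i) (hV₁ j i) (hV₁ j' i) (hN₁ j i) (hN₁ j' i) (hc₁ j i) (hc₁ j' i) ?_ v hv
    · exact Finset.single_le_sum (f := fun i => p₀ ^ (e * (n i + n i + 1) ^ (2 * n i)))
        (fun _ _ => Nat.zero_le _) (Finset.mem_univ i)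
    · intro w hw
      exact congrFun (congrFun h ⟨w, hw⟩) i
  rcases isEmpty_or_nonempty J with hJ | hJ
  · exact Set.toFinite _
  have hex : ∀ x ∈ Set.range cls, ∃ j₀, cls j₀ = x := fun x hx => hx
  choose! g hg using hex
  refine (hfincls.image fun x => fun v : {v : Place // v ∉ T₁} => fun i => P (g x) i v.1).subset ?_
  rintro _ ⟨j, rfl⟩
  refine ⟨cls j, ⟨j, rfl⟩, ?_⟩
  funext v i
  exact hcls (g (cls j)) j (hg (cls j) ⟨j, rfl⟩) v.1 v.2 i

/-- **The dichotomy for a family with finitely many systems.** -/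
theorem gap2 (hF : FWD_stmt.{u}) (hB : BWD_stmt.{u, v}) (hd : DenseIn frob ⊤ Set.univ)
    (P : J → Fin r → Place → E[X]) (Q : Place → E[X]) (i₀ : Fin r)
    (hdet : ∀ j v, P j i₀ v = X - C ((Q v).coeff 0)) (T₁ : Set Place) (hT₁ : T₁.Finite)
    (hfin : (Set.range fun j => fun v : {v : Place // v ∉ T₁} => fun i => P j i v.1).Finite)
    (p : J → ℕ) (κ : J → Type) [∀ j, Field (κ j)] [∀ j, IsAlgClosed (κ j)]
    [∀ j, CharP (κ j) (p j)] (φ : ∀ j, 𝓞 E →+* κ j)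
    (V : ∀ j, (i : Fin r) → Γ →* Matrix (Fin (n i)) (Fin (n i)) (ZMod (p j)))
    (ρ : ∀ j, Γ →* Matrix (Fin 2) (Fin 2) (κ j)) (hres : IsResidualFam frob P Q p κ φ V ρ)
    {F : Type v} [Field F] [IsAlgClosed F] [CharZero F] [TopologicalSpace F]
    [IsTopologicalRing F] [T2Space F] (ι : E →+* F)
    (V₀ : J → (i : Fin r) → Γ →* Matrix (Fin (n i)) (Fin (n i)) F)
    (ρ₀ : Γ →* Matrix (Fin 2) (Fin 2) F) (hR₀ : ∀ j, IsRealisation frob (P j) Q ι (V₀ j) ρ₀) :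
    ∃ c B : ℕ, ∀ j,
      (adDegree (V j) (ρ j) ≤ B ∧ AllArise.{v} μ frob n (P j) Q) ∨
        (p j ≤ c * adDegree (V j) (ρ j) ∧ NoneArises.{v} μ frob n (P j) Q) := by
  classical
  let cls : J → ({v : Place // v ∉ T₁} → Fin r → E[X]) := fun j v i => P j i v.1
  have hcls : ∀ j j', cls j = cls j' → ∀ v ∉ T₁, ∀ i, P j i v = P j' i v :=
    fun j j' h v hv i => congrFun (congrFun h ⟨v, hv⟩) i
  have hall : ∀ x ∈ Set.range cls, ∃ c B : ℕ, ∀ j, cls j = x →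
      (adDegree (V j) (ρ j) ≤ B ∧ AllArise.{v} μ frob n (P j) Q) ∨
        (p j ≤ c * adDegree (V j) (ρ j) ∧ NoneArises.{v} μ frob n (P j) Q) := by
    rintro _ ⟨j₀, rfl⟩
    obtain ⟨c, B, h⟩ := gap_class2 μ frob hF hB hd P Q i₀ hdet T₁ hT₁ p κ φ V ρ hres j₀ ι (V₀ j₀)
      ρ₀ (hR₀ j₀)
    exact ⟨c, B, fun j hj => h j (hcls j j₀ hj)⟩
  choose! c B hcB using hall
  have hfincls : (Set.range cls).Finite := hfin
  refine ⟨∑ x ∈ hfincls.toFinset, c x, ∑ x ∈ hfincls.toFinset, B x, fun j => ?_⟩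
  have hx : cls j ∈ hfincls.toFinset := by
    rw [Set.Finite.mem_toFinset]
    exact ⟨j, rfl⟩
  have hc : c (cls j) ≤ ∑ x ∈ hfincls.toFinset, c x :=
    Finset.single_le_sum (f := c) (fun _ _ => Nat.zero_le _) hx
  have hBle : B (cls j) ≤ ∑ x ∈ hfincls.toFinset, B x :=
    Finset.single_le_sum (f := B) (fun _ _ => Nat.zero_le _) hx
  rcases hcB (cls j) ⟨j, rfl⟩ j rfl with ⟨h1, h2⟩ | ⟨h1, h2⟩
  · exact Or.inl ⟨h1.trans hBle, h2⟩
  · exact Or.inr ⟨h1.trans (Nat.mul_le_mul_right _ hc), h2⟩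

end

end Pool.Agent.DS
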