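import Mathlib

/-!
# MP_2e0e07_nt (DS): a common root modulo an ideal of large norm is a common root
-/

namespace Pool.Agent.DS

open Polynomial NumberField

/-- `P` and `Q` have a common root modulo `I`: in some commutative ring `A`, over a homomorphism
`R → A` whose kernel is contained in `I`. -/
def CommonRootMod {R : Type*} [CommRing R] (I : Ideal R) (P Q : R[X]) : Prop :=
  ∃ (A : Type) (_ : CommRing A) (f : R →+* A), RingHom.ker f ≤ I ∧
    ∃ x : A, P.eval₂ f x = 0 ∧ Q.eval₂ f x = 0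

theorem resultant_mem {R : Type*} [CommRing R] {I : Ideal R} {P Q : R[X]}
    (hP : P.natDegree ≠ 0) (h : CommonRootMod I P Q) : resultant P Q ∈ I := by
  obtain ⟨A, _, f, hf, x, hx1, hx2⟩ := h
  obtain ⟨p, q, -, -, e⟩ := exists_mul_add_mul_eq_C_resultant P Q le_rfl le_rfl (Or.inl hP)
  apply hf
  rw [RingHom.mem_ker]
  have h1 := congrArg (eval₂ f x) e
  rw [eval₂_add, eval₂_mul, eval₂_mul, hx1, hx2, zero_mul, zero_mul, add_zero, eval₂_C] at h1
  exact h1.symm

/-- the resultant of two monic complex polynomials with roots of absolute value at most `B` -/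
theorem norm_resultant_le {f g : ℂ[X]} (hf : f.Monic) (hg : g.Monic) {B : ℝ} (hB : 0 ≤ B)
    (hf' : ∀ z, f.IsRoot z → ‖z‖ ≤ B) (hg' : ∀ z, g.IsRoot z → ‖z‖ ≤ B) :
    ‖resultant f g‖ ≤ (2 * B) ^ (f.natDegree * g.natDegree) := by
  rw [resultant_eq_prod_roots_sub f g hf hg (IsAlgClosed.splits f) (IsAlgClosed.splits g)]
  have h1 : ∀ s : Multiset ℂ, (∀ z ∈ s, ‖z‖ ≤ 2 * B) → ‖s.prod‖ ≤ (2 * B) ^ s.card := by
    intro s
    induction s using Multiset.induction_on with
    | empty => intro _; simp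
    | cons a s ih =>
      intro h
      rw [Multiset.prod_cons, norm_mul, Multiset.card_cons, pow_succ, mul_comm]
      exact mul_le_mul (ih fun z hz => h z (Multiset.mem_cons_of_mem hz))
        (h a (Multiset.mem_cons_self a s)) (norm_nonneg _) (by positivity)
  have h2 := h1 ((f.roots ×ˢ g.roots).map fun ij ↦ ij.1 - ij.2) (by
    intro z hz
    obtain ⟨ij, hij, rfl⟩ := Multiset.mem_map.mp hz
    rw [Multiset.mem_product] at hij
    have a1 := hf' ij.1 (isRoot_of_mem_roots hij.1)
    have a2 := hg' ij.2 (isRoot_of_mem_roots hij.2)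
    calc ‖ij.1 - ij.2‖ ≤ ‖ij.1‖ + ‖ij.2‖ := norm_sub_le _ _
      _ ≤ 2 * B := by linarith)
  refine h2.trans (le_of_eq ?_)
  rw [Multiset.card_map, Multiset.card_product,
    ← (splits_iff_card_roots.mp (IsAlgClosed.splits f)),
    ← (splits_iff_card_roots.mp (IsAlgClosed.splits g))]

/-- the main estimate: a common root modulo an ideal of norm larger than `(2B)^(nm[E:Q])` -/
theorem not_isCoprime_of_commonRootMod {E : Type*} [Field E] [NumberField E] {P Q : (𝓞 E)[X]}
    (hP : P.Monic) (hQ : Q.Monic) (hPd : P.natDegree ≠ 0) {B : ℕ}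
    (hPB : ∀ φ : E →+* ℂ, ∀ z, (P.map (φ.comp (algebraMap (𝓞 E) E))).IsRoot z → ‖z‖ ≤ B)
    (hQB : ∀ φ : E →+* ℂ, ∀ z, (Q.map (φ.comp (algebraMap (𝓞 E) E))).IsRoot z → ‖z‖ ≤ B)
    {I : Ideal (𝓞 E)}
    (hI : (2 * B) ^ (P.natDegree * Q.natDegree * Module.finrank ℚ E) < Ideal.absNorm I ∨ I = ⊥)
    (h : CommonRootMod I P Q) :
    ¬ IsCoprime (P.map (algebraMap (𝓞 E) E)) (Q.map (algebraMap (𝓞 E) E)) := by
  have hr := resultant_mem hPd h
  have h0 : resultant P Q = 0 := by
    rcases hI with hI | hI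
    · by_contra hne
      have h1 : Ideal.absNorm I ∣ Ideal.absNorm (Ideal.span {resultant P Q}) :=
        Ideal.absNorm_dvd_absNorm_of_le ((Ideal.span_singleton_le_iff_mem _).mpr hr)
      have h2 : Ideal.absNorm (Ideal.span {resultant P Q}) ≠ 0 := by
        rw [Ideal.absNorm_span_singleton, Int.natAbs_ne_zero]
        exact (Algebra.norm_ne_zero_iff).mpr hne
      have h3 := Nat.le_of_dvd (Nat.pos_of_ne_zero h2) h1
      have h4 : ((Ideal.absNorm (Ideal.span {resultant P Q}) : ℕ) : ℝ) ≤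
          (2 * B) ^ (P.natDegree * Q.natDegree * Module.finrank ℚ E) := by
        rw [Ideal.absNorm_span_singleton]
        have h5 : ((Algebra.norm ℤ (resultant P Q)).natAbs : ℝ) =
            ‖∏ φ : E →ₐ[ℚ] ℂ, φ ((resultant P Q : 𝓞 E) : E)‖ := by
          rw [← Algebra.norm_eq_prod_embeddings, ← Algebra.coe_norm_int]
          simp only [eq_ratCast, Rat.cast_intCast, Complex.norm_intCast, Nat.cast_natAbs,
            Int.cast_abs]
        rw [h5, norm_prod]
        have h6 : ∀ φ : E →ₐ[ℚ] ℂ, ‖φ ((resultant P Q : 𝓞 E) : E)‖ ≤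
            (2 * (B : ℝ)) ^ (P.natDegree * Q.natDegree) := by
          intro φ
          have h7 : φ ((resultant P Q : 𝓞 E) : E) =
              resultant (P.map ((φ : E →+* ℂ).comp (algebraMap (𝓞 E) E)))
                (Q.map ((φ : E →+* ℂ).comp (algebraMap (𝓞 E) E))) := by
            have h8 := resultant_map_map (f := P) (g := Q) (m := P.natDegree) (n := Q.natDegree)
              ((φ : E →+* ℂ).comp (algebraMap (𝓞 E) E))
            rw [hP.natDegree_map, hQ.natDegree_map, h8]
            rfl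
          rw [h7]
          have h9 := norm_resultant_le (hP.map ((φ : E →+* ℂ).comp (algebraMap (𝓞 E) E)))
            (hQ.map ((φ : E →+* ℂ).comp (algebraMap (𝓞 E) E))) (Nat.cast_nonneg B)
            (hPB (φ : E →+* ℂ)) (hQB (φ : E →+* ℂ))
          rw [hP.natDegree_map, hQ.natDegree_map] at h9 ⊢
          exact h9
        calc ∏ φ : E →ₐ[ℚ] ℂ, ‖φ ((resultant P Q : 𝓞 E) : E)‖
            ≤ ∏ _φ : E →ₐ[ℚ] ℂ, (2 * (B : ℝ)) ^ (P.natDegree * Q.natDegree) :=
              Finset.prod_le_prod (fun _ _ => norm_nonneg _) fun φ _ => h6 φ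
          _ = (2 * B) ^ (P.natDegree * Q.natDegree * Module.finrank ℚ E) := by
              rw [Finset.prod_const, Finset.card_univ, AlgHom.card, ← pow_mul]
      have h5 : Ideal.absNorm (Ideal.span {resultant P Q}) ≤
          (2 * B) ^ (P.natDegree * Q.natDegree * Module.finrank ℚ E) := by exact_mod_cast h4
      omega
    · rw [hI] at hr
      exact (Submodule.mem_bot _).mp hr
  have h1 : resultant (P.map (algebraMap (𝓞 E) E)) (Q.map (algebraMap (𝓞 E) E)) = 0 := by
    have h8 := resultant_map_map (f := P) (g := Q) (m := P.natDegree) (n := Q.natDegree)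
      (algebraMap (𝓞 E) E)
    rw [hP.natDegree_map, hQ.natDegree_map, h8, h0, map_zero]
  exact (resultant_eq_zero_iff.mp h1).2

end Pool.Agent.DS
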