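import Mathlib
import Pool.Agent.helper85.FCR.Main
import Pool.Agent.helper46.DS.Cong

/-!
# MP_2e0e07_nt (DS): congruences at finitely many places decide
-/

namespace Pool.Agent.DS

open Polynomial NumberField Matrix Pool.Agent.GO Pool.Agent.FC

/-- Outside the set `T` of places the characteristic polynomial of `V` at the Frobenius elements is
the image of `P v`. -/
def CompatibleOff {Γ Place R F d : Type*} [Group Γ] [CommRing R] [Field F] [Fintype d]
    [DecidableEq d] (frob : Place → Set Γ) (T : Set Place) (ι : R →+* F) (P : Place → R[X])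
    (V : Γ →* Matrix d d F) : Prop :=
  ∀ v ∉ T, ∀ s ∈ frob v, (V s).charpoly = (P v).map ι

/-- `criterion_set` for representations which are trivial on a normal subgroup `N`. -/
theorem criterion_set_mod {p : ℕ} [Fact p.Prime] {Γ : Type*} [Group Γ] [TopologicalSpace Γ]
    [IsTopologicalGroup Γ] [CompactSpace Γ] {n e : ℕ} {F : Type*} [Field F] [Algebra ℚ_[p] F]
    [FiniteDimensional ℚ_[p] F] [TopologicalSpace F] [IsTopologicalRing F]
    [ContinuousSMul ℚ_[p] F] [T2Space F] (he : Module.finrank ℚ_[p] F ≤ e)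
    (N : Subgroup Γ) [N.Normal]
    (V : Γ →* Matrix (Fin n) (Fin n) F) (ρ : Γ →* Matrix (Fin 2) (Fin 2) F)
    (hV : Continuous V) (hρ : Continuous ρ) (hVN : N ≤ V.ker) (hρN : N ≤ ρ.ker) (Z : Set Γ)
    (hZ : ∀ U : Subgroup Γ, IsOpen (U : Set Γ) → U.Normal → N ≤ U →
      U.index ≤ p ^ (e * (n + 2) ^ (4 * n)) → ∀ g, ∃ s ∈ Z, s⁻¹ * g ∈ U)
    (h : ∀ s ∈ Z, (syl (V s) (ρ s)).det = 0) (g : Γ) : (syl (V g) (ρ g)).det = 0 := by
  have h1 := criterion_set (Γ := Γ ⧸ N) he (QuotientGroup.lift N V hVN)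
    (QuotientGroup.lift N ρ hρN)
    (by
      rw [show ((QuotientGroup.lift N V hVN : Γ ⧸ N →* Matrix (Fin n) (Fin n) F) :
        Γ ⧸ N → Matrix (Fin n) (Fin n) F) = Quotient.lift V _ from rfl]
      exact Continuous.quotient_lift hV _)
    (by
      rw [show ((QuotientGroup.lift N ρ hρN : Γ ⧸ N →* Matrix (Fin 2) (Fin 2) F) :
        Γ ⧸ N → Matrix (Fin 2) (Fin 2) F) = Quotient.lift ρ _ from rfl]
      exact Continuous.quotient_lift hρ _)
    ((QuotientGroup.mk : Γ → Γ ⧸ N) '' Z)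
    (by
      intro U hU1 hU2 hU3 g'
      obtain ⟨g, rfl⟩ := QuotientGroup.mk_surjective g'
      obtain ⟨s, hs, hsg⟩ := hZ (U.comap (QuotientGroup.mk' N))
        (hU1.preimage continuous_quot_mk) inferInstance
        (by
          intro x hx
          rw [Subgroup.mem_comap]
          have : QuotientGroup.mk' N x = 1 := (QuotientGroup.eq_one_iff x).mpr hx
          rw [this]
          exact U.one_mem)
        (by
          rw [Subgroup.index_comap_of_surjective _ (QuotientGroup.mk'_surjective N)]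
          exact hU3) g
      exact ⟨_, ⟨s, hs, rfl⟩, hsg⟩)
    (by
      rintro _ ⟨s, hs, rfl⟩
      exact h s hs) (QuotientGroup.mk g)
  exact h1

/-- The finite test at the places of `T`. -/
theorem sturm {p : ℕ} [Fact p.Prime] {Γ Place : Type*} [Group Γ] [TopologicalSpace Γ]
    [IsTopologicalGroup Γ] [CompactSpace Γ] (frob : Place → Set Γ)
    (hdense : ∀ T : Set Place, T.Finite → Dense (⋃ v ∈ Tᶜ, frob v))
    (N : Subgroup Γ) [N.Normal] (n e : ℕ) (T : Set Place)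
    (hT : ∀ U : Subgroup Γ, IsOpen (U : Set Γ) → U.Normal → N ≤ U →
      U.index ≤ p ^ (e * (n + 2) ^ (4 * n)) → ∀ g, ∃ v ∈ T, ∃ s ∈ frob v, s⁻¹ * g ∈ U)
    {E : Type*} [Field E] [NumberField E] (P Q : Place → (𝓞 E)[X]) (B : Place → ℕ)
    (hP : ∀ v ∈ T, (P v).Monic ∧ (P v).natDegree = n ∧ ∀ φ : E →+* ℂ, ∀ z,
      ((P v).map (φ.comp (algebraMap (𝓞 E) E))).IsRoot z → ‖z‖ ≤ B v)
    (hQ : ∀ v ∈ T, (Q v).Monic ∧ (Q v).natDegree = 2 ∧ ∀ φ : E →+* ℂ, ∀ z,
      ((Q v).map (φ.comp (algebraMap (𝓞 E) E))).IsRoot z → ‖z‖ ≤ B v)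
    -- the realisation at `p`
    {F₁ : Type*} [Field F₁] [Algebra ℚ_[p] F₁] [FiniteDimensional ℚ_[p] F₁] [TopologicalSpace F₁]
    [IsTopologicalRing F₁] [ContinuousSMul ℚ_[p] F₁] [T2Space F₁]
    (he : Module.finrank ℚ_[p] F₁ ≤ e) (ι₁ : E →+* F₁)
    (V₁ : Γ →* Matrix (Fin n) (Fin n) F₁) (ρ₁ : Γ →* Matrix (Fin 2) (Fin 2) F₁)
    (hV₁ : Continuous V₁) (hρ₁ : Continuous ρ₁) (hVN : N ≤ V₁.ker) (hρN : N ≤ ρ₁.ker)
    (T₁ : Set Place) (hT₁ : T₁.Finite) (hTT : Disjoint T T₁)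
    (hcV : CompatibleOff frob T₁ (ι₁.comp (algebraMap (𝓞 E) E)) P V₁)
    (hcρ : CompatibleOff frob T₁ (ι₁.comp (algebraMap (𝓞 E) E)) Q ρ₁)
    -- the congruences
    (hn : n ≠ 0)
    (h : ∀ v ∈ T, ∃ I : Ideal (𝓞 E),
      ((2 * B v) ^ (n * 2 * Module.finrank ℚ E) < Ideal.absNorm I ∨ I = ⊥) ∧
        CommonRootMod I (P v) (Q v))
    -- every realisation
    {F : Type*} [Field F] [IsAlgClosed F] [CharZero F] [TopologicalSpace F] [IsTopologicalRing F]
    [T2Space F] (ι : E →+* F) (V : Γ →* Matrix (Fin n) (Fin n) F)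
    (ρ : Γ →* Matrix (Fin 2) (Fin 2) F) (hV : Continuous V) (hρ : Continuous ρ)
    (T₂ : Set Place) (hT₂ : T₂.Finite)
    (hcV' : CompatibleOff frob T₂ (ι.comp (algebraMap (𝓞 E) E)) P V)
    (hcρ' : CompatibleOff frob T₂ (ι.comp (algebraMap (𝓞 E) E)) Q ρ)
    (hirr : Irred (fun g => ρ g)) :
    ∃ a b : ℕ, IsSubquotient (fun g => ρ g) (tens V a b) := by
  -- the determinant vanishes on the whole group
  have h1 : ∀ g, (syl (V₁ g) (ρ₁ g)).det = 0 := by
    refine criterion_set_mod he N V₁ ρ₁ hV₁ hρ₁ hVN hρN (⋃ v ∈ T, frob v) ?_ ?_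
    · intro U hU1 hU2 hU3 hU4 g
      obtain ⟨v, hv, s, hs, hsg⟩ := hT U hU1 hU2 hU3 hU4 g
      refine ⟨s, ?_, hsg⟩
      simp only [Set.mem_iUnion]
      exact ⟨v, hv, hs⟩
    · intro s hs
      simp only [Set.mem_iUnion] at hs
      obtain ⟨v, hv, hs⟩ := hs
      obtain ⟨I, hI, hc⟩ := h v hv
      obtain ⟨p1, p2, p3⟩ := hP v hv
      obtain ⟨q1, q2, q3⟩ := hQ v hv
      have h2 := not_isCoprime_of_commonRootMod p1 q1 (by rw [p2]; exact hn) p3 q3
        (by rw [p2, q2]; exact hI) hc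
      apply det_syl_of_not_coprime
      have hv1 : v ∉ T₁ := Set.disjoint_left.mp hTT hv
      rw [hcV v hv1 s hs, hcρ v hv1 s hs, ← Polynomial.map_map, ← Polynomial.map_map,
        Polynomial.isCoprime_map]
      exact h2
  refine criterion V hV ρ hρ hirr (⋃ v ∈ (T₁ ∪ T₂)ᶜ, frob v) (hdense _ (hT₁.union hT₂)) ?_
  intro s hs
  simp only [Set.mem_iUnion] at hs
  obtain ⟨v, hv, hsv⟩ := hs
  have hv1 : v ∉ T₁ := fun hh => hv (by simp [hh])
  have hv2 : v ∉ T₂ := fun hh => hv (by simp [hh])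
  -- a common root at `v`
  let K := AlgebraicClosure F₁
  have h2 : ¬ IsCoprime ((P v).map (algebraMap (𝓞 E) E)) ((Q v).map (algebraMap (𝓞 E) E)) := by
    have h3 : (syl ((V₁ s).map (algebraMap F₁ K)) ((ρ₁ s).map (algebraMap F₁ K))).det = 0 := by
      rw [← map_det_syl, h1 s, map_zero]
    obtain ⟨μ, e1, e2⟩ := common_of_det_syl h3
    rw [Matrix.charpoly_map, hcV v hv1 s hsv, ← Polynomial.map_map, Polynomial.map_map] at e1
    rw [Matrix.charpoly_map, hcρ v hv1 s hsv, ← Polynomial.map_map, Polynomial.map_map] at e2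
    exact not_coprime_of_common_root _ e1 e2
  have hP0 : (P v).map (algebraMap (𝓞 E) E) ≠ 0 := by
    intro h0
    have h4 := hcV' v hv2 s hsv
    rw [← Polynomial.map_map, h0, Polynomial.map_zero] at h4
    exact (Matrix.charpoly_monic (V s)).ne_zero h4
  obtain ⟨ν, f1, f2⟩ := common_root_transfer ι hP0 h2
  exact ⟨ν, by rw [hcV' v hv2 s hsv, ← Polynomial.map_map]; exact f1,
    by rw [hcρ' v hv2 s hsv, ← Polynomial.map_map]; exact f2⟩

end Pool.Agent.DS
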